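import Pool.Agent.H103R2.LM.R

/-!
# The archimedean part, uniformly near the hyperplane
-/

open Polynomial Pool.Agent.H337R2 Filter Topology Pool.Agent.LZ

namespace Pool.Agent.LM

noncomputable section

open AM in
/-- **the archimedean part**, with the statements of the other tasks as hypotheses -/
theorem AU_main : ∃ C0 : ℝ, 0 < C0 ∧ ∀ᶠ n : ℕ in atTop, ∀ α β : ℚ, |et α β| ≤ Real.exp (-(C0 * n)) →
    DD n α β ≠ 0 →
    Real.log |((DD n α β : ℚ) : ℝ)| ≤ 147 * (n : ℝ) ^ 2 * Real.log n + 140 * (n : ℝ) ^ 2 +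
      7 * n * Real.log (1 + |(β : ℝ)|) := by
  have V4 : AM.SV4 := V4_eS
  have V5 : AM.SV5 := V5_eN
  have G6 : AM.SG6 := G6_pair
  obtain ⟨K1, hK1, hsup⟩ := supN V1_upper V1_tail
  obtain ⟨K2, hK2, hlow⟩ := lowN
  obtain ⟨CF, CR, hCF, hCR, hpN⟩ := potN
  set C2 : ℝ := 1505 with hC2
  obtain ⟨C3, hC3, hY⟩ := potY
  obtain ⟨C5, hC5, hS⟩ := G5_sat
  obtain ⟨C6, hC6, hG6⟩ := G6
  obtain ⟨K7, hK7, h200⟩ := const_le (Real.log 201)
  obtain ⟨K8, hK8, h400⟩ := const_le (Real.log 400)
  set T : ℝ := 70 + 2 * (K1 + K2 + K8) + 5 * (K7 + K1) + 7 * (C3 + C2) + C5 + 392 * C6 with hT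
  refine ⟨CF + CR + 1505 + 1, by positivity, ?_⟩
  have key : ∀ᶠ n : ℕ in atTop, ∀ α β : ℚ, |et α β| ≤ Real.exp (-((CF + CR + 1505 + 1) * n)) → DD n α β ≠ 0 →
      Real.log |((DD n α β : ℚ) : ℝ)| ≤ 147 * ((n : ℝ) ^ 2 * Real.log n) + 1391 / 10 * (n : ℝ) ^ 2 +
        T * (n * Real.log n) + 7 * n * Real.log (1 + |(β : ℝ)|) := by
    filter_upwards [hsup, eventually_ge_atTop 2] with n hsup hn α β heta hD
    have hn' := two_le hn
    have hnp : (0 : ℝ) < n := by linarith
    have hl2 : 0 < Real.log 2 := Real.log_pos (by norm_num)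
    have hl := log2_le hn
    have hln : 0 < Real.log n := by linarith
    set MM : ℝ := Real.exp (209 / 20 * n + 21 * n * Real.log n + K1 * Real.log n) with hMM
    have hMM0 : 0 < MM := Real.exp_pos _
    set L : ℕ → ℝ := fun j => Lp n (Finset.range (14 * n)) (10 * j) + Lp n (Finset.range (7 * n)) (10 * j) with hL
    set Lb : ℝ := Real.log (1 + |(β : ℝ)|) with hLb
    have hLb0 : 0 ≤ Lb := Real.log_nonneg (by linarith [abs_nonneg (β : ℝ)])
    set b : ℕ → ℝ := fun j => if j < 2 * n then Wt n j * Real.exp (L j) + 201 * MM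
      else if j < 7 * n then 201 * MM
      else Real.exp (923 / 20 * n + 21 * n * Real.log n + C3 * Real.log n + C2 * Real.log n + Lb) with hb
    have hbpos : ∀ j, 0 < b j := by
      intro j
      rw [hb]
      dsimp only
      have := Wt_pos n j
      split_ifs <;> positivity
    -- the matrix
    have e14 : 2 * (7 * n) = 14 * n := by ring
    have hinj : Set.InjOn (zq n) (Finset.range (2 * (7 * n))) := by
      rw [e14]
      intro i hi j hj hij
      unfold zq at hij
      have h2 : (nd n i : ℚ) = nd n j := by linarith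
      exact G0_nd_inj (by omega) hi hj (by exact_mod_cast h2)
    have h5 := A5_lagrange (AL n α) (BL n β) (zr 2) (7 * n) (zq n) hinj
    rw [e14] at h5
    change _ = ((DD n α β : ℚ) : ℝ) ^ 2 * _ at h5
    set M : Matrix (Fin (14 * n)) (Fin (14 * n)) ℝ := (Matrix.of fun i j : Fin (14 * n) =>
      if j.1 < 7 * n then
        ((AL n α (lag (Finset.range (14 * n)) (zq n) i.1 * lag (Finset.range (7 * n)) (zq n) j.1) : ℚ) : ℝ) +
          zr 2 * ((BL n β (lag (Finset.range (14 * n)) (zq n) i.1 * lag (Finset.range (7 * n)) (zq n) j.1) : ℚ) : ℝ)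
      else ((BL n β (lag (Finset.range (14 * n)) (zq n) i.1 *
        lag (Finset.Ico (7 * n) (14 * n)) (zq n) j.1) : ℚ) : ℝ)) with hM
    have hcorr : ∀ i j : ℕ, |et α β * ((rho n (PL n * (lag (Finset.range (14 * n)) (zq n) i *
        lag (Finset.range (7 * n)) (zq n) j)) 3 : ℚ) : ℝ)| ≤ MM := by
      intro i j
      have r1 := RU_rho hn (Finset.range (7 * n)) (Finset.range_subset_range.mpr (by omega)) i j 3
        (by norm_num) _ (fun k hk => hpN n hn k hk)
      rw [abs_mul]
      refine (mul_le_mul heta r1 (abs_nonneg _) (Real.exp_pos _).le).trans ?_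
      rw [← Real.exp_add, hMM]
      apply Real.exp_le_exp.mpr
      have hlogn : Real.log n ≤ n := (Real.log_le_sub_one_of_pos hnp).trans (by linarith)
      have q1 : CR * Real.log n ≤ CR * n := mul_le_mul_of_nonneg_left hlogn hCR.le
      have q2 : (1505 : ℝ) * Real.log n ≤ 1505 * n := mul_le_mul_of_nonneg_left hlogn (by norm_num)
      have q3 : 0 ≤ K1 * Real.log n := by positivity
      have q4 : (0 : ℝ) ≤ CF * n := by positivity
      have q5 : -((CF + CR + 1505 + 1) * (n : ℝ)) + (CF * n + 21 * n * Real.log n + CR * Real.log n +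
        1505 * Real.log n) = 21 * n * Real.log n + (CR * Real.log n - CR * n) +
          (1505 * Real.log n - 1505 * n) - n := by ring
      rw [q5]
      linarith
    have hentry : ∀ i j : Fin (14 * n), |M i j| ≤ b j := by
      intro i j
      rw [hM, hb]
      simp only [Matrix.of_apply]
      by_cases hj7 : j.1 < 7 * n
      · rw [if_pos hj7]
        have h1 := GU_entryN (by omega : 1 ≤ n) α β MM hMM0.le hsup i.1 j.1 i.2 hj7
        have h2 := hcorr i.1 j.1
        set E : ℝ := et α β * ((rho n (PL n * (lag (Finset.range (14 * n)) (zq n) i.1 *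
          lag (Finset.range (7 * n)) (zq n) j.1)) 3 : ℚ) : ℝ) with hE
        set F : ℝ := ((AL n α (lag (Finset.range (14 * n)) (zq n) i.1 *
            lag (Finset.range (7 * n)) (zq n) j.1) : ℚ) : ℝ) +
          zr 2 * ((BL n β (lag (Finset.range (14 * n)) (zq n) i.1 *
            lag (Finset.range (7 * n)) (zq n) j.1) : ℚ) : ℝ) with hF
        have h3 : |F| ≤ |F + E| + |E| := by
          have := abs_sub_le (F + E) E 0
          have e1 : F = (F + E) - E := by ring
          calc |F| = |(F + E) - E| := by rw [← e1]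
            _ ≤ |F + E| + |E| := abs_sub _ _
        by_cases hj2 : j.1 < 2 * n
        · rw [if_pos hj2]
          rw [if_pos hj2] at h1
          have e2 : Wt n j.1 * Real.exp (L j.1) = Wt n j.1 * Real.exp (Lp n (Finset.range (14 * n)) (10 * j.1) +
            Lp n (Finset.range (7 * n)) (10 * j.1)) := rfl
          rw [e2]
          linarith
        · rw [if_neg hj2, if_pos hj7]
          rw [if_neg hj2, zero_add] at h1
          linarith
      · rw [if_neg hj7, if_neg (by omega), if_neg hj7]
        exact RU_entryY β hn _ (fun k hk => hY n hn k hk) i.1 j.1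
    have hdet := A6_det_le (14 * n) M b (fun j => (hbpos j).le) hentry
    -- logarithms
    have hDr : ((DD n α β : ℚ) : ℝ) ≠ 0 := by exact_mod_cast hD
    have v1 := VD_pos (n := n) (by omega) (s := Finset.range (14 * n)) (Finset.Subset.refl _)
    have v2 := VD_pos (n := n) (by omega) (s := Finset.range (7 * n))
      (Finset.range_subset_range.mpr (by omega))
    have v3 := VD_pos (n := n) (by omega) (s := Finset.Ico (7 * n) (14 * n))
      (fun i hi => Finset.mem_range.mpr (Finset.mem_Ico.mp hi).2)
    have hM0 : M.det ≠ 0 := by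
      intro h0
      rw [h0] at h5
      have : (0 : ℝ) < ((DD n α β : ℚ) : ℝ) ^ 2 *
        (VD (Finset.range (14 * n)) (zq n) * VD (Finset.range (7 * n)) (zq n) *
          VD (Finset.Ico (7 * n) (14 * n)) (zq n)) := by positivity
      rw [← h5] at this
      norm_num at this
    have hlog1 : 2 * Real.log |M.det| = 2 * Real.log |((DD n α β : ℚ) : ℝ)| +
        (Real.log (VD (Finset.range (14 * n)) (zq n)) + Real.log (VD (Finset.range (7 * n)) (zq n)) +
          Real.log (VD (Finset.Ico (7 * n) (14 * n)) (zq n))) := by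
      have := congrArg Real.log h5
      rw [Real.log_pow, Real.log_mul (pow_ne_zero 2 hDr) (by positivity), Real.log_pow,
        Real.log_mul (by positivity) v3.ne', Real.log_mul v1.ne' v2.ne'] at this
      rw [Real.log_abs, Real.log_abs]
      push_cast at this
      exact this
    have hlog2 : Real.log |M.det| ≤ Real.log ((14 * n).factorial : ℝ) +
        ∑ j ∈ Finset.range (14 * n), Real.log (b j) := by
      rw [← Real.log_prod (fun i _ => (hbpos i).ne'),
        ← Real.log_mul (by positivity) (Finset.prod_pos fun i _ => hbpos i).ne']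
      exact Real.log_le_log (abs_pos.mpr hM0) hdet
    have hcross := G6_cross (n := n) (by omega)
    have hfac := logfac hn
    have h200n := h200 n hn
    have h400n := h400 n hn
    -- the three ranges
    have hb1 : ∀ j ∈ Finset.range (2 * n), Real.log (b j) ≤ Real.log (Wt n j) + L j +
        (1 / 5 * (n : ℝ) + (K1 + K2 + K8) * Real.log n) := by
      intro j hj
      rw [Finset.mem_range] at hj
      have hlo := hlow n hn j hj
      rw [hb]
      dsimp only
      rw [if_pos hj]
      change _ ≤ _ + L j at hlo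
      have hW := Wt_pos n j
      have e1 : Wt n j * Real.exp (L j) = Real.exp (Real.log (Wt n j) + L j) := by
        rw [Real.exp_add (Real.log (Wt n j)) (L j), Real.exp_log hW]
      set A : ℝ := Real.log (Wt n j) + L j with hA
      set R : ℝ := 1 / 5 * (n : ℝ) + (K1 + K2) * Real.log n with hR
      have hR0 : 0 ≤ R := by rw [hR]; positivity
      have e2 : MM ≤ Real.exp (A + R) := by
        rw [hMM]
        apply Real.exp_le_exp.mpr
        rw [hR]
        linarith
      have e3 : Real.exp A ≤ Real.exp (A + R) := Real.exp_le_exp.mpr (by linarith)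
      have e4 : Wt n j * Real.exp (L j) + 201 * MM ≤ 400 * Real.exp (A + R) := by
        rw [e1]
        have := Real.exp_pos (A + R)
        linarith
      calc Real.log (Wt n j * Real.exp (L j) + 201 * MM) ≤ Real.log (400 * Real.exp (A + R)) :=
            Real.log_le_log (by positivity) e4
        _ = Real.log 400 + (A + R) := by
            rw [Real.log_mul (by norm_num) (Real.exp_pos _).ne', Real.log_exp]
        _ ≤ _ := by
            rw [hR]
            linarith
    have hb2 : ∀ j ∈ Finset.Ico (2 * n) (7 * n), Real.log (b j) ≤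
        209 / 20 * n + 21 * n * Real.log n + (K7 + K1) * Real.log n := by
      intro j hj
      rw [Finset.mem_Ico] at hj
      rw [hb]
      dsimp only
      rw [if_neg (by omega), if_pos hj.2, Real.log_mul (by norm_num) hMM0.ne', hMM, Real.log_exp]
      linarith
    have hb3 : ∀ j ∈ Finset.Ico (7 * n) (14 * n), Real.log (b j) ≤
        923 / 20 * n + 21 * n * Real.log n + (C3 + C2) * Real.log n + Lb := by
      intro j hj
      rw [Finset.mem_Ico] at hj
      rw [hb]
      dsimp only
      rw [if_neg (by omega), if_neg (by omega), Real.log_exp]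
      linarith
    have hs1 := Finset.sum_le_sum hb1
    have hs2 := Finset.sum_le_sum hb2
    have hs3 := Finset.sum_le_sum hb3
    rw [Finset.sum_add_distrib, Finset.sum_const, Finset.card_range, nsmul_eq_mul] at hs1
    rw [Finset.sum_const, Nat.card_Ico, nsmul_eq_mul] at hs2 hs3
    have c2 : 7 * n - 2 * n = 5 * n := by omega
    have c3 : 14 * n - 7 * n = 7 * n := by omega
    rw [c2] at hs2
    rw [c3] at hs3
    have hsplit : ∑ j ∈ Finset.range (14 * n), Real.log (b j) =
        ∑ j ∈ Finset.range (2 * n), Real.log (b j) + ∑ j ∈ Finset.Ico (2 * n) (7 * n), Real.log (b j) +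
          ∑ j ∈ Finset.Ico (7 * n) (14 * n), Real.log (b j) := by
      rw [Finset.sum_range_add_sum_Ico _ (by omega), Finset.sum_range_add_sum_Ico _ (by omega)]
    -- energies
    have hSn := hS n hn
    have hE1 := energy hC6 hn (hG6 n hn) 2 7 2 14 (by norm_num) (by norm_num) (by norm_num) (by norm_num)
    have hE2 := energy hC6 hn (hG6 n hn) 7 14 7 14 (by norm_num) (by norm_num) (by norm_num) (by norm_num)
    have hcr1 : ∑ i ∈ Finset.range (2 * n), (Lp n (Finset.range (14 * n)) (nd n i) +
        Lp n (Finset.range (7 * n)) (nd n i) - Lp n (Finset.range (2 * n)) (nd n i)) =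
        ∑ i ∈ Finset.range (2 * n), (Real.log (Wt n i) + L i) -
        ∑ t ∈ Finset.range (2 * n), (Real.log (Wt n t) + Lp n (Finset.range (2 * n)) (10 * t)) := by
      rw [← Finset.sum_sub_distrib]
      apply Finset.sum_congr rfl
      intro i hi
      rw [G0_nd_sat (by omega) (Finset.mem_range.mp hi), hL]
      dsimp only
      ring
    rw [hcr1] at hcross
    have heN : eN = ∑ g ∈ Finset.Ico 2 7, ∑ h ∈ Finset.Ico 2 14, en g h +
        ∑ g ∈ Finset.Ico 7 14, ∑ h ∈ Finset.Ico 7 14, en g h := by
      unfold eN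
      rw [← Finset.sum_add_distrib]
      congr 1
      apply Finset.sum_congr rfl
      intro g _
      rw [Finset.sum_Ico_consecutive _ (by norm_num) (by norm_num)]
    have hV4 : eS * (n : ℝ) ^ 2 ≤ -469 / 10 * (n : ℝ) ^ 2 :=
      mul_le_mul_of_nonneg_right V4 (by positivity)
    have hV5 : 1897 / 10 * (n : ℝ) ^ 2 ≤ eN * (n : ℝ) ^ 2 :=
      mul_le_mul_of_nonneg_right V5 (by positivity)
    rw [heN, add_mul] at hV5
    rw [hsplit] at hlog2
    norm_num at hE1 hE2
    push_cast at hs1 hs2 hs3
    have t1 : 2 * (n : ℝ) * (1 / 5 * (n : ℝ) + (K1 + K2 + K8) * Real.log n) =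
      2 / 5 * (n : ℝ) ^ 2 + 2 * (K1 + K2 + K8) * (n * Real.log n) := by ring
    have t2 : 5 * (n : ℝ) * (209 / 20 * n + 21 * n * Real.log n + (K7 + K1) * Real.log n) =
      209 / 4 * (n : ℝ) ^ 2 + 105 * ((n : ℝ) ^ 2 * Real.log n) + 5 * (K7 + K1) * (n * Real.log n) := by ring
    have t3 : 7 * (n : ℝ) * (923 / 20 * n + 21 * n * Real.log n + (C3 + C2) * Real.log n + Lb) =
      6461 / 20 * (n : ℝ) ^ 2 + 147 * ((n : ℝ) ^ 2 * Real.log n) + 7 * (C3 + C2) * (n * Real.log n) +
      7 * n * Lb := by ring
    have t4 : 14 * (n : ℝ) * (5 * Real.log n) = 70 * (n * Real.log n) := by ring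
    have t5 : T * (n * Real.log n) = 70 * (n * Real.log n) + 2 * (K1 + K2 + K8) * (n * Real.log n) +
      5 * (K7 + K1) * (n * Real.log n) + 7 * (C3 + C2) * (n * Real.log n) + C5 * n * Real.log n +
      392 * (C6 * n * Real.log n) := by rw [hT]; ring
    have t6 : 4 * (n : ℝ) ^ 2 * Real.log n = 4 * ((n : ℝ) ^ 2 * Real.log n) := by ring
    rw [t1] at hs1
    rw [t2] at hs2
    rw [t3] at hs3
    rw [t4] at hfac
    rw [t6] at hSn
    rw [t5]
    linarith
  -- conclude
  have hlim : ∀ᶠ n : ℕ in atTop, T * (n * Real.log n) ≤ 9 / 10 * (n : ℝ) ^ 2 := by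
    have h1 : Tendsto (fun n : ℕ => Real.log n / (n : ℝ)) atTop (𝓝 0) := by
      have := (Real.isLittleO_log_id_atTop.tendsto_div_nhds_zero).comp tendsto_natCast_atTop_atTop
      simpa [Function.comp_def] using this
    have h2 : Tendsto (fun n : ℕ => T * (Real.log n / (n : ℝ))) atTop (𝓝 (T * 0)) := h1.const_mul _
    rw [mul_zero] at h2
    filter_upwards [h2.eventually (gt_mem_nhds (show (0 : ℝ) < 9 / 10 by norm_num)), eventually_ge_atTop 1]
      with n h3 h4
    have hn0 : (0 : ℝ) < n := by exact_mod_cast h4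
    have h5 : T * (n * Real.log n) = (T * (Real.log n / (n : ℝ))) * (n : ℝ) ^ 2 := by
      field_simp
    rw [h5]
    gcongr
  filter_upwards [hlim, key] with n h1 h2 α β heta hD
  have := h2 α β heta hD
  linarith

end

end Pool.Agent.LM
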