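import Pool.Agent.H103R2.LM.X

/-! Assembly: the linear independence measure of `1, ζ(2), ζ(3)`. -/

open Pool.Agent.H337R2 Pool.Agent.LZ

namespace Pool.Agent.LM

theorem full_of (h2 : ∃ c : ℝ, 0 < c ∧ ∀ a b : ℤ, ∀ H : ℝ, 1 ≤ H → b ≠ 0 → |(b : ℝ)| ≤ H →
      c * H ^ (-(233 : ℝ)) ≤ |(a : ℝ) + b * (Real.pi ^ 2 / 6)|) :
    ∃ c : ℝ, 0 < c ∧ ∀ a b d : ℤ, (a ≠ 0 ∨ b ≠ 0 ∨ d ≠ 0) →
      c / ((max |a| (max |b| |d|) : ℤ) : ℝ) ^ 233 ≤
        |(a : ℝ) + b * (Real.pi ^ 2 / 6) + d * ∑' n : ℕ, 1 / ((n : ℝ) + 1) ^ 3| := by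
  obtain ⟨c2, hc2, h2⟩ := h2
  obtain ⟨c3, hc3, h3⟩ := measure_dX
  refine ⟨min 1 (min c2 c3), by positivity, fun a b d h => ?_⟩
  have hz3 : ∑' n : ℕ, 1 / ((n : ℝ) + 1) ^ 3 = zr 3 := rfl
  rw [hz3]
  set H : ℝ := ((max |a| (max |b| |d|) : ℤ) : ℝ) with hH
  have ha : |(a : ℝ)| ≤ H := by
    rw [hH, ← Int.cast_abs]
    exact_mod_cast le_max_left _ _
  have hb : |(b : ℝ)| ≤ H := by
    rw [hH, ← Int.cast_abs]
    exact_mod_cast (le_max_left _ _).trans (le_max_right _ _)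
  have hd : |(d : ℝ)| ≤ H := by
    rw [hH, ← Int.cast_abs]
    exact_mod_cast (le_max_right _ _).trans (le_max_right _ _)
  have hone : ∀ z : ℤ, z ≠ 0 → (1 : ℝ) ≤ |(z : ℝ)| := by
    intro z hz
    rw [← Int.cast_abs]
    exact_mod_cast Int.one_le_abs hz
  have hH1 : 1 ≤ H := by
    rcases h with h | h | h
    · exact (hone a h).trans ha
    · exact (hone b h).trans hb
    · exact (hone d h).trans hd
  have hH0 : 0 < H := by linarith
  have hpow : ∀ c : ℝ, c * H ^ (-(233 : ℝ)) = c / H ^ 233 := by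
    intro c
    rw [Real.rpow_neg hH0.le, show (233 : ℝ) = ((233 : ℕ) : ℝ) by norm_num, Real.rpow_natCast]
    rfl
  have hmono : ∀ c : ℝ, min 1 (min c2 c3) ≤ c → min 1 (min c2 c3) / H ^ 233 ≤ c / H ^ 233 := fun c hc =>
    div_le_div_of_nonneg_right hc (by positivity)
  by_cases hd0 : d = 0
  · subst hd0
    rw [Int.cast_zero, zero_mul, add_zero]
    by_cases hb0 : b = 0
    · subst hb0
      rw [Int.cast_zero, zero_mul, add_zero]
      have ha0 : a ≠ 0 := by
        rcases h with h | h | h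
        · exact h
        · exact absurd rfl h
        · exact absurd rfl h
      refine le_trans ?_ (hone a ha0)
      rw [div_le_one (by positivity)]
      exact (min_le_left _ _).trans (one_le_pow₀ hH1)
    · have := h2 a b H hH1 hb0 hb
      rw [hpow] at this
      exact (hmono c2 ((min_le_right _ _).trans (min_le_left _ _))).trans this
  · have := h3 a b d H hH1 hd0 hb hd
    rw [hpow, Z2_value] at this
    exact (hmono c3 ((min_le_right _ _).trans (min_le_right _ _))).trans this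

end Pool.Agent.LM
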