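import Pool.Agent.H337R2.LZ.Z

/-!
# The linear form with a correction term, and its entries
-/

open Polynomial Pool.Agent.H337R2 Pool.Agent.LZ

namespace Pool.Agent.LM

noncomputable section

/-- `ζ(3) - (α + β ζ(2))` -/
def et (α β : ℚ) : ℝ := zr 3 - ((α : ℝ) + β * zr 2)

theorem BU_hasSum {n : ℕ} (hn : 1 ≤ n) (α β : ℚ) (Q : ℚ[X]) (hQ : Q.natDegree ≤ 25 * n - 2) :
    HasSum (fun t : ℕ => Wt n t * ((Q.eval (t : ℚ) : ℚ) : ℝ))
      (((AL n α Q : ℚ) : ℝ) + zr 2 * ((BL n β Q : ℚ) : ℝ) +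
        et α β * ((rho n (PL n * Q) 3 : ℚ) : ℝ)) := by
  have hd := B1_natDegree hn Q hQ
  have h1 := B1_form0 (sL n) (mL n) (PL n * Q) hd (2 * n) 3
    (fun k hk => (Finset.mem_Icc.1 hk).1) (fun k _ => by unfold mL; split_ifs <;> omega) (by
      intro m hm
      unfold PL
      rw [Polynomial.eval_mul, Polynomial.eval_mul, Polynomial.eval_prod,
        Finset.prod_eq_zero hm (by simp), mul_zero, zero_mul])
  have h2 : (fun t : ℕ => Wt n t * ((Q.eval (t : ℚ) : ℚ) : ℝ)) =
      fun t : ℕ => (((PL n * Q).eval (t : ℚ) / (QQ (sL n) (mL n)).eval (t : ℚ) : ℚ) : ℝ) := by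
    funext t
    rw [B1_val]
  rw [h2]
  convert h1 using 1
  rw [AL_apply, BL_apply]
  have h6 := residue_sum (sL n) (mL n) (PL n * Q) hd
  unfold xa xb rho et
  have e3 : Finset.Icc 1 3 = ({1, 2, 3} : Finset ℕ) := by decide
  rw [e3]
  simp only [Finset.sum_insert, Finset.mem_insert, Finset.mem_singleton, Finset.sum_singleton,
    OfNat.one_ne_ofNat, or_self, not_false_eq_true, OfNat.ofNat_ne_one, if_true, if_false,
    show ¬ ((2 : ℕ) = 3) by decide]
  push_cast
  ring


private theorem g1_Wt_nonneg (n t : ℕ) : 0 ≤ Wt n t := by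
  unfold Wt
  positivity

private theorem g1_nd {n k : ℕ} (hk : k < 2 * n) : nd n k = 10 * k := by
  have hn : 0 < n := by omega
  unfold nd
  rcases Nat.lt_or_ge k n with h | h
  · rw [Nat.div_eq_of_lt h, Nat.mod_eq_of_lt h]
    simp [bb, cc]
  · have h1 : k / n = 1 := by
      rw [Nat.div_eq_iff hn]
      omega
    have h2 : k % n = k - n := by
      have := Nat.div_add_mod k n
      rw [h1] at this
      omega
    rw [h1, h2]
    simp only [bb, cc]
    push_cast [Nat.cast_sub h]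
    ring

private theorem g1_eval_lag (n : ℕ) (s : Finset ℕ) (i t : ℕ) :
    (((lag s (zq n) i).eval (t : ℚ) : ℚ) : ℝ) =
      ∏ k ∈ s.erase i, (((10 * t - nd n k : ℤ) : ℝ) / 10) := by
  unfold lag
  rw [Polynomial.eval_prod]
  push_cast
  apply Finset.prod_congr rfl
  intro k _
  simp only [eval_sub, eval_X, eval_C, zq]
  push_cast
  ring

private theorem g1_deg_lag (n : ℕ) (s : Finset ℕ) (i : ℕ) :
    (lag s (zq n) i).natDegree ≤ (s.erase i).card := by
  unfold lag
  refine (Polynomial.natDegree_prod_le _ _).trans ?_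
  refine (Finset.sum_le_sum (g := fun _ => 1) fun k _ => ?_).trans ?_
  · simp
  · simp

private theorem g1_ne {n : ℕ} {u : ℤ} {k : ℕ} (h : u - nd n k ≠ 0) :
    (1 : ℝ) / 10 ≤ |(((u - nd n k : ℤ) : ℝ) / 10)| := by
  rw [abs_div]
  have h1 : (1 : ℤ) ≤ |u - nd n k| := Int.one_le_abs h
  have h2 : (1 : ℝ) ≤ |((u - nd n k : ℤ) : ℝ)| := by
    rw [← Int.cast_abs]
    exact_mod_cast h1
  have h3 : |(10 : ℝ)| = 10 := by norm_num
  rw [h3]
  exact div_le_div_of_nonneg_right h2 (by norm_num)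

private theorem g1_zero (n : ℕ) (s : Finset ℕ) (i : ℕ) (u : ℤ) (k : ℕ) (hk : k ∈ s) (hki : k ≠ i)
    (h : u - nd n k = 0) : ∏ k ∈ s.erase i, (((u - nd n k : ℤ) : ℝ) / 10) = 0 := by
  apply Finset.prod_eq_zero (Finset.mem_erase.mpr ⟨hki, hk⟩)
  rw [h]; simp

private theorem g1_prod (n : ℕ) (s : Finset ℕ) (i : ℕ) (hi : i ∈ s) (u : ℤ)
    (h : ∀ k ∈ s.erase i, u - nd n k ≠ 0) :
    |∏ k ∈ s.erase i, (((u - nd n k : ℤ) : ℝ) / 10)| =
      Real.exp (Lp n s u) * Real.exp (-Real.log (((u - nd n i : ℤ) : ℝ) / 10)) := by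
  rw [← Real.exp_add, Finset.abs_prod]
  unfold Lp
  rw [← Finset.sum_erase_add _ _ hi, add_assoc, add_neg_cancel, add_zero, Real.exp_sum]
  apply Finset.prod_congr rfl
  intro k hk
  have h1 : (((u - nd n k : ℤ) : ℝ) / 10) ≠ 0 := by
    have := h k hk
    have h2 : ((u - nd n k : ℤ) : ℝ) ≠ 0 := by exact_mod_cast this
    exact div_ne_zero h2 (by norm_num)
  exact (Real.exp_log_eq_abs h1).symm

private theorem g1_le (n : ℕ) (s : Finset ℕ) (i : ℕ) (hi : i ∈ s) (u : ℤ) :
    |∏ k ∈ s.erase i, (((u - nd n k : ℤ) : ℝ) / 10)| ≤ 10 * Real.exp (Lp n s u) := by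
  by_cases h : ∀ k ∈ s.erase i, u - nd n k ≠ 0
  · rw [g1_prod n s i hi u h, mul_comm]
    apply mul_le_mul_of_nonneg_right _ (Real.exp_pos _).le
    by_cases h0 : u - nd n i = 0
    · rw [h0]; simp
    · have h1 : (((u - nd n i : ℤ) : ℝ) / 10) ≠ 0 := by
        have h2 : ((u - nd n i : ℤ) : ℝ) ≠ 0 := by exact_mod_cast h0
        exact div_ne_zero h2 (by norm_num)
      rw [Real.exp_neg, Real.exp_log_eq_abs h1, inv_le_comm₀ (abs_pos.mpr h1) (by norm_num)]
      have := g1_ne h0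
      norm_num at this ⊢
      linarith
  · push Not at h
    obtain ⟨k, hk, hk0⟩ := h
    rw [Finset.mem_erase] at hk
    rw [g1_zero n s i u k hk.2 hk.1 hk0, abs_zero]
    positivity

private theorem g1_le_one (n : ℕ) (s : Finset ℕ) (i : ℕ) (hi : i ∈ s) (u : ℤ)
    (h0 : u - nd n i = 0) :
    |∏ k ∈ s.erase i, (((u - nd n k : ℤ) : ℝ) / 10)| ≤ Real.exp (Lp n s u) := by
  by_cases h : ∀ k ∈ s.erase i, u - nd n k ≠ 0
  · rw [g1_prod n s i hi u h, h0]
    simp
  · push Not at h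
    obtain ⟨k, hk, hk0⟩ := h
    rw [Finset.mem_erase] at hk
    rw [g1_zero n s i u k hk.2 hk.1 hk0, abs_zero]
    positivity

private theorem g1_hasSum : HasSum (fun t : ℕ => 1 / (1 + (t : ℝ)) ^ 2) (Real.pi ^ 2 / 6) := by
  have h := (hasSum_nat_add_iff' (f := fun n : ℕ => 1 / (n : ℝ) ^ 2) 1).mpr hasSum_zeta_two
  simp only [Finset.range_one, Finset.sum_singleton, Nat.cast_zero] at h
  have e : (1 : ℝ) / 0 ^ 2 = 0 := by norm_num
  rw [e, sub_zero] at h
  have e2 : (fun t : ℕ => 1 / (1 + (t : ℝ)) ^ 2) = fun t : ℕ => 1 / ((t + 1 : ℕ) : ℝ) ^ 2 := by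
    funext t
    rw [Nat.cast_add, Nat.cast_one, add_comm]
  rw [e2]
  exact h

private theorem g1_pi : Real.pi ^ 2 / 6 ≤ 2 := by
  have h1 := Real.pi_lt_d2
  have h2 := Real.pi_pos
  nlinarith

/-- entries of the zeta part, with the correction term -/
theorem GU_entryN {n : ℕ} (hn : 1 ≤ n) (α β : ℚ) (MM : ℝ) (hM : 0 ≤ MM)
    (hsup : ∀ t : ℕ, 2 * n ≤ t →
      Wt n t * Real.exp (Lp n (Finset.range (14 * n)) (10 * t) + Lp n (Finset.range (7 * n)) (10 * t)) ≤
        MM / (1 + (t : ℝ)) ^ 2)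
    (i j : ℕ) (hi : i < 14 * n) (hj : j < 7 * n) :
    |((AL n α (lag (Finset.range (14 * n)) (zq n) i * lag (Finset.range (7 * n)) (zq n) j) : ℚ) : ℝ) + zr 2 *
      ((BL n β (lag (Finset.range (14 * n)) (zq n) i * lag (Finset.range (7 * n)) (zq n) j) : ℚ) : ℝ) +
      et α β * ((rho n (PL n * (lag (Finset.range (14 * n)) (zq n) i *
        lag (Finset.range (7 * n)) (zq n) j)) 3 : ℚ) : ℝ)| ≤
    (if j < 2 * n then Wt n j *
      Real.exp (Lp n (Finset.range (14 * n)) (10 * j) + Lp n (Finset.range (7 * n)) (10 * j)) else 0) + 200 * MM := by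
  classical
  set Q : ℚ[X] := lag (Finset.range (14 * n)) (zq n) i * lag (Finset.range (7 * n)) (zq n) j with hQ
  have hi' : i ∈ Finset.range (14 * n) := Finset.mem_range.mpr hi
  have hj' : j ∈ Finset.range (7 * n) := Finset.mem_range.mpr hj
  have hdeg : Q.natDegree ≤ 25 * n - 2 := by
    refine (Polynomial.natDegree_mul_le).trans ?_
    have h1 := g1_deg_lag n (Finset.range (14 * n)) i
    have h2 := g1_deg_lag n (Finset.range (7 * n)) j
    rw [Finset.card_erase_of_mem hi', Finset.card_range] at h1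
    rw [Finset.card_erase_of_mem hj', Finset.card_range] at h2
    omega
  have hS := BU_hasSum hn α β Q hdeg
  set T : ℝ := (if j < 2 * n then Wt n j *
      Real.exp (Lp n (Finset.range (14 * n)) (10 * j) + Lp n (Finset.range (7 * n)) (10 * j)) else 0)
    with hT
  have hT0 : 0 ≤ T := by
    rw [hT]
    split_ifs
    · exact mul_nonneg (g1_Wt_nonneg _ _) (Real.exp_pos _).le
    · exact le_rfl
  have hG : HasSum (fun t : ℕ => (if t = j then T else 0) + 100 * MM * (1 / (1 + (t : ℝ)) ^ 2))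
      (T + 100 * MM * (Real.pi ^ 2 / 6)) :=
    (hasSum_ite_eq j T).add (g1_hasSum.mul_left (100 * MM))
  have hb : ∀ t : ℕ, ‖Wt n t * ((Q.eval (t : ℚ) : ℚ) : ℝ)‖ ≤
      (if t = j then T else 0) + 100 * MM * (1 / (1 + (t : ℝ)) ^ 2) := by
    intro t
    have hev : ((Q.eval (t : ℚ) : ℚ) : ℝ) =
        (∏ k ∈ (Finset.range (14 * n)).erase i, (((10 * t - nd n k : ℤ) : ℝ) / 10)) *
        (∏ k ∈ (Finset.range (7 * n)).erase j, (((10 * t - nd n k : ℤ) : ℝ) / 10)) := by
      rw [hQ, Polynomial.eval_mul, Rat.cast_mul, g1_eval_lag, g1_eval_lag]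
    have hW := g1_Wt_nonneg n t
    have hpos2 : 0 ≤ 100 * MM * (1 / (1 + (t : ℝ)) ^ 2) := by positivity
    rw [Real.norm_eq_abs, hev, abs_mul, abs_of_nonneg hW, abs_mul]
    rcases Nat.lt_or_ge t (2 * n) with ht | ht
    · have h0 : (10 * (t : ℤ)) - nd n t = 0 := by rw [g1_nd ht]; ring
      have ht14 : t ∈ Finset.range (14 * n) := Finset.mem_range.mpr (by omega)
      have ht7 : t ∈ Finset.range (7 * n) := Finset.mem_range.mpr (by omega)
      by_cases hti : t = i
      · by_cases htj : t = j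
        · subst hti
          subst htj
          rw [if_pos rfl, hT, if_pos ht]
          have a1 := g1_le_one n _ t hi' (10 * t) h0
          have a2 := g1_le_one n _ t hj' (10 * t) h0
          have a3 := mul_le_mul a1 a2 (abs_nonneg _) (Real.exp_pos _).le
          rw [← Real.exp_add] at a3
          have a4 := mul_le_mul_of_nonneg_left a3 hW
          linarith
        · rw [g1_zero n _ j (10 * t) t ht7 htj h0, abs_zero, mul_zero, mul_zero]
          rw [if_neg htj]
          linarith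
      · rw [g1_zero n _ i (10 * t) t ht14 hti h0, abs_zero, zero_mul, mul_zero]
        split_ifs <;> linarith
    · have a1 := g1_le n _ i hi' (10 * t)
      have a2 := g1_le n _ j hj' (10 * t)
      have a3 := mul_le_mul a1 a2 (abs_nonneg _) (by positivity)
      have a4 := mul_le_mul_of_nonneg_left a3 hW
      have a5 := hsup t ht
      rw [Real.exp_add] at a5
      have a6 : Wt n t * (10 * Real.exp (Lp n (Finset.range (14 * n)) (10 * t)) *
          (10 * Real.exp (Lp n (Finset.range (7 * n)) (10 * t)))) =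
          100 * (Wt n t * (Real.exp (Lp n (Finset.range (14 * n)) (10 * t)) *
            Real.exp (Lp n (Finset.range (7 * n)) (10 * t)))) := by ring
      rw [a6] at a4
      have a7 : 100 * MM * (1 / (1 + (t : ℝ)) ^ 2) = 100 * (MM / (1 + (t : ℝ)) ^ 2) := by ring
      rw [a7]
      split_ifs <;> linarith
  have hfin := hS.norm_le_of_bounded hG hb
  rw [Real.norm_eq_abs] at hfin
  refine hfin.trans ?_
  have := g1_pi
  nlinarith


end

end Pool.Agent.LM
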