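import Pool.Agent.H337R2.LZ.Z

/-!
# Uniform p-adic estimate (all rational `α, β` with denominator `q` at once)

The estimate `P_main` of `H337R2.LZ` with the threshold for `n` independent of `q, α, β`.
-/

open Polynomial Pool.Agent.H337R2 Filter Topology Pool.Agent.LZ

namespace Pool.Agent.LM

noncomputable section

/-- **the p-adic part**, from the results of the other tasks -/
theorem PU_list (L : List Cell) (hchk : PMchk 1 40 L = true) (hmed : PMmed) (hcrude : PMcrude)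
    (hE4 : ∀ c ∈ L, c.ok = true → ∃ K0 : ℝ, PMcell c K0)
    (hE5ok : L.all Cell.ok = true)
    (hF1 : ∀ (lo hi : ℚ), 0 < lo → lo ≤ hi → hi ≤ 14 → ∀ (A B : ℤ),
      Tendsto (fun n : ℕ => (∑ p ∈ PR lo hi n, ((A : ℝ) * n + B * p) * Real.log p) / (n : ℝ) ^ 2) atTop
        (𝓝 (((A * (hi - lo) + B * (hi ^ 2 - lo ^ 2) / 2 : ℚ)) : ℝ)))
    (hF3 : (L.map PMlim).sum ≤ -1082 / 100)
    (hF4 : ∀ {c : Cell}, c.ok = true → ∀ {n p : ℕ}, 1 ≤ n → 0 < p → c.u0 * n < p * c.v0 →
      p * c.v1 ≤ c.u1 * n →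
      ((∑ i ∈ Finset.range (14 * n), (i / p) + 2 * ∑ i ∈ Finset.range (7 * n), (i / p) : ℕ) : ℤ) =
        c.sf.1 * n + c.sf.2 * p)
    (hF5 : ∀ᶠ n : ℕ in atTop,
      ∑ p ∈ (Finset.range (n + 1)).filter (fun p : ℕ => p.Prime ∧ 40 * p ≤ n),
        (∑ i ∈ Finset.range (14 * n), Real.log ((padicNorm p ((i.factorial : ℕ) : ℚ) : ℚ) : ℝ) +
         2 * ∑ i ∈ Finset.range (7 * n), Real.log ((padicNorm p ((i.factorial : ℕ) : ℚ) : ℚ) : ℝ)) ≤
      - (∑ i ∈ Finset.range (14 * n), Real.log (i.factorial : ℝ) +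
         2 * ∑ i ∈ Finset.range (7 * n), Real.log (i.factorial : ℝ)) +
        ∑ p ∈ PR (1 / 40) 14 n,
          ((∑ i ∈ Finset.range (14 * n), (i / p) + 2 * ∑ i ∈ Finset.range (7 * n), (i / p) : ℕ) : ℝ) * Real.log p)
    (hF6 : ∀ ε : ℝ, 0 < ε → ∀ᶠ n : ℕ in atTop,
      147 * (n : ℝ) ^ 2 * Real.log n + (13347 / 100 - ε) * (n : ℝ) ^ 2 ≤
        ∑ i ∈ Finset.range (14 * n), Real.log (i.factorial : ℝ) +
         2 * ∑ i ∈ Finset.range (7 * n), Real.log (i.factorial : ℝ))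
    (hF7 : ∀ ε : ℝ, 0 < ε → ∀ᶠ n : ℕ in atTop,
      14 * (n : ℝ) * ∑ p ∈ (Finset.range (n + 1)).filter (fun p : ℕ => p.Prime ∧ p ^ 2 ≤ 14 * n),
          40 * Real.log (14 * n + 1) +
      28 * (n : ℝ) * ∑ p ∈ (Finset.range (n + 1)).filter (fun p : ℕ => p.Prime ∧ 40 * p ≤ n), Real.log p ≤
      (28 / 40 + ε) * (n : ℝ) ^ 2) :
    ∀ ε : ℝ, 0 < ε → ∀ᶠ n : ℕ in atTop, ∀ (q : ℕ) (α β : ℚ), QI q α → QI q β → DD n α β ≠ 0 →
    ∑ p ∈ (Finset.range (14 * n + 1)).filter Nat.Prime,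
      Real.log ((padicNorm p ((q : ℚ) ^ (14 * n) * DD n α β) : ℚ) : ℝ) ≤
    -(147 * (n : ℝ) ^ 2 * Real.log n) - (1435 / 10 - ε) * (n : ℝ) ^ 2 := by
  classical
  intro ε hε
  obtain ⟨K, hK, hcell⟩ := PM_bound L PMcell PMcell_mono
    (fun c hc => hE4 c hc (List.all_eq_true.1 hE5ok c hc))
  -- the limit of the sum over the cells
  have hlim : Tendsto (fun n : ℕ => (L.map fun c => ∑ p ∈ PR (PMlo c) (PMhi c) n,
        (((c.AB.1 + c.sf.1 : ℤ) : ℝ) * n + ((c.AB.2 + c.sf.2 : ℤ) : ℝ) * p) * Real.log p).sum /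
        (n : ℝ) ^ 2) atTop (𝓝 (((L.map PMlim).sum : ℚ) : ℝ)) := by
    have h1 := PM_tendsto L (fun c n => (∑ p ∈ PR (PMlo c) (PMhi c) n,
        (((c.AB.1 + c.sf.1 : ℤ) : ℝ) * n + ((c.AB.2 + c.sf.2 : ℤ) : ℝ) * p) * Real.log p) /
        (n : ℝ) ^ 2) (fun c => ((PMlim c : ℚ) : ℝ)) (by
      intro c hc
      have hok : c.ok = true := List.all_eq_true.1 hE5ok c hc
      have hpos : 0 < c.u0 ∧ 0 < c.v0 ∧ 0 < c.v1 ∧ c.u0 * c.v1 < c.u1 * c.v0 := by
        have hok' := hok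
        unfold Cell.ok at hok'
        simp only [Bool.and_eq_true, decide_eq_true_eq] at hok'
        tauto
      obtain ⟨p1, p2, p3, p4⟩ := hpos
      have hlo : 0 < PMlo c := by
        unfold PMlo
        have q1 : (0 : ℚ) < c.u0 := by exact_mod_cast p1
        have q2 : (0 : ℚ) < c.v0 := by exact_mod_cast p2
        positivity
      have hlh : PMlo c ≤ PMhi c := by
        unfold PMlo PMhi
        rw [div_le_div_iff₀ (by exact_mod_cast p2) (by exact_mod_cast p3)]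
        exact_mod_cast p4.le
      have hhi : PMhi c ≤ 14 := by
        have key : ∀ (L' : List Cell) (u v : ℕ), PMchk u v L' = true → ∀ c ∈ L', PMhi c ≤ 14 := by
          intro L'
          induction L' with
          | nil => intro u v _ c hc; exact absurd hc List.not_mem_nil
          | cons d l ih =>
            intro u v h c hc
            simp only [PMchk, Bool.and_eq_true, decide_eq_true_eq] at h
            rcases List.mem_cons.1 hc with rfl | hc
            · exact (PM_chain l c.u1 c.v1 h.2).1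
            · exact ih _ _ h.2 c hc
        exact key L 1 40 hchk c hc
      exact hF1 (PMlo c) (PMhi c) hlo hlh hhi _ _)
    have e1 : (L.map fun c => ((PMlim c : ℚ) : ℝ)).sum = (((L.map PMlim).sum : ℚ) : ℝ) := by
      rw [Rat.cast_list_sum, List.map_map]
      rfl
    rw [e1] at h1
    refine h1.congr fun n => ?_
    rw [div_eq_mul_inv, ← List.sum_map_mul_right]
    simp only [div_eq_mul_inv]
  have hF3' : (((L.map PMlim).sum : ℚ) : ℝ) ≤ -1082 / 100 := by
    have h := (Rat.cast_le (K := ℝ)).2 hF3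
    push_cast at h ⊢
    exact h
  have hε8 : 0 < ε / 8 := by positivity
  have ev1 := PM_ev hlim (ε / 8) hε8
  have ev6 := hF6 (ε / 8) hε8
  have ev7 := hF7 (ε / 8) hε8
  have ev9 : ∀ᶠ n : ℕ in atTop, K * (Real.log 4 * 15) ≤ ε / 8 * n := by
    have := (tendsto_natCast_atTop_atTop (R := ℝ)).const_mul_atTop hε8
    exact this.eventually_ge_atTop _
  filter_upwards [ev1, hF5, ev6, ev7, ev9, eventually_ge_atTop 19200] with n g1 g5 g6 g7 g9 hn q α β hα hβ hD
  have hn0 : (0 : ℝ) < n := by exact_mod_cast (by omega : 0 < n)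
  have hn1 : 1 ≤ n := by omega
  have hqq : (0 : ℚ) < q := by exact_mod_cast hα.1
  have hz : (q : ℚ) ^ (14 * n) * DD n α β ≠ 0 := mul_ne_zero (pow_pos hqq _).ne' hD
  rw [← Finset.sum_filter_add_sum_filter_not _ (fun p => 40 * p ≤ n)]
  have e1 : ((Finset.range (14 * n + 1)).filter Nat.Prime).filter (fun p => 40 * p ≤ n) =
      (Finset.range (n + 1)).filter (fun p : ℕ => p.Prime ∧ 40 * p ≤ n) := by
    ext p
    simp only [Finset.mem_filter, Finset.mem_range]
    constructor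
    · rintro ⟨⟨h1, h2⟩, h3⟩; exact ⟨by omega, h2, h3⟩
    · rintro ⟨h1, h2, h3⟩; exact ⟨⟨by omega, h2⟩, h3⟩
  have e2 : ((Finset.range (14 * n + 1)).filter Nat.Prime).filter (fun p => ¬ 40 * p ≤ n) =
      PR (1 / 40) 14 n := by
    ext p
    unfold PR
    simp only [Finset.mem_filter, Finset.mem_range]
    constructor
    · rintro ⟨⟨h1, h2⟩, h3⟩
      refine ⟨by omega, h2, ?_, ?_⟩
      · have : (n : ℚ) < 40 * p := by exact_mod_cast (by omega : n < 40 * p)
        linarith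
      · exact_mod_cast (by omega : p ≤ 14 * n)
    · rintro ⟨h1, h2, h3, h4⟩
      have h5 : n < 40 * p := by
        have : (n : ℚ) < 40 * p := by linarith
        exact_mod_cast this
      have h6 : p ≤ 14 * n := by exact_mod_cast h4
      exact ⟨⟨by omega, h2⟩, by omega⟩
  rw [e1, e2]
  have hsmall : ∑ p ∈ (Finset.range (n + 1)).filter (fun p : ℕ => p.Prime ∧ 40 * p ≤ n),
      Real.log ((padicNorm p ((q : ℚ) ^ (14 * n) * DD n α β) : ℚ) : ℝ) ≤
      (14 * (n : ℝ) * ∑ p ∈ (Finset.range (n + 1)).filter (fun p : ℕ => p.Prime ∧ p ^ 2 ≤ 14 * n),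
          40 * Real.log (14 * n + 1) +
      28 * (n : ℝ) * ∑ p ∈ (Finset.range (n + 1)).filter (fun p : ℕ => p.Prime ∧ 40 * p ≤ n), Real.log p) +
      ∑ p ∈ (Finset.range (n + 1)).filter (fun p : ℕ => p.Prime ∧ 40 * p ≤ n),
        (∑ i ∈ Finset.range (14 * n), Real.log ((padicNorm p ((i.factorial : ℕ) : ℚ) : ℚ) : ℝ) +
         2 * ∑ i ∈ Finset.range (7 * n), Real.log ((padicNorm p ((i.factorial : ℕ) : ℚ) : ℚ) : ℝ)) := by
    calc _ ≤ ∑ p ∈ (Finset.range (n + 1)).filter (fun p : ℕ => p.Prime ∧ 40 * p ≤ n),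
          (14 * (n : ℝ) * (if p ^ 2 ≤ 14 * n then 40 * Real.log (14 * n + 1) else 0) + 28 * (n : ℝ) * Real.log p +
          (∑ i ∈ Finset.range (14 * n), Real.log ((padicNorm p ((i.factorial : ℕ) : ℚ) : ℚ) : ℝ) +
           2 * ∑ i ∈ Finset.range (7 * n), Real.log ((padicNorm p ((i.factorial : ℕ) : ℚ) : ℚ) : ℝ))) := by
          apply Finset.sum_le_sum
          intro p hp
          rw [Finset.mem_filter] at hp
          exact PM_small hmed hcrude n p hn1 hp.2.1 q α β hα hβ hz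
      _ ≤ _ := by
          rw [Finset.sum_add_distrib, Finset.sum_add_distrib, ← Finset.mul_sum, ← Finset.mul_sum]
          apply add_le_add_left
          apply add_le_add_left
          apply mul_le_mul_of_nonneg_left _ (by positivity)
          rw [← Finset.sum_filter]
          apply Finset.sum_le_sum_of_subset_of_nonneg
          · intro p hp
            simp only [Finset.mem_filter, Finset.mem_range] at hp ⊢
            exact ⟨hp.1.1, hp.1.2.1, hp.2⟩
          · intro p _ _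
            have : 0 ≤ Real.log (14 * (n : ℝ) + 1) := Real.log_nonneg (by linarith)
            positivity
  have hlarge := PM_large_sum L hchk hE5ok hF4 K hK hcell n hn q α β hα hβ hz
  rw [Finset.sum_add_distrib] at hlarge
  have hw : ∑ p ∈ PR (1 / 40) 14 n, PMw n p = ∑ p ∈ PR (1 / 40) 14 n,
      ((∑ i ∈ Finset.range (14 * n), (i / p) + 2 * ∑ i ∈ Finset.range (7 * n), (i / p) : ℕ) : ℝ) * Real.log p := rfl
  rw [hw] at hlarge
  have hfin : K * (Real.log 4 * (15 * n)) ≤ ε / 8 * (n : ℝ) ^ 2 := by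
    have := mul_le_mul_of_nonneg_right g9 hn0.le
    nlinarith
  have hn2 : (0 : ℝ) < (n : ℝ) ^ 2 := by positivity
  have h10 : ((((L.map PMlim).sum : ℚ) : ℝ) + ε / 8) * (n : ℝ) ^ 2 ≤
      (-1082 / 100 + ε / 8) * (n : ℝ) ^ 2 := by
    apply mul_le_mul_of_nonneg_right _ hn2.le
    linarith
  have htot : -(147 * (n : ℝ) ^ 2 * Real.log n) + (28 / 40 - 13347 / 100 - 1082 / 100 + ε / 2) * (n : ℝ) ^ 2 ≤
      -(147 * (n : ℝ) ^ 2 * Real.log n) - (1435 / 10 - ε) * (n : ℝ) ^ 2 := by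
    have : (28 / 40 - 13347 / 100 - 1082 / 100 + ε / 2) * (n : ℝ) ^ 2 ≤ -(1435 / 10 - ε) * (n : ℝ) ^ 2 := by
      apply mul_le_mul_of_nonneg_right _ hn2.le
      linarith
    linarith
  refine le_trans ?_ htot
  linarith


/-- the p-adic part, uniformly in `q, α, β` -/
theorem PU_main : ∀ ε : ℝ, 0 < ε → ∀ᶠ n : ℕ in atTop, ∀ (q : ℕ) (α β : ℚ), QI q α → QI q β → DD n α β ≠ 0 →
    ∑ p ∈ (Finset.range (14 * n + 1)).filter Nat.Prime,
      Real.log ((padicNorm p ((q : ℚ) ^ (14 * n) * DD n α β) : ℚ) : ℝ) ≤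
    -(147 * (n : ℝ) ^ 2 * Real.log n) - (1435 / 10 - ε) * (n : ℝ) ^ 2 :=
  PU_list cells PMchk_cells @D4_small_med @D4_small_crude E4_mem E5_ok F1_lin F3_total @F4_sf F5_fact F6_superfac
    F7_small

end

end Pool.Agent.LM
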