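import Pool.Agent.H103R2.LM.A
import Pool.Agent.H103R2.LM.P
import Pool.Agent.H103R2.LM.H

/-!
# A measure for the distance of `ζ(3)` to `ℚ + ℚ ζ(2)`
-/

open Polynomial Pool.Agent.H337R2 Filter Topology Pool.Agent.LZ

namespace Pool.Agent.LM

noncomputable section

/-- a prime in `(M, 2M]` not dividing `d` -/
theorem prime_sel : ∃ M0 : ℕ, ∀ M : ℕ, M0 ≤ M → ∀ d : ℕ, d ≠ 0 → Real.log d < M / 2 →
    ∃ p : ℕ, p.Prime ∧ M < p ∧ p ≤ 2 * M ∧ ¬ p ∣ d := by
  classical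
  have h := F1_lin 1 2 (by norm_num) (by norm_num) (by norm_num) 1 0
  norm_num at h
  have h2 := h.eventually_const_lt (show (1 / 2 : ℝ) < 1 by norm_num)
  obtain ⟨M0, hM0⟩ := eventually_atTop.1 (h2.and (eventually_ge_atTop 1))
  refine ⟨M0, fun M hM d hd hlog => ?_⟩
  obtain ⟨h3, h4⟩ := hM0 M hM
  have hM1 : (0 : ℝ) < M := by exact_mod_cast h4
  by_contra hcon
  push Not at hcon
  have hmem : ∀ p ∈ PR 1 2 M, p.Prime ∧ M < p ∧ p ≤ 2 * M := by
    intro p hp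
    unfold PR at hp
    simp only [Finset.mem_filter] at hp
    obtain ⟨-, q1, q2, q3⟩ := hp
    rw [one_mul] at q2
    exact ⟨q1, by exact_mod_cast q2, by exact_mod_cast q3⟩
  have hdvd : ∏ p ∈ PR 1 2 M, p ∣ d := by
    apply Finset.prod_primes_dvd
    · intro p hp
      exact (hmem p hp).1.prime
    · intro p hp
      obtain ⟨q1, q2, q3⟩ := hmem p hp
      exact hcon p q1 q2 q3
  have hle : ∏ p ∈ PR 1 2 M, p ≤ d := Nat.le_of_dvd (Nat.pos_of_ne_zero hd) hdvd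
  have hpos : ∀ p ∈ PR 1 2 M, (p : ℝ) ≠ 0 := fun p hp => by exact_mod_cast (hmem p hp).1.ne_zero
  have hl : ∑ p ∈ PR 1 2 M, Real.log p ≤ Real.log d := by
    rw [← Real.log_prod hpos]
    apply Real.log_le_log
    · exact Finset.prod_pos fun p hp => by exact_mod_cast (hmem p hp).1.pos
    · have : ((∏ p ∈ PR 1 2 M, p : ℕ) : ℝ) ≤ (d : ℝ) := by exact_mod_cast hle
      push_cast at this
      exact this
  have h5 : ∑ p ∈ PR 1 2 M, (M : ℝ) * Real.log p = M * ∑ p ∈ PR 1 2 M, Real.log p := by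
    rw [Finset.mul_sum]
  rw [h5, lt_div_iff₀ (by positivity)] at h3
  nlinarith

lemma QI_div (a d : ℤ) (hd : d ≠ 0) : QI d.natAbs (-(a : ℚ) / d) := by
  have hd' : (d : ℚ) ≠ 0 := by exact_mod_cast hd
  refine ⟨Int.natAbs_pos.2 hd, -a * d.sign, ?_⟩
  have h : (d.natAbs : ℚ) = d * d.sign := by
    rw [← Int.cast_mul, Int.mul_sign_self, Int.cast_natCast]
  rw [h]
  push_cast
  field_simp

/-- **measure, `d ≠ 0`** -/
theorem measure_d : ∃ c : ℝ, 0 < c ∧ ∃ κ : ℝ, 0 < κ ∧ ∀ a b d : ℤ, ∀ H : ℝ, 1 ≤ H → d ≠ 0 →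
    |(b : ℝ)| ≤ H → |(d : ℝ)| ≤ H → c * H ^ (-κ) ≤ |(a : ℝ) + b * zr 2 + d * zr 3| := by
  obtain ⟨p0, hp0⟩ := HU_nonvanish
  obtain ⟨C0, hC0, hA⟩ := AU_main
  have hP := PU_main (1 / 10) (by norm_num)
  obtain ⟨M0, hM0⟩ := prime_sel
  obtain ⟨N, hN⟩ := eventually_atTop.1 (hP.and (hA.and (eventually_ge_atTop 1)))
  set N1 : ℕ := N + p0 + M0 with hN1
  refine ⟨Real.exp (-(C0 * (2 * N1 + 8))), Real.exp_pos _, 14 * C0, by positivity, ?_⟩
  intro a b d H hH hd hb hdH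
  by_contra hlt
  push Not at hlt
  have hH0 : 0 < H := by linarith
  set L : ℝ := Real.log H with hL
  have hL0 : 0 ≤ L := Real.log_nonneg hH
  set M : ℕ := N1 + ⌈7 * L⌉₊ + 3 with hM
  have hc1 : 7 * L ≤ (⌈7 * L⌉₊ : ℝ) := Nat.le_ceil _
  have hc2 : (⌈7 * L⌉₊ : ℝ) < 7 * L + 1 := Nat.ceil_lt_add_one (by positivity)
  have hMr : (M : ℝ) = N1 + (⌈7 * L⌉₊ : ℝ) + 3 := by rw [hM]; push_cast; ring
  have hN1r : (0 : ℝ) ≤ N1 := Nat.cast_nonneg _
  set q : ℕ := d.natAbs with hq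
  have hq0 : q ≠ 0 := Int.natAbs_ne_zero.2 hd
  have hqr : (q : ℝ) = |(d : ℝ)| := by
    rw [hq, Nat.cast_natAbs]; push_cast; rfl
  have hqpos : (0 : ℝ) < q := by exact_mod_cast Nat.pos_of_ne_zero hq0
  have hq1 : (1 : ℝ) ≤ q := by exact_mod_cast Nat.one_le_iff_ne_zero.2 hq0
  have hqH : (q : ℝ) ≤ H := by rw [hqr]; exact hdH
  have hlq : Real.log q ≤ L := Real.log_le_log hqpos hqH
  obtain ⟨n, hnp, hn1, hn2, hnd⟩ := hM0 M (by omega) q hq0 (by linarith)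
  have hF : Fact n.Prime := ⟨hnp⟩
  have hnN : N ≤ n := by omega
  obtain ⟨h1, h2, h4⟩ := hN n hnN
  have hnr : (M : ℝ) < n := by exact_mod_cast hn1
  have hnr2 : (n : ℝ) ≤ 2 * M := by exact_mod_cast hn2
  have hn0 : (0 : ℝ) < n := by linarith
  set α : ℚ := -(a : ℚ) / d with hα'
  set β : ℚ := -(b : ℚ) / d with hβ'
  have hα : QI q α := QI_div a d hd
  have hβ : QI q β := QI_div b d hd
  have hpd : padicNorm n (d : ℚ) = 1 := by
    rw [padicNorm.int_eq_one_iff]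
    intro hdv
    exact hnd (Int.natCast_dvd.1 hdv)
  have hpα : padicNorm n α ≤ 1 := by
    rw [hα', padicNorm.div, hpd, div_one, padicNorm.neg]
    exact padicNorm.of_int a
  have hpβ : padicNorm n β ≤ 1 := by
    rw [hβ', padicNorm.div, hpd, div_one, padicNorm.neg]
    exact padicNorm.of_int b
  have hne := hp0 n (by omega) hnp α β hpα hpβ
  have hd' : (d : ℝ) ≠ 0 := by exact_mod_cast hd
  have het : et α β = ((a : ℝ) + b * zr 2 + d * zr 3) / d := by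
    unfold et
    rw [hα', hβ']
    push_cast
    field_simp
    ring
  have heta : |et α β| ≤ Real.exp (-(C0 * n)) := by
    rw [het, abs_div]
    have e1 : |(a : ℝ) + b * zr 2 + d * zr 3| / |(d : ℝ)| ≤ |(a : ℝ) + b * zr 2 + d * zr 3| := by
      apply div_le_self (abs_nonneg _)
      rw [← hqr]; exact hq1
    refine e1.trans (hlt.le.trans ?_)
    rw [Real.rpow_def_of_pos hH0, ← Real.exp_add]
    apply Real.exp_le_exp.2
    have e2 : (n : ℝ) ≤ 2 * N1 + 8 + 14 * L := by linarith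
    have e3 := mul_le_mul_of_nonneg_left e2 hC0.le
    have e4 : -(C0 * (2 * (N1 : ℝ) + 8)) + Real.log H * (-(14 * C0)) = -(C0 * (2 * N1 + 8 + 14 * L)) := by
      rw [← hL]; ring
    rw [e4]
    linarith
  have h1' := h1 q α β hα hβ hne
  have h2' := h2 α β heta hne
  set z : ℚ := (q : ℚ) ^ (14 * n) * Pool.Agent.LZ.DD n α β with hz
  have hqq : (q : ℚ) ≠ 0 := by exact_mod_cast hq0
  have hz0 : z ≠ 0 := mul_ne_zero (pow_ne_zero _ hqq) hne
  have hS : ∀ p ∈ (Finset.range (14 * n + 1)).filter Nat.Prime, p.Prime := fun p hp =>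
    (Finset.mem_filter.1 hp).2
  have hprod := Pool.Agent.H336R2.HD.A5_prod_formula z hz0 ((Finset.range (14 * n + 1)).filter Nat.Prime) hS
    (fun p => ((padicNorm p z : ℚ) : ℝ)) (fun p _ => le_rfl) (fun p hp hpS => by
      apply P_large q α β hα hβ n h4 p hp
      by_contra hlt
      apply hpS
      rw [Finset.mem_filter, Finset.mem_range]
      exact ⟨by omega, hp⟩)
  have hpos : ∀ p ∈ (Finset.range (14 * n + 1)).filter Nat.Prime, ((padicNorm p z : ℚ) : ℝ) ≠ 0 :=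
    fun p hp => (PM_z_pos p (hS p hp) z hz0).ne'
  have hDpos : 0 < |((Pool.Agent.LZ.DD n α β : ℚ) : ℝ)| := abs_pos.2 (by exact_mod_cast hne)
  have habs : |(z : ℝ)| = (q : ℝ) ^ (14 * n) * |((Pool.Agent.LZ.DD n α β : ℚ) : ℝ)| := by
    rw [hz]
    push_cast
    rw [abs_mul, abs_of_pos (pow_pos hqpos _)]
  have hlog := Real.log_nonneg hprod
  rw [habs, Real.log_mul (mul_pos (pow_pos hqpos _) hDpos).ne' (Finset.prod_ne_zero_iff.2 hpos),
    Real.log_mul (pow_pos hqpos _).ne' hDpos.ne', Real.log_pow, Real.log_prod (fun p hp => hpos p hp)] at hlog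
  push_cast at hlog
  -- the size of β
  have hβH : Real.log (1 + |(β : ℝ)|) ≤ L + 1 := by
    have b1 : |(β : ℝ)| ≤ H := by
      rw [hβ']
      push_cast
      rw [abs_div, abs_neg, ← hqr]
      exact (div_le_self (abs_nonneg _) hq1).trans hb
    have b2 : Real.log (1 + |(β : ℝ)|) ≤ Real.log (2 * H) :=
      Real.log_le_log (by linarith [abs_nonneg (β : ℝ)]) (by linarith)
    rw [Real.log_mul (by norm_num) hH0.ne'] at b2
    have b3 := Real.log_two_lt_d9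
    linarith
  have s1 : 7 * (n : ℝ) * Real.log (1 + |(β : ℝ)|) ≤ 7 * n * (L + 1) :=
    mul_le_mul_of_nonneg_left hβH (by positivity)
  have s2 : 14 * (n : ℝ) * Real.log q ≤ 14 * n * L :=
    mul_le_mul_of_nonneg_left hlq (by positivity)
  have s3 : (0 : ℝ) ≤ n * (21 * L + 7 - 34 / 10 * n) := by
    have : (n : ℝ) * (21 * L + 7 - 34 / 10 * n) = 14 * n * L + 7 * n * (L + 1) - 34 / 10 * (n : ℝ) ^ 2 := by ring
    rw [this]
    linarith
  have s4 : 21 * L + 7 - 34 / 10 * (n : ℝ) < 0 := by linarith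
  have s5 : (n : ℝ) * (21 * L + 7 - 34 / 10 * n) < 0 := mul_neg_of_pos_of_neg hn0 s4
  linarith

end

end Pool.Agent.LM
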