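import Pool.Agent.H103R2.LM.G

/-!
# The pole functional on the nodes, with explicit dependence on `β`
-/

open Polynomial Pool.Agent.H337R2 Pool.Agent.LZ

namespace Pool.Agent.LM

noncomputable section

/-- one pole -/
lemma RU_one {n : ℕ} (hn : 2 ≤ n) {k : ℕ} (hk : k ∈ sL n) (s : Finset ℕ) (hs : s ⊆ Finset.range (14 * n))
    (i j : ℕ) (r : ℕ) (hr : 2 ≤ r) :
    |((pa (sL n) (mL n) (PL n * (lag (Finset.range (14 * n)) (zq n) i * lag s (zq n) j)) k r : ℚ) : ℝ)| ≤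
    Real.exp (n * phi (-(10 * k : ℝ) / n) + Lp n (Finset.range (14 * n)) (-(10 * k : ℤ)) +
      Lp n s (-(10 * k : ℤ)) + 1500 * Real.log n) := by
  have hinj : ∀ n : ℕ, 1 ≤ n → Set.InjOn (nd n) (Finset.range (14 * n)) := fun _ hn => G0_nd_inj hn
  have hk' := Finset.mem_Icc.1 hk
  have hk1 : 2 * n < k := by omega
  have hk2 : k ≤ 12 * n := hk'.2
  unfold pa
  split_ifs with h
  · unfold pfc
    have hm : mL n k ≤ 3 := by unfold mL; split_ifs <;> omega
    refine (G2n_coeff _ (by omega)).trans ?_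
    unfold PL
    rw [map_mul, map_mul, map_mul]
    have h1 := G2_const n k
    have h2 := G2_zeros hk1 hk2
    have h3 := G2_nodes hinj (by omega : 1 ≤ n) (G2_bd n) hk2 (Finset.range (14 * n)) (Finset.Subset.refl _) i
    have h4 := G2_nodes hinj (by omega : 1 ≤ n) (G2_bd n) hk2 s hs j
    have h5 := G2_poles (by omega : 1 ≤ n) hk1 hk2
    have h6 := G2n_mul_exp (G2n_mul_exp (G2n_mul_exp h1 h2) (G2n_mul_exp h3 h4)) h5
    refine h6.trans (Real.exp_le_exp.2 ?_)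
    have h7 := G2_phi (by omega : 1 ≤ n) k
    have h8 := G2_log1 hn
    have h9 := G2_log2 hn
    have h10 := G2_log3 hn
    linarith
  · rw [Rat.cast_zero, abs_zero]
    exact (Real.exp_pos _).le

/-- the pole functionals -/
lemma RU_rho {n : ℕ} (hn : 2 ≤ n) (s : Finset ℕ) (hs : s ⊆ Finset.range (14 * n)) (i j : ℕ) (r : ℕ)
    (hr : 2 ≤ r) (MY : ℝ)
    (hM : ∀ k ∈ sL n, n * phi (-(10 * k : ℝ) / n) + Lp n (Finset.range (14 * n)) (-(10 * k : ℤ)) +
      Lp n s (-(10 * k : ℤ)) ≤ MY) :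
    |((rho n (PL n * (lag (Finset.range (14 * n)) (zq n) i * lag s (zq n) j)) r : ℚ) : ℝ)| ≤
      Real.exp (MY + 1505 * Real.log n) := by
  unfold rho
  rw [Rat.cast_sum]
  refine (Finset.abs_sum_le_sum_abs _ _).trans ?_
  have h2 : ∀ k ∈ sL n, |((pa (sL n) (mL n) (PL n * (lag (Finset.range (14 * n)) (zq n) i *
      lag s (zq n) j)) k r : ℚ) : ℝ)| ≤ Real.exp (MY + 1500 * Real.log n) := by
    intro k hk
    refine (RU_one hn hk s hs i j r hr).trans (Real.exp_le_exp.2 ?_)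
    linarith [hM k hk]
  refine (Finset.sum_le_sum h2).trans ?_
  rw [Finset.sum_const, nsmul_eq_mul]
  have h3 : ((sL n).card : ℝ) ≤ Real.exp (5 * Real.log n) := by
    have h4 := G2_log1 hn
    have h5 : (0 : ℝ) < 12 * n + 1 := by positivity
    have h6 : (12 * n + 1 : ℝ) ≤ Real.exp (5 * Real.log n) := by
      rw [← Real.exp_log h5]
      exact Real.exp_le_exp.2 h4
    refine le_trans ?_ h6
    have h7 : (sL n).card ≤ 12 * n + 1 := by
      rw [Nat.card_Icc]; omega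
    exact_mod_cast h7
  calc ((sL n).card : ℝ) * Real.exp (MY + 1500 * Real.log n) ≤
        Real.exp (5 * Real.log n) * Real.exp (MY + 1500 * Real.log n) :=
        mul_le_mul_of_nonneg_right h3 (Real.exp_pos _).le
    _ = _ := by rw [← Real.exp_add]; congr 1; ring

/-- entries of the pole part, with explicit dependence on `β` -/
theorem RU_entryY (β : ℚ) {n : ℕ} (hn : 2 ≤ n) (MY : ℝ)
    (hM : ∀ k ∈ sL n, n * phi (-(10 * k : ℝ) / n) + Lp n (Finset.range (14 * n)) (-(10 * k : ℤ)) +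
      Lp n (Finset.Ico (7 * n) (14 * n)) (-(10 * k : ℤ)) ≤ MY) (i j : ℕ) :
    |((BL n β (lag (Finset.range (14 * n)) (zq n) i * lag (Finset.Ico (7 * n) (14 * n)) (zq n) j) : ℚ) : ℝ)| ≤
      Real.exp (MY + 1505 * Real.log n + Real.log (1 + |(β : ℝ)|)) := by
  have hb0 : 0 ≤ |(β : ℝ)| := abs_nonneg _
  have hs : Finset.Ico (7 * n) (14 * n) ⊆ Finset.range (14 * n) := by
    intro x hx
    rw [Finset.mem_Ico] at hx
    exact Finset.mem_range.2 hx.2
  rw [BL_apply]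
  set Q : ℚ[X] := lag (Finset.range (14 * n)) (zq n) i * lag (Finset.Ico (7 * n) (14 * n)) (zq n) j with hQ
  have h2 := RU_rho hn _ hs i j 2 le_rfl MY hM
  have h3 := RU_rho hn _ hs i j 3 (by norm_num) MY hM
  rw [← hQ] at h2 h3
  unfold xb
  push_cast
  calc |((rho n (PL n * Q) 2 : ℚ) : ℝ) + ((rho n (PL n * Q) 3 : ℚ) : ℝ) * (β : ℝ)|
      ≤ |((rho n (PL n * Q) 2 : ℚ) : ℝ)| + |((rho n (PL n * Q) 3 : ℚ) : ℝ)| * |(β : ℝ)| := by
        rw [← abs_mul]; exact abs_add_le _ _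
    _ ≤ Real.exp (MY + 1505 * Real.log n) + Real.exp (MY + 1505 * Real.log n) * |(β : ℝ)| :=
        add_le_add h2 (mul_le_mul_of_nonneg_right h3 hb0)
    _ = Real.exp (MY + 1505 * Real.log n) * (1 + |(β : ℝ)|) := by ring
    _ = Real.exp (MY + 1505 * Real.log n) * Real.exp (Real.log (1 + |(β : ℝ)|)) := by
        rw [Real.exp_log (by linarith)]
    _ = _ := by
        rw [← Real.exp_add]

/-- the potential of the zeta part is bounded on the poles -/
lemma FN_bdd : ∃ CF : ℝ, 0 ≤ CF ∧ ∀ w : ℝ, -120 ≤ w → w ≤ -20 → FN w ≤ CF := by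
  have hPsi : Continuous Psi := by
    have : Psi = fun u => u * Real.log u - u := rfl
    rw [this]
    exact Real.continuous_mul_log.sub continuous_id
  have hphi : Continuous phi := by
    unfold phi
    fun_prop
  have hUb : ∀ g, Continuous (Ub g) := by
    intro g
    unfold Ub
    fun_prop
  have hc : Continuous FN := by
    unfold FN
    refine (hphi.add (continuous_const.mul (continuous_finsetSum _ fun g _ => hUb g))).add
      (continuous_finsetSum _ fun g _ => hUb g)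
  obtain ⟨M, hM⟩ := (isCompact_Icc (a := (-120 : ℝ)) (b := -20)).bddAbove_image hc.continuousOn
  refine ⟨|M|, abs_nonneg _, fun w h1 h2 => ?_⟩
  exact (hM (Set.mem_image_of_mem _ ⟨h1, h2⟩)).trans (le_abs_self _)

/-- the total potential of the zeta part at the poles -/
lemma potN : ∃ CF C : ℝ, 0 ≤ CF ∧ 0 < C ∧ ∀ n : ℕ, 2 ≤ n → ∀ k ∈ sL n,
    n * phi (-(10 * k : ℝ) / n) + Lp n (Finset.range (14 * n)) (-(10 * k : ℤ)) +
      Lp n (Finset.range (7 * n)) (-(10 * k : ℤ)) ≤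
      CF * n + 21 * n * Real.log n + C * Real.log n := by
  obtain ⟨CF, hCF, hF0⟩ := FN_bdd
  obtain ⟨C3, hC3, h3⟩ := G3_Lp
  refine ⟨CF, 16 * C3, hCF, by positivity, fun n hn k hk => ?_⟩
  rw [Finset.mem_Icc] at hk
  have hn' := AM.two_le hn
  have hn0 : (0 : ℝ) < n := by linarith
  have hl2 : 0 < Real.log 2 := Real.log_pos (by norm_num)
  have hl := AM.log2_le hn
  have hk1 : 2 * (n : ℝ) + 1 ≤ k := by exact_mod_cast hk.1
  have hk2 : (k : ℝ) ≤ 12 * n := by exact_mod_cast hk.2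
  have a2 := (abs_le.mp (h3 n hn 0 14 (by norm_num) le_rfl (-(10 * (k : ℤ))))).2
  have a3 := (abs_le.mp (h3 n hn 0 7 (by norm_num) (by norm_num) (-(10 * (k : ℤ))))).2
  rw [← AM.range_eq] at a2 a3
  push_cast at a2 a3
  have habs : |-(10 * (k : ℝ))| = 10 * k := by rw [abs_neg, abs_of_nonneg (by positivity)]
  rw [habs] at a2 a3
  have hlog : Real.log ((n : ℝ) + 10 * k) ≤ 8 * Real.log n := by
    have e1 : Real.log ((n : ℝ) + 10 * k) ≤ Real.log (2 ^ 7 * (n : ℝ)) :=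
      Real.log_le_log (by linarith) (by linarith)
    rw [Real.log_mul (by norm_num) (by linarith), Real.log_pow] at e1
    push_cast at e1
    linarith
  have hs : ∑ g ∈ Finset.Ico 0 14, Ub g (-(10 * (k : ℝ)) / n) =
      ∑ g ∈ Finset.range 7, Ub g (-(10 * (k : ℝ)) / n) + ∑ g ∈ Finset.Ico 7 14, Ub g (-(10 * (k : ℝ)) / n) := by
    rw [Finset.range_eq_Ico, Finset.sum_Ico_consecutive _ (by norm_num) (by norm_num)]
  rw [hs] at a2
  rw [← Finset.range_eq_Ico] at a3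
  have hC3l : C3 * Real.log ((n : ℝ) + 10 * k) ≤ 8 * (C3 * Real.log n) := by
    calc C3 * Real.log ((n : ℝ) + 10 * k) ≤ C3 * (8 * Real.log n) := by gcongr
      _ = _ := by ring
  have hw1 : -120 ≤ -(10 * (k : ℝ)) / n := by
    rw [le_div_iff₀ hn0]; linarith
  have hw2 : -(10 * (k : ℝ)) / n ≤ -20 := by
    rw [div_le_iff₀ hn0]; linarith
  have hF := mul_le_mul_of_nonneg_left (hF0 _ hw1 hw2) hn0.le
  unfold FN at hF
  have e3 : 16 * C3 * Real.log n = 8 * (C3 * Real.log n) + 8 * (C3 * Real.log n) := by ring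
  rw [e3]
  simp only [sub_zero] at a2 a3
  have e4 : (n : ℝ) * (phi (-(10 * (k : ℝ)) / n) + 2 * ∑ g ∈ Finset.range 7, Ub g (-(10 * (k : ℝ)) / n) +
      ∑ g ∈ Finset.Ico 7 14, Ub g (-(10 * (k : ℝ)) / n)) = n * phi (-(10 * (k : ℝ)) / n) +
      n * (∑ g ∈ Finset.range 7, Ub g (-(10 * (k : ℝ)) / n) + ∑ g ∈ Finset.Ico 7 14, Ub g (-(10 * (k : ℝ)) / n)) +
      n * ∑ g ∈ Finset.range 7, Ub g (-(10 * (k : ℝ)) / n) := by ring
  rw [e4] at hF
  linarith

end

end Pool.Agent.LM
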