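import Pool.Agent.H103R2.LM.Z2Defs

open Filter Topology

namespace Pool.Agent.LM

noncomputable section

theorem T1_prod_lt (r : ℕ) :
    ∏ k ∈ Finset.range r, ((k : ℚ) - r) = (-1) ^ r * (r.factorial : ℚ) := by
  have h1 : ∏ k ∈ Finset.range r, ((k : ℚ) - r) = ∏ k ∈ Finset.range r, (-1) * ((k : ℚ) + 1) := by
    rw [← Finset.prod_range_reflect]
    refine Finset.prod_congr rfl fun k hk => ?_
    rw [Finset.mem_range] at hk
    have h2 : ((r - 1 - k : ℕ) : ℚ) = r - 1 - k := by
      rw [Nat.cast_sub (by omega), Nat.cast_sub (by omega)]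
      push_cast; ring
    rw [h2]; ring
  rw [h1, Finset.prod_mul_distrib, Finset.prod_const, Finset.card_range]
  congr 1
  rw [← Finset.prod_range_add_one_eq_factorial]
  push_cast
  rfl

theorem T1_prod (n r : ℕ) (h : r ≤ n) :
    ∏ k ∈ (Finset.range (n + 1)).erase r, ((k : ℚ) - r)
      = (-1) ^ r * (r.factorial : ℚ) * ((n - r).factorial : ℚ) := by
  induction n, h using Nat.le_induction with
  | base =>
    have : (Finset.range (r + 1)).erase r = Finset.range r := by
      ext k; simp only [Finset.mem_erase, Finset.mem_range]; omega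
    rw [this, T1_prod_lt, Nat.sub_self]
    simp
  | succ n hn ih =>
    have : (Finset.range (n + 1 + 1)).erase r = insert (n + 1) ((Finset.range (n + 1)).erase r) := by
      ext k; simp only [Finset.mem_erase, Finset.mem_range, Finset.mem_insert]; omega
    rw [this, Finset.prod_insert (by simp), ih]
    have h2 : n + 1 - r = (n - r) + 1 := by omega
    rw [h2, Nat.factorial_succ]
    push_cast
    rw [Nat.cast_sub hn]
    ring

theorem T1_pf (f : Polynomial ℚ) (n t : ℕ) (hf : f.degree < ((n + 1 : ℕ) : WithBot ℕ)) :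
    f.eval (t : ℚ) / pq n t = ∑ r ∈ Finset.range (n + 1),
      f.eval (-(1 + (r : ℚ))) * ((-1) ^ r * (r.factorial : ℚ) * ((n - r).factorial : ℚ))⁻¹
        / ((t : ℚ) + 1 + r) := by
  set v : ℕ → ℚ := fun k => -(1 + (k : ℚ)) with hv
  have hinj : Set.InjOn v (Finset.range (n + 1)) := by
    intro a _ b _ hab
    simp only [hv] at hab
    have : (a : ℚ) = b := by linarith
    exact_mod_cast this
  have hx : ∀ i ∈ Finset.range (n + 1), (t : ℚ) ≠ v i := by
    intro i _ h
    simp only [hv] at h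
    have h1 : (0 : ℚ) ≤ t := Nat.cast_nonneg _
    have h2 : (0 : ℚ) ≤ i := Nat.cast_nonneg _
    linarith
  have h1 : f = Lagrange.interpolate (Finset.range (n + 1)) v (fun i => f.eval (v i)) :=
    Lagrange.eq_interpolate hinj (by rw [Finset.card_range]; exact hf)
  have h2 := congrArg (Polynomial.eval (t : ℚ)) h1
  rw [Lagrange.eval_interpolate_not_at_node _ hx] at h2
  have h3 : Polynomial.eval (t : ℚ) (Lagrange.nodal (Finset.range (n + 1)) v) = pq n t := by
    rw [Lagrange.eval_nodal]
    unfold pq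
    refine Finset.prod_congr rfl fun k _ => ?_
    simp only [hv]; ring
  have hpq : pq n t ≠ 0 := by
    unfold pq
    rw [Finset.prod_ne_zero_iff]
    intro k _
    positivity
  rw [h2, h3, mul_div_cancel_left₀ _ hpq]
  refine Finset.sum_congr rfl fun r hr => ?_
  rw [Finset.mem_range] at hr
  have h4 : Lagrange.nodalWeight (Finset.range (n + 1)) v r
      = ((-1) ^ r * (r.factorial : ℚ) * ((n - r).factorial : ℚ))⁻¹ := by
    unfold Lagrange.nodalWeight
    rw [← T1_prod n r (by omega), ← Finset.prod_inv_distrib]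
    refine Finset.prod_congr rfl fun k _ => ?_
    simp only [hv]
    congr 1
    ring
  have h5 : (t : ℚ) - v r = (t : ℚ) + 1 + r := by simp only [hv]; ring
  rw [h4, h5]
  ring

theorem T1_pfa (n t : ℕ) : ∑ r ∈ Finset.range (n + 1), (ca n r : ℚ) / ((t : ℚ) + 1 + r) =
    (t.descFactorial n : ℚ) / pq n t := by
  have h1 := T1_pf (descPochhammer ℚ n) n t (by
    refine lt_of_le_of_lt Polynomial.degree_le_natDegree ?_
    rw [descPochhammer_natDegree]
    exact_mod_cast Nat.lt_succ_self n)
  rw [descPochhammer_eval_eq_descFactorial] at h1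
  rw [h1]
  refine Finset.sum_congr rfl fun r hr => ?_
  rw [Finset.mem_range] at hr
  congr 1
  have h2 : Polynomial.eval (-(1 + (r : ℚ))) (descPochhammer ℚ n)
      = (-1) ^ n * (((r + n).factorial : ℚ) / (r.factorial : ℚ)) := by
    have h3 := ascPochhammer_eval_neg_eq_descPochhammer ℚ (-(1 + (r : ℚ))) n
    rw [neg_neg] at h3
    have h4 : Polynomial.eval (1 + (r : ℚ)) (ascPochhammer ℚ n)
        = ((r + n).factorial : ℚ) / (r.factorial : ℚ) := by
      have h5 : (1 + (r : ℚ)) = ((r + 1 : ℕ) : ℚ) := by push_cast; ring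
      rw [h5, ← ascPochhammer_eval_cast, ascPochhammer_nat_eq_ascFactorial, eq_div_iff (by positivity)]
      have h6 := Nat.factorial_mul_ascFactorial r n
      rw [mul_comm]
      exact_mod_cast h6
    rw [h4] at h3
    have h7 : ((-1 : ℚ) ^ n) * (-1) ^ n = 1 := by rw [← mul_pow]; norm_num
    calc Polynomial.eval (-(1 + (r : ℚ))) (descPochhammer ℚ n)
        = ((-1 : ℚ) ^ n * (-1) ^ n) * Polynomial.eval (-(1 + (r : ℚ))) (descPochhammer ℚ n) := by
          rw [h7, one_mul]
      _ = (-1) ^ n * ((-1) ^ n * Polynomial.eval (-(1 + (r : ℚ))) (descPochhammer ℚ n)) := by ring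
      _ = _ := by rw [← h3]
  rw [h2]
  unfold ca
  have hc1 : ((n.choose r : ℕ) : ℚ) = (n.factorial : ℚ) / ((r.factorial : ℚ) * ((n - r).factorial : ℚ)) :=
    Nat.cast_choose ℚ (by omega)
  have hc2 : (((n + r).choose r : ℕ) : ℚ) = ((n + r).factorial : ℚ) / ((r.factorial : ℚ) * (n.factorial : ℚ)) := by
    rw [Nat.cast_choose ℚ (by omega : r ≤ n + r), Nat.add_sub_cancel]
  push_cast
  rw [hc1, hc2, pow_add, add_comm r n]
  have e1 : (n.factorial : ℚ) ≠ 0 := by positivity
  have e2 : (r.factorial : ℚ) ≠ 0 := by positivity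
  have e3 : ((n - r).factorial : ℚ) ≠ 0 := by positivity
  have e4 : ((-1 : ℚ) ^ r) ≠ 0 := by positivity
  have e5 : ((-1 : ℚ) ^ r) * (-1) ^ r = 1 := by rw [← mul_pow]; norm_num
  field_simp
  rw [pow_two, e5]
  try ring

end

end Pool.Agent.LM
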