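import Pool.Agent.H103R2.LM.Z2Defs
import Pool.Agent.Helper923.PNT

/-! T10: `lcm(1, …, n) ≤ e^{1.1 n}` for large `n`. -/

open Filter Topology

namespace Pool.Agent.LM

theorem T10_dl : ∀ᶠ n : ℕ in atTop, ((dl n : ℕ) : ℝ) ≤ Real.exp (11 / 10 * n) := by
  have h1 : Tendsto (fun n : ℕ => Chebyshev.theta (n : ℝ) / (n : ℝ)) atTop (𝓝 1) :=
    Pool.Agent.Helper923.PNT.theta_div_tendsto.comp tendsto_natCast_atTop_atTop
  have h2 : Tendsto (fun n : ℕ => Real.log (n : ℝ) / (n : ℝ) ^ (1 / 2 : ℝ)) atTop (𝓝 0) := by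
    have := (isLittleO_log_rpow_atTop (show (0 : ℝ) < 1 / 2 by norm_num)).tendsto_div_nhds_zero.comp
      tendsto_natCast_atTop_atTop
    simpa [Function.comp_def] using this
  filter_upwards [h1.eventually_lt_const (show (1 : ℝ) < 105 / 100 by norm_num),
    h2.eventually_lt_const (show (0 : ℝ) < 1 / 100 by norm_num), eventually_ge_atTop 1] with n h3 h4 h5
  have hn : (0 : ℝ) < n := by exact_mod_cast h5
  have hn1 : (1 : ℝ) ≤ n := by exact_mod_cast h5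
  have e : Real.log ((dl n : ℕ) : ℝ) = Chebyshev.psi n := by
    rw [Chebyshev.psi_eq_log_lcmUpto]
    rfl
  have hpos : (0 : ℝ) < ((dl n : ℕ) : ℝ) := by exact_mod_cast Nat.lcmUpto_pos n
  rw [← Real.log_le_iff_le_exp hpos, e]
  have h6 := Chebyshev.psi_sub_theta_le hn1
  rw [div_lt_iff₀ hn] at h3
  have hs : 0 < (n : ℝ) ^ (1 / 2 : ℝ) := by positivity
  rw [div_lt_iff₀ hs] at h4
  have h7 : √(n : ℝ) * Real.log n ≤ 1 / 100 * n := by
    rw [Real.sqrt_eq_rpow]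
    calc (n : ℝ) ^ (1 / 2 : ℝ) * Real.log n ≤ (n : ℝ) ^ (1 / 2 : ℝ) * (1 / 100 * (n : ℝ) ^ (1 / 2 : ℝ)) :=
          mul_le_mul_of_nonneg_left h4.le hs.le
      _ = 1 / 100 * ((n : ℝ) ^ (1 / 2 : ℝ) * (n : ℝ) ^ (1 / 2 : ℝ)) := by ring
      _ = _ := by rw [← Real.rpow_add hn]; norm_num
  linarith

end Pool.Agent.LM
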