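import Pool.Agent.H103R2.LM.Z2Defs

open Filter Topology

namespace Pool.Agent.LM

noncomputable section

theorem T11_measure_of
    (T7_In : ∀ n : ℕ, 1 / (16 ^ n * (2 * (n : ℝ) + 1) ^ 2) ≤ In n ∧ In n ≤ 2 * (27 / 256 : ℝ) ^ n)
    (T8_An : ∀ n : ℕ, |(An n : ℝ)| ≤ 32 ^ n)
    (T9_int : ∀ n : ℕ, ∃ z : ℤ, ((dl n : ℕ) : ℚ) ^ 2 * Bn n = z)
    (T10_dl : ∀ᶠ n : ℕ in atTop, ((dl n : ℕ) : ℝ) ≤ Real.exp (11 / 10 * n)) :
    ∃ c : ℝ, 0 < c ∧ ∃ κ : ℝ, 0 < κ ∧ ∀ a b : ℤ, ∀ H : ℝ, 1 ≤ H → b ≠ 0 → |(a : ℝ)| ≤ H →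
    |(b : ℝ)| ≤ H → c * H ^ (-κ) ≤ |(a : ℝ) + b * (Real.pi ^ 2 / 6)| := by
  obtain ⟨N0, hN0⟩ := eventually_atTop.1 T10_dl
  set c0 : ℝ := Real.log (1 / 0.96) with hc0
  have hc0pos : 0 < c0 := Real.log_pos (by norm_num)
  set M : ℝ := 4608 with hM
  have hMlog : 0 < Real.log M := Real.log_pos (by norm_num [hM])
  set κ : ℝ := Real.log M / c0 with hκ
  have hκpos : 0 < κ := div_pos hMlog hc0pos
  have hexp : Real.exp (11 / 10 : ℝ) ^ 2 ≤ 9.1 := by
    have e1 : Real.exp (11 / 10 : ℝ) ^ 2 = (Real.exp (1 : ℝ)) ^ 2 * Real.exp (1 / 5) := by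
      rw [← Real.exp_nat_mul, ← Real.exp_nat_mul, ← Real.exp_add]
      norm_num
    have e2 : Real.exp (1 : ℝ) ≤ 2.7182818286 := Real.exp_one_lt_d9.le
    have e3 : Real.exp (1 / 5 : ℝ) ≤ 1.23 := by
      have h5 : Real.exp (1 / 5 : ℝ) ^ 5 = Real.exp 1 := by
        rw [← Real.exp_nat_mul]; norm_num
      by_contra hcon
      push Not at hcon
      have : (1.23 : ℝ) ^ 5 < Real.exp (1 / 5 : ℝ) ^ 5 := by gcongr
      rw [h5] at this
      norm_num at this
      linarith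
    rw [e1]
    have h0 := Real.exp_pos (1 : ℝ)
    have h1 := Real.exp_pos (1 / 5 : ℝ)
    calc (Real.exp (1 : ℝ)) ^ 2 * Real.exp (1 / 5) ≤ 2.7182818286 ^ 2 * 1.23 := by gcongr
      _ ≤ 9.1 := by norm_num
  have hD : ∀ n : ℕ, N0 ≤ n → ((dl n : ℕ) : ℝ) ^ 2 ≤ 9.1 ^ n := by
    intro n hn
    have h1 := hN0 n hn
    have h0 : (0 : ℝ) ≤ ((dl n : ℕ) : ℝ) := by positivity
    calc ((dl n : ℕ) : ℝ) ^ 2 ≤ (Real.exp (11 / 10 * n)) ^ 2 := by gcongr
      _ = (Real.exp (11 / 10 : ℝ) ^ 2) ^ n := by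
          rw [← pow_mul, mul_comm 2 n, pow_mul]
          congr 1
          rw [← Real.exp_nat_mul]
          ring_nf
      _ ≤ 9.1 ^ n := by gcongr
  have hthree : ∀ n : ℕ, 2 * (n : ℝ) + 1 ≤ 3 ^ n := by
    intro n
    induction n with
    | zero => norm_num
    | succ n ih =>
      push_cast
      rw [pow_succ]
      nlinarith [Nat.cast_nonneg (α := ℝ) n]
  have hkey : ∀ a b : ℤ, ∀ H : ℝ, b ≠ 0 → |(a : ℝ)| ≤ H → |(b : ℝ)| ≤ H → ∀ n : ℕ, N0 ≤ n →
      2 * H * (0.96 : ℝ) ^ n ≤ 1 / 2 → 1 / 2 * (1 / M ^ n) ≤ |(a : ℝ) + b * (Real.pi ^ 2 / 6)| := by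
    intro a b H hb ha hbH n hn hsmall
    set L := (a : ℝ) + b * (Real.pi ^ 2 / 6) with hL
    obtain ⟨z, hz⟩ := T9_int n
    obtain ⟨hI1, hI2⟩ := T7_In n
    have hA := T8_An n
    have hDn := hD n hn
    set D : ℝ := ((dl n : ℕ) : ℝ) ^ 2 with hDdef
    have hD0 : 0 ≤ D := by positivity
    have hzr : D * ((Bn n : ℚ) : ℝ) = z := by
      rw [hDdef]; exact_mod_cast hz
    have hIpos : 0 < In n := lt_of_lt_of_le (by positivity) hI1
    have hlin : (a : ℝ) * (An n : ℝ) + b * ((Bn n : ℚ) : ℝ) = (An n : ℝ) * L - b * In n := by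
      rw [hL]; unfold In; ring
    set w : ℤ := ((dl n : ℕ) : ℤ) ^ 2 * (a * An n) + b * z with hw
    have hwr : (w : ℝ) = D * ((An n : ℝ) * L - b * In n) := by
      rw [← hlin, hw, mul_add]
      push_cast
      rw [← hzr, hDdef]
      ring
    have hMpow : (1 : ℝ) / M ^ n ≤ 1 := by
      rw [div_le_one (by positivity)]
      exact one_le_pow₀ (by norm_num [hM])
    rcases eq_or_ne w 0 with h0 | h0
    · -- zero case
      rw [h0] at hwr
      have hz0 : D * ((An n : ℝ) * L - b * In n) = 0 := by rw [← hwr]; simp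
      have hDpos : D ≠ 0 := by
        rw [hDdef]
        have : (dl n : ℕ) ≠ 0 := by
          unfold dl
          rw [Finset.lcm_ne_zero_iff]
          intro x hx
          simp at hx ⊢
          omega
        positivity
      have hAL : (An n : ℝ) * L = b * In n := by
        rcases mul_eq_zero.1 hz0 with h | h
        · exact absurd h hDpos
        · linarith
      have hb1 : (1 : ℝ) ≤ |(b : ℝ)| := by
        have : (1 : ℤ) ≤ |b| := Int.one_le_abs hb
        exact_mod_cast this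
      have h1 : |(An n : ℝ)| * |L| = |(b : ℝ)| * In n := by
        rw [← abs_mul, hAL, abs_mul, abs_of_pos hIpos]
      have h2 : 1 / (16 ^ n * (2 * (n : ℝ) + 1) ^ 2) ≤ 32 ^ n * |L| := by
        calc 1 / (16 ^ n * (2 * (n : ℝ) + 1) ^ 2) ≤ In n := hI1
          _ ≤ |(b : ℝ)| * In n := by nlinarith
          _ = |(An n : ℝ)| * |L| := h1.symm
          _ ≤ 32 ^ n * |L| := by gcongr
      have h3 : (1 : ℝ) / (16 ^ n * 9 ^ n) ≤ 1 / (16 ^ n * (2 * (n : ℝ) + 1) ^ 2) := by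
        apply one_div_le_one_div_of_le (by positivity)
        have : (2 * (n : ℝ) + 1) ^ 2 ≤ 9 ^ n := by
          calc (2 * (n : ℝ) + 1) ^ 2 ≤ (3 ^ n) ^ 2 := by
                have := hthree n
                gcongr
            _ = 9 ^ n := by rw [← pow_mul, mul_comm n 2, pow_mul]; norm_num
        gcongr
      have h4 : (1 : ℝ) / M ^ n ≤ |L| := by
        have e : (M : ℝ) ^ n = 32 ^ n * (16 ^ n * 9 ^ n) := by
          rw [← mul_pow, ← mul_pow, hM]; norm_num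
        rw [e, div_le_iff₀ (by positivity)]
        have h5 : (1 : ℝ) / (16 ^ n * 9 ^ n) ≤ 32 ^ n * |L| := h3.trans h2
        rw [div_le_iff₀ (by positivity)] at h5
        calc (1 : ℝ) ≤ 32 ^ n * |L| * (16 ^ n * 9 ^ n) := h5
          _ = |L| * (32 ^ n * (16 ^ n * 9 ^ n)) := by ring
      have hMn : 0 ≤ (1 : ℝ) / M ^ n := by positivity
      linarith
    · -- nonzero case
      have hw1 : (1 : ℝ) ≤ |(w : ℝ)| := by
        have : (1 : ℤ) ≤ |w| := Int.one_le_abs h0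
        exact_mod_cast this
      rw [hwr] at hw1
      have h1 : |D * ((An n : ℝ) * L - b * In n)| ≤ D * |(An n : ℝ)| * |L| + D * |(b : ℝ)| * In n := by
        rw [abs_mul, abs_of_nonneg hD0]
        have : |(An n : ℝ) * L - b * In n| ≤ |(An n : ℝ)| * |L| + |(b : ℝ)| * In n := by
          calc |(An n : ℝ) * L - b * In n| ≤ |(An n : ℝ) * L| + |(b : ℝ) * In n| := abs_sub _ _
            _ = |(An n : ℝ)| * |L| + |(b : ℝ)| * In n := by rw [abs_mul, abs_mul, abs_of_pos hIpos]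
        calc D * |(An n : ℝ) * L - b * In n| ≤ D * (|(An n : ℝ)| * |L| + |(b : ℝ)| * In n) := by gcongr
          _ = _ := by ring
      have hH0 : 0 ≤ H := (abs_nonneg _).trans ha
      have h2 : D * |(b : ℝ)| * In n ≤ 1 / 2 := by
        calc D * |(b : ℝ)| * In n ≤ 9.1 ^ n * H * (2 * (27 / 256 : ℝ) ^ n) := by gcongr
          _ = 2 * H * (9.1 * (27 / 256)) ^ n := by rw [mul_pow]; ring
          _ ≤ 2 * H * (0.96 : ℝ) ^ n := by
              gcongr
              norm_num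
          _ ≤ 1 / 2 := hsmall
      have h3 : D * |(An n : ℝ)| * |L| ≤ M ^ n * |L| := by
        have : D * |(An n : ℝ)| ≤ M ^ n := by
          calc D * |(An n : ℝ)| ≤ 9.1 ^ n * 32 ^ n := by gcongr
            _ = (9.1 * 32 : ℝ) ^ n := by rw [mul_pow]
            _ ≤ M ^ n := by
                apply pow_le_pow_left₀ (by norm_num)
                norm_num [hM]
        gcongr
      have h4 : (1 : ℝ) / 2 ≤ M ^ n * |L| := by linarith
      have hMn : (0 : ℝ) < M ^ n := by positivity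
      rw [mul_one_div, div_le_iff₀ hMn]
      linarith
  refine ⟨1 / 2 * (1 / M ^ (N0 + 1)) * (4 : ℝ) ^ (-κ), by positivity, κ, hκpos, ?_⟩
  intro a b H hH hb ha hbH
  have h4H : 1 ≤ 4 * H := by linarith
  have hl4H : 0 ≤ Real.log (4 * H) := Real.log_nonneg h4H
  set m : ℕ := ⌈Real.log (4 * H) / c0⌉₊ with hm
  have hm1 : Real.log (4 * H) / c0 ≤ m := Nat.le_ceil _
  have hm2 : (m : ℝ) ≤ Real.log (4 * H) / c0 + 1 := (Nat.ceil_lt_add_one (by positivity)).le
  have hpow : (0.96 : ℝ) ^ m ≤ 1 / (4 * H) := by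
    have e : (0.96 : ℝ) = Real.exp (-c0) := by
      rw [hc0, Real.log_div (by norm_num) (by norm_num), Real.log_one, zero_sub, neg_neg,
        Real.exp_log (by norm_num)]
    rw [e, ← Real.exp_nat_mul]
    have e2 : (1 : ℝ) / (4 * H) = Real.exp (-Real.log (4 * H)) := by
      rw [Real.exp_neg, Real.exp_log (by linarith)]
      simp
    rw [e2]
    apply Real.exp_le_exp.2
    rw [div_le_iff₀ hc0pos] at hm1
    nlinarith
  have hsmall : 2 * H * (0.96 : ℝ) ^ (N0 + m) ≤ 1 / 2 := by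
    have h1 : (0.96 : ℝ) ^ (N0 + m) ≤ (0.96 : ℝ) ^ m := by
      apply pow_le_pow_of_le_one (by norm_num) (by norm_num)
      omega
    calc 2 * H * (0.96 : ℝ) ^ (N0 + m) ≤ 2 * H * (1 / (4 * H)) := by
          have hH0 : (0 : ℝ) ≤ 2 * H := by linarith
          exact mul_le_mul_of_nonneg_left (h1.trans hpow) hH0
      _ = 1 / 2 := by field_simp; norm_num
  have hfin := hkey a b H hb ha hbH (N0 + m) (by omega) hsmall
  refine le_trans ?_ hfin
  have hMpos : (0 : ℝ) < M := by norm_num [hM]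
  have hrp : (4 : ℝ) ^ (-κ) * H ^ (-κ) = (4 * H) ^ (-κ) := by
    rw [Real.mul_rpow (by norm_num) (by linarith)]
  have hlower : (4 * H) ^ (-κ) ≤ M * (1 / M ^ m) := by
    have e1 : (4 * H) ^ (-κ) = Real.exp (-(Real.log (4 * H) / c0) * Real.log M) := by
      rw [Real.rpow_def_of_pos (by linarith), hκ]
      congr 1
      field_simp
    have e2 : M * (1 / M ^ m) = Real.exp ((1 - m) * Real.log M) := by
      rw [sub_mul, one_mul, Real.exp_sub, Real.exp_log hMpos, ← Real.log_pow, Real.exp_log (by positivity)]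
      ring
    rw [e1, e2]
    apply Real.exp_le_exp.2
    apply mul_le_mul_of_nonneg_right _ hMlog.le
    linarith
  calc 1 / 2 * (1 / M ^ (N0 + 1)) * (4 : ℝ) ^ (-κ) * H ^ (-κ)
      = 1 / 2 * (1 / M ^ (N0 + 1)) * (4 * H) ^ (-κ) := by rw [mul_assoc, hrp]
    _ ≤ 1 / 2 * (1 / M ^ (N0 + 1)) * (M * (1 / M ^ m)) := by
        apply mul_le_mul_of_nonneg_left hlower
        positivity
    _ = 1 / 2 * (1 / M ^ (N0 + m)) := by
        rw [pow_add, pow_add, pow_one]
        field_simp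

end

end Pool.Agent.LM
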