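import Pool.Agent.H103R2.LM.Z2Defs
import Pool.Agent.H337R2.PsiCert

/-! T11, explicit: irrationality measure of `π² / 6` (exponent 233), from T7, T8, T9, T10. -/

open Filter Topology

namespace Pool.Agent.LM

lemma T11_log3 : Real.log 3 ≤ 1.0986124 := by
  have h3 := abs_le.mp (Pool.Agent.H337R2.lnA_spec 3 (by norm_num) (by norm_num))
  have e3 : Pool.Agent.H337R2.lnA 3 = 1098612288761 := by decide +kernel
  rw [e3] at h3
  push_cast at h3
  norm_num at h3 ⊢
  linarith [h3.1, h3.2]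

/-- `2 (27/256)^n e^{2.2 n} ≤ 2 e^{-0.049 n}` -/
lemma T11_small (n : ℕ) : (27 / 256 : ℝ) ^ n * Real.exp (22 / 10 * n) ≤ Real.exp (-(49 / 1000 * n)) := by
  have h : (27 / 256 : ℝ) ≤ Real.exp (-(2249 / 1000)) := by
    rw [← Real.log_le_iff_le_exp (by norm_num), Real.log_div (by norm_num) (by norm_num),
      show (27 : ℝ) = 3 ^ 3 by norm_num, show (256 : ℝ) = 2 ^ 8 by norm_num, Real.log_pow, Real.log_pow]
    have h2 := Real.log_two_gt_d9
    have h3 := T11_log3
    push_cast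
    linarith
  calc (27 / 256 : ℝ) ^ n * Real.exp (22 / 10 * n) ≤ Real.exp (-(2249 / 1000)) ^ n * Real.exp (22 / 10 * n) := by
        apply mul_le_mul_of_nonneg_right _ (Real.exp_pos _).le
        exact pow_le_pow_left₀ (by norm_num) h n
    _ = Real.exp (-(49 / 1000 * n)) := by
        rw [← Real.exp_nat_mul, ← Real.exp_add]
        congr 1
        ring

/-- **measure of `ζ(2)`** -/
theorem T11x_of (h7 : ∀ n : ℕ, 1 / (16 ^ n * (2 * (n : ℝ) + 1) ^ 2) ≤ In n ∧ In n ≤ 2 * (27 / 256 : ℝ) ^ n)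
    (h8 : ∀ n : ℕ, |(An n : ℝ)| ≤ 32 ^ n) (h9 : ∀ n : ℕ, ∃ z : ℤ, ((dl n : ℕ) : ℚ) ^ 2 * Bn n = z)
    (h10 : ∀ᶠ n : ℕ in atTop, ((dl n : ℕ) : ℝ) ≤ Real.exp (11 / 10 * n)) :
    ∃ c : ℝ, 0 < c ∧ ∀ a b : ℤ, ∀ H : ℝ, 1 ≤ H → b ≠ 0 → |(b : ℝ)| ≤ H →
      c * H ^ (-(233 : ℝ)) ≤ |(a : ℝ) + b * (Real.pi ^ 2 / 6)| := by
  obtain ⟨N0, hN0⟩ := eventually_atTop.1 h10
  refine ⟨Real.exp (-(10 * (N0 + 30))) / 9, by positivity, ?_⟩
  intro a b H hH hb hbH
  have hH0 : 0 < H := by linarith
  set L : ℝ := Real.log H with hL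
  have hL0 : 0 ≤ L := Real.log_nonneg hH
  set x : ℝ := (L + 14 / 10) / (49 / 1000) with hx
  have hx0 : 0 ≤ x := by positivity
  set n : ℕ := N0 + ⌈x⌉₊ with hn
  have hc1 : x ≤ (⌈x⌉₊ : ℝ) := Nat.le_ceil _
  have hc2 : (⌈x⌉₊ : ℝ) < x + 1 := Nat.ceil_lt_add_one hx0
  have hnr : (n : ℝ) = N0 + (⌈x⌉₊ : ℝ) := by rw [hn]; push_cast; ring
  have hN0r : (0 : ℝ) ≤ N0 := Nat.cast_nonneg _
  have hn0 : (0 : ℝ) ≤ n := Nat.cast_nonneg _
  have hxn : x ≤ n := by linarith
  have hnx : (n : ℝ) ≤ N0 + 1 + x := by linarith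
  have hD := hN0 n (by omega)
  obtain ⟨h7a, h7b⟩ := h7 n
  have hA := h8 n
  obtain ⟨z, hz⟩ := h9 n
  set D : ℝ := ((dl n : ℕ) : ℝ) ^ 2 with hDdef
  have hdl0 : (0 : ℝ) < ((dl n : ℕ) : ℝ) := by exact_mod_cast Nat.lcmUpto_pos n
  have hD0 : 0 < D := by positivity
  have hDle : D ≤ Real.exp (22 / 10 * n) := by
    have : Real.exp (22 / 10 * (n : ℝ)) = Real.exp (11 / 10 * n) ^ 2 := by
      rw [← Real.exp_nat_mul]
      congr 1
      push_cast
      ring
    rw [this, hDdef]
    exact pow_le_pow_left₀ hdl0.le hD 2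
  have hI0 : 0 < In n := lt_of_lt_of_le (by positivity) h7a
  set F : ℝ := (a : ℝ) + b * (Real.pi ^ 2 / 6) with hF
  -- the integer
  have hint : (((dl n : ℤ) ^ 2 * (a * An n) + b * z : ℤ) : ℝ) = D * ((An n : ℝ) * F - b * In n) := by
    have hz' : D * ((Bn n : ℚ) : ℝ) = (z : ℝ) := by
      rw [hDdef]
      exact_mod_cast hz
    push_cast
    rw [← hz', hDdef, hF]
    unfold In
    ring
  -- D |b| In ≤ 1/2
  have hsmall : D * (|(b : ℝ)| * In n) ≤ 1 / 2 := by
    have e1 : D * In n ≤ 2 * Real.exp (-(49 / 1000 * n)) := by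
      calc D * In n ≤ Real.exp (22 / 10 * n) * (2 * (27 / 256 : ℝ) ^ n) :=
            mul_le_mul hDle h7b hI0.le (Real.exp_pos _).le
        _ = 2 * ((27 / 256 : ℝ) ^ n * Real.exp (22 / 10 * n)) := by ring
        _ ≤ _ := by
            have := T11_small n
            linarith
    have e2 : Real.exp (-(49 / 1000 * n)) ≤ Real.exp (-(L + 14 / 10)) := by
      apply Real.exp_le_exp.2
      have : L + 14 / 10 = 49 / 1000 * x := by rw [hx]; field_simp
      rw [this]
      linarith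
    have e3 : Real.exp (-(L + 14 / 10)) = Real.exp (-(14 / 10)) / H := by
      rw [neg_add, Real.exp_add, Real.exp_neg L, hL, Real.exp_log hH0]
      ring
    have e4 : Real.exp (-(14 / 10 : ℝ)) ≤ 1 / 4 := by
      rw [← Real.le_log_iff_exp_le (by norm_num)]
      rw [show (1 / 4 : ℝ) = (2 ^ 2)⁻¹ by norm_num, Real.log_inv, Real.log_pow]
      have := Real.log_two_lt_d9
      push_cast
      linarith
    have e5 : |(b : ℝ)| * (Real.exp (-(14 / 10)) / H) ≤ 1 / 4 := by
      calc |(b : ℝ)| * (Real.exp (-(14 / 10)) / H) ≤ H * (Real.exp (-(14 / 10)) / H) :=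
            mul_le_mul_of_nonneg_right hbH (by positivity)
        _ = Real.exp (-(14 / 10)) := by field_simp
        _ ≤ _ := e4
    calc D * (|(b : ℝ)| * In n) = |(b : ℝ)| * (D * In n) := by ring
      _ ≤ |(b : ℝ)| * (2 * Real.exp (-(49 / 1000 * n))) := mul_le_mul_of_nonneg_left e1 (abs_nonneg _)
      _ ≤ |(b : ℝ)| * (2 * (Real.exp (-(14 / 10)) / H)) := by
          rw [← e3]
          apply mul_le_mul_of_nonneg_left _ (abs_nonneg _)
          linarith
      _ = 2 * (|(b : ℝ)| * (Real.exp (-(14 / 10)) / H)) := by ring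
      _ ≤ _ := by linarith
  -- lower bound exp(-(10 n)) / 9
  have hlow : Real.exp (-(10 * n)) / 9 ≤ |F| := by
    have l32 : (32 : ℝ) ^ n ≤ Real.exp (35 / 10 * n) := by
      have : (32 : ℝ) ≤ Real.exp (35 / 10) := by
        rw [← Real.log_le_iff_le_exp (by norm_num), show (32 : ℝ) = 2 ^ 5 by norm_num, Real.log_pow]
        have := Real.log_two_lt_d9
        push_cast
        linarith
      calc (32 : ℝ) ^ n ≤ Real.exp (35 / 10) ^ n := pow_le_pow_left₀ (by norm_num) this n
        _ = _ := by rw [← Real.exp_nat_mul]; congr 1; ring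
    by_cases h0 : ((dl n : ℤ) ^ 2 * (a * An n) + b * z : ℤ) = 0
    · -- zero case
      rw [h0, Int.cast_zero] at hint
      have h1 : (An n : ℝ) * F = b * In n := by
        have := (mul_eq_zero.1 hint.symm).resolve_left hD0.ne'
        linarith
      have h2 : |(An n : ℝ)| * |F| = |(b : ℝ)| * In n := by
        rw [← abs_mul, h1, abs_mul, abs_of_pos hI0]
      have hb1 : (1 : ℝ) ≤ |(b : ℝ)| := by
        rw [← Int.cast_abs]
        exact_mod_cast Int.one_le_abs hb
      have h3 : In n ≤ (32 : ℝ) ^ n * |F| := by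
        calc In n ≤ |(b : ℝ)| * In n := le_mul_of_one_le_left hI0.le hb1
          _ = |(An n : ℝ)| * |F| := h2.symm
          _ ≤ _ := mul_le_mul_of_nonneg_right hA (abs_nonneg _)
      have h4 : (16 : ℝ) ^ n * (2 * (n : ℝ) + 1) ^ 2 ≤ 9 * Real.exp (5 * n) := by
        have q1 : (16 : ℝ) ≤ Real.exp 3 := by
          rw [← Real.log_le_iff_le_exp (by norm_num), show (16 : ℝ) = 2 ^ 4 by norm_num, Real.log_pow]
          have := Real.log_two_lt_d9
          push_cast
          linarith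
        have q2 : (16 : ℝ) ^ n ≤ Real.exp (3 * n) := by
          calc (16 : ℝ) ^ n ≤ Real.exp 3 ^ n := pow_le_pow_left₀ (by norm_num) q1 n
            _ = _ := by rw [← Real.exp_nat_mul]; congr 1; ring
        have q3 : 2 * (n : ℝ) + 1 ≤ 3 * Real.exp n := by
          have := Real.add_one_le_exp (n : ℝ)
          linarith
        have q4 : (2 * (n : ℝ) + 1) ^ 2 ≤ (3 * Real.exp n) ^ 2 := pow_le_pow_left₀ (by positivity) q3 2
        calc (16 : ℝ) ^ n * (2 * (n : ℝ) + 1) ^ 2 ≤ Real.exp (3 * n) * (3 * Real.exp n) ^ 2 :=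
              mul_le_mul q2 q4 (by positivity) (Real.exp_pos _).le
          _ = 9 * Real.exp (5 * n) := by
              have : Real.exp (5 * (n : ℝ)) = Real.exp (3 * n) * Real.exp n ^ 2 := by
                rw [← Real.exp_nat_mul, ← Real.exp_add]
                congr 1
                push_cast
                ring
              rw [this]
              ring
      have h5 : Real.exp (-(5 * n)) / 9 ≤ In n := by
        refine le_trans ?_ h7a
        rw [Real.exp_neg, inv_eq_one_div, div_div, mul_comm (Real.exp (5 * (n : ℝ)))]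
        exact one_div_le_one_div_of_le (by positivity) h4
      have h6 : Real.exp (-(5 * n)) / 9 ≤ Real.exp (35 / 10 * n) * |F| :=
        h5.trans (h3.trans (mul_le_mul_of_nonneg_right l32 (abs_nonneg _)))
      have h7 : Real.exp (-(10 * n)) ≤ Real.exp (-(5 * n)) * Real.exp (-(35 / 10 * n)) := by
        rw [← Real.exp_add]
        apply Real.exp_le_exp.2
        linarith
      have h8 : Real.exp (35 / 10 * (n : ℝ)) * Real.exp (-(35 / 10 * n)) = 1 := by
        rw [← Real.exp_add]; simp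
      calc Real.exp (-(10 * n)) / 9 ≤ Real.exp (-(5 * n)) * Real.exp (-(35 / 10 * n)) / 9 := by linarith
        _ = Real.exp (-(5 * n)) / 9 * Real.exp (-(35 / 10 * n)) := by ring
        _ ≤ Real.exp (35 / 10 * n) * |F| * Real.exp (-(35 / 10 * n)) :=
            mul_le_mul_of_nonneg_right h6 (Real.exp_pos _).le
        _ = (Real.exp (35 / 10 * (n : ℝ)) * Real.exp (-(35 / 10 * n))) * |F| := by ring
        _ = |F| := by rw [h8, one_mul]
    · -- nonzero case
      have h1 : (1 : ℝ) ≤ |(((dl n : ℤ) ^ 2 * (a * An n) + b * z : ℤ) : ℝ)| := by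
        rw [← Int.cast_abs]
        exact_mod_cast Int.one_le_abs h0
      rw [hint, abs_mul, abs_of_pos hD0] at h1
      have h2 : |(An n : ℝ) * F - b * In n| ≤ |(An n : ℝ)| * |F| + |(b : ℝ)| * In n := by
        refine (abs_sub _ _).trans ?_
        rw [abs_mul, abs_mul, abs_of_pos hI0]
      have h3 : D * |(An n : ℝ) * F - b * In n| ≤ D * (|(An n : ℝ)| * |F|) + D * (|(b : ℝ)| * In n) := by
        rw [← mul_add]
        exact mul_le_mul_of_nonneg_left h2 hD0.le
      have h4 : 1 / 2 ≤ D * (|(An n : ℝ)| * |F|) := by linarith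
      have h5 : D * (|(An n : ℝ)| * |F|) ≤ Real.exp (57 / 10 * n) * |F| := by
        calc D * (|(An n : ℝ)| * |F|) ≤ Real.exp (22 / 10 * n) * (Real.exp (35 / 10 * n) * |F|) := by
              apply mul_le_mul hDle _ (by positivity) (Real.exp_pos _).le
              exact mul_le_mul_of_nonneg_right (hA.trans l32) (abs_nonneg _)
          _ = _ := by
              rw [← mul_assoc, ← Real.exp_add]
              congr 2
              ring
      have h6 : 1 / 2 ≤ Real.exp (57 / 10 * n) * |F| := h4.trans h5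
      have h7 : Real.exp (-(10 * n)) ≤ Real.exp (-(57 / 10 * n)) := Real.exp_le_exp.2 (by linarith)
      have h8 : Real.exp (57 / 10 * (n : ℝ)) * Real.exp (-(57 / 10 * n)) = 1 := by
        rw [← Real.exp_add]; simp
      have h9 := Real.exp_pos (-(57 / 10 * (n : ℝ)))
      calc Real.exp (-(10 * n)) / 9 ≤ 1 / 2 * Real.exp (-(57 / 10 * n)) := by linarith
        _ ≤ Real.exp (57 / 10 * n) * |F| * Real.exp (-(57 / 10 * n)) := mul_le_mul_of_nonneg_right h6 h9.le
        _ = (Real.exp (57 / 10 * (n : ℝ)) * Real.exp (-(57 / 10 * n))) * |F| := by ring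
        _ = |F| := by rw [h8, one_mul]
  refine le_trans ?_ hlow
  rw [div_mul_eq_mul_div]
  apply div_le_div_of_nonneg_right _ (by norm_num)
  rw [Real.rpow_def_of_pos hH0, ← Real.exp_add]
  apply Real.exp_le_exp.2
  rw [← hL]
  have e9 : x = 1000 / 49 * L + 1400 / 49 := by rw [hx]; field_simp; ring
  rw [e9] at hnx
  linarith

end Pool.Agent.LM
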