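import Pool.Agent.H103R2.LM.T1

open Filter Topology

namespace Pool.Agent.LM

noncomputable section

theorem T2_pfb (n t : ℕ) : ∑ s ∈ Finset.range (n + 1), (cb n s : ℚ) / ((t : ℚ) + 1 + s) =
    (n.factorial : ℚ) / pq n t := by
  have h1 := T1_pf (Polynomial.C (n.factorial : ℚ)) n t (by
    refine lt_of_le_of_lt Polynomial.degree_C_le ?_
    exact_mod_cast Nat.succ_pos n)
  rw [Polynomial.eval_C] at h1
  rw [h1]
  refine Finset.sum_congr rfl fun s hs => ?_
  rw [Finset.mem_range] at hs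
  congr 1
  rw [Polynomial.eval_C]
  unfold cb
  have hc1 : ((n.choose s : ℕ) : ℚ) = (n.factorial : ℚ) / ((s.factorial : ℚ) * ((n - s).factorial : ℚ)) :=
    Nat.cast_choose ℚ (by omega)
  push_cast
  rw [hc1]
  have e2 : (s.factorial : ℚ) ≠ 0 := by positivity
  have e3 : ((n - s).factorial : ℚ) ≠ 0 := by positivity
  have e4 : ((-1 : ℚ) ^ s) ≠ 0 := pow_ne_zero _ (by norm_num)
  have e5 : ((-1 : ℚ) ^ s) * (-1) ^ s = 1 := by rw [← mul_pow]; norm_num
  have e6 : (((-1 : ℚ) ^ s))⁻¹ = (-1) ^ s := inv_eq_of_mul_eq_one_left e5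
  rw [mul_inv, mul_inv, e6]
  field_simp

end

end Pool.Agent.LM
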