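import Pool.Agent.H103R2.LM.Z2Defs

open Filter Topology

namespace Pool.Agent.LM

noncomputable section

theorem T3_tail (r : ℕ) : Tendsto (fun N : ℕ => ∑ k ∈ Finset.range r, 1 / (((N + k : ℕ) : ℝ) + 1))
    atTop (𝓝 0) := by
  have h : ∀ k ∈ Finset.range r, Tendsto (fun N : ℕ => 1 / (((N + k : ℕ) : ℝ) + 1)) atTop (𝓝 0) := by
    intro k _
    exact (tendsto_one_div_add_atTop_nhds_zero_nat (𝕜 := ℝ)).comp (tendsto_add_atTop_nat k)
  have := tendsto_finsetSum (Finset.range r) h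
  simpa using this

theorem T3_part (r N : ℕ) : ∑ t ∈ Finset.range N, 1 / ((t : ℝ) + 1 + r)
    = ∑ k ∈ Finset.range N, 1 / ((k : ℝ) + 1) - ∑ k ∈ Finset.range r, 1 / ((k : ℝ) + 1)
      + ∑ k ∈ Finset.range r, 1 / (((N + k : ℕ) : ℝ) + 1) := by
  have h1 := Finset.sum_range_add (fun k : ℕ => 1 / ((k : ℝ) + 1)) r N
  have h2 := Finset.sum_range_add (fun k : ℕ => 1 / ((k : ℝ) + 1)) N r
  rw [add_comm r N] at h1
  have h3 : ∑ t ∈ Finset.range N, 1 / ((t : ℝ) + 1 + r)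
      = ∑ x ∈ Finset.range N, 1 / (((r + x : ℕ) : ℝ) + 1) := by
    refine Finset.sum_congr rfl fun t _ => ?_
    push_cast
    congr 1
    ring
  rw [h3]
  linarith

theorem T3_J (r s : ℕ) : HasSum (fun t : ℕ => 1 / (((t : ℝ) + 1 + r) * ((t : ℝ) + 1 + s)))
    ((if r = s then Real.pi ^ 2 / 6 else 0) - ((Jq r s : ℚ) : ℝ)) := by
  unfold Jq
  by_cases hrs : r = s
  · subst hrs
    rw [if_pos rfl, if_pos rfl]
    have h1 := (hasSum_nat_add_iff' (r + 1)).mpr hasSum_zeta_two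
    have e : ∑ i ∈ Finset.range (r + 1), 1 / ((i : ℝ)) ^ 2
        = ((∑ k ∈ Finset.range r, 1 / ((k : ℚ) + 1) ^ 2 : ℚ) : ℝ) := by
      rw [Finset.sum_range_succ']
      push_cast
      simp
    rw [← e]
    have e4 : (fun t : ℕ => 1 / (((t : ℝ) + 1 + r) * ((t : ℝ) + 1 + r)))
        = fun t : ℕ => 1 / (((t + (r + 1) : ℕ) : ℝ)) ^ 2 := by
      funext t
      have e3 : ((t + (r + 1) : ℕ) : ℝ) = (t : ℝ) + 1 + r := by push_cast; ring
      rw [e3, pow_two]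
    rw [e4]
    exact h1
  · rw [if_neg hrs, if_neg hrs]
    have hrs' : (r : ℝ) - s ≠ 0 := by
      rw [sub_ne_zero]; exact_mod_cast hrs
    have hnn : ∀ t : ℕ, 0 ≤ 1 / (((t : ℝ) + 1 + r) * ((t : ℝ) + 1 + s)) := fun t => by positivity
    rw [hasSum_iff_tendsto_nat_of_nonneg hnn]
    have hterm : ∀ t : ℕ, 1 / (((t : ℝ) + 1 + r) * ((t : ℝ) + 1 + s))
        = (1 / ((t : ℝ) + 1 + s) - 1 / ((t : ℝ) + 1 + r)) / ((r : ℝ) - s) := by
      intro t
      have e1 : (t : ℝ) + 1 + r ≠ 0 := by positivity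
      have e2 : (t : ℝ) + 1 + s ≠ 0 := by positivity
      field_simp
      ring
    have hsum : ∀ N : ℕ, ∑ t ∈ Finset.range N, 1 / (((t : ℝ) + 1 + r) * ((t : ℝ) + 1 + s))
        = ((∑ k ∈ Finset.range r, 1 / ((k : ℝ) + 1) - ∑ k ∈ Finset.range s, 1 / ((k : ℝ) + 1))
          + ((∑ k ∈ Finset.range s, 1 / (((N + k : ℕ) : ℝ) + 1))
            - ∑ k ∈ Finset.range r, 1 / (((N + k : ℕ) : ℝ) + 1))) / ((r : ℝ) - s) := by
      intro N
      simp only [hterm]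
      rw [← Finset.sum_div, Finset.sum_sub_distrib, T3_part r N, T3_part s N]
      congr 1
      ring
    simp only [hsum]
    have hlim := (((T3_tail s).sub (T3_tail r)).const_add
      (∑ k ∈ Finset.range r, 1 / ((k : ℝ) + 1) - ∑ k ∈ Finset.range s, 1 / ((k : ℝ) + 1))).div_const
      ((r : ℝ) - s)
    convert hlim using 2
    push_cast
    ring

end

end Pool.Agent.LM
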