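import Pool.Agent.H103R2.LM.Z2Defs

set_option autoImplicit false

namespace Pool.Agent.LM

noncomputable section

/-- T4 -/
theorem T4_hasSum_of
    (h1 : ∀ n t : ℕ, ∑ r ∈ Finset.range (n + 1), (ca n r : ℚ) / ((t : ℚ) + 1 + r) =
      (t.descFactorial n : ℚ) / pq n t)
    (h2 : ∀ n t : ℕ, ∑ s ∈ Finset.range (n + 1), (cb n s : ℚ) / ((t : ℚ) + 1 + s) =
      (n.factorial : ℚ) / pq n t)
    (h3 : ∀ r s : ℕ, HasSum (fun t : ℕ => 1 / (((t : ℝ) + 1 + r) * ((t : ℝ) + 1 + s)))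
      ((if r = s then Real.pi ^ 2 / 6 else 0) - ((Jq r s : ℚ) : ℝ)))
    (n : ℕ) : HasSum (Rt n) (In n) := by
  have hS : HasSum (fun t : ℕ => ∑ r ∈ Finset.range (n + 1), ∑ s ∈ Finset.range (n + 1),
      ((ca n r * cb n s : ℤ) : ℝ) * (1 / (((t : ℝ) + 1 + r) * ((t : ℝ) + 1 + s))))
      (∑ r ∈ Finset.range (n + 1), ∑ s ∈ Finset.range (n + 1),
        ((ca n r * cb n s : ℤ) : ℝ) * ((if r = s then Real.pi ^ 2 / 6 else 0) - ((Jq r s : ℚ) : ℝ))) := by
    apply hasSum_sum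
    intro r _
    apply hasSum_sum
    intro s _
    exact (h3 r s).mul_left _
  have hfun : (fun t : ℕ => ∑ r ∈ Finset.range (n + 1), ∑ s ∈ Finset.range (n + 1),
      ((ca n r * cb n s : ℤ) : ℝ) * (1 / (((t : ℝ) + 1 + r) * ((t : ℝ) + 1 + s)))) = Rt n := by
    funext t
    have e1 : Rt n t = (((t.descFactorial n : ℚ) / pq n t : ℚ) : ℝ) *
        (((n.factorial : ℚ) / pq n t : ℚ) : ℝ) := by
      unfold Rt
      push_cast
      ring
    rw [e1, ← h1, ← h2]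
    push_cast
    rw [Finset.sum_mul_sum]
    refine Finset.sum_congr rfl fun r _ => Finset.sum_congr rfl fun s _ => ?_
    have ha : ((t : ℝ) + 1 + r) ≠ 0 := by positivity
    have hb : ((t : ℝ) + 1 + s) ≠ 0 := by positivity
    field_simp
  have hval : (∑ r ∈ Finset.range (n + 1), ∑ s ∈ Finset.range (n + 1),
        ((ca n r * cb n s : ℤ) : ℝ) * ((if r = s then Real.pi ^ 2 / 6 else 0) - ((Jq r s : ℚ) : ℝ))) = In n := by
    unfold In An Bn
    push_cast
    rw [Finset.sum_mul, ← Finset.sum_sub_distrib]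
    refine Finset.sum_congr rfl fun r hr => ?_
    rw [show (∑ s ∈ Finset.range (n + 1), (ca n r : ℝ) * (cb n s : ℝ) *
        ((if r = s then Real.pi ^ 2 / 6 else 0) - ((Jq r s : ℚ) : ℝ))) =
        (∑ s ∈ Finset.range (n + 1), (if r = s then (ca n r : ℝ) * (cb n s : ℝ) * (Real.pi ^ 2 / 6) else 0)) -
        ∑ s ∈ Finset.range (n + 1), (ca n r : ℝ) * (cb n s : ℝ) * ((Jq r s : ℚ) : ℝ) by
      rw [← Finset.sum_sub_distrib]
      refine Finset.sum_congr rfl fun s _ => ?_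
      split_ifs <;> ring]
    rw [Finset.sum_ite_eq, if_pos hr]
  rw [hfun, hval] at hS
  exact hS

end

end Pool.Agent.LM
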