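import Pool.Agent.H103R2.LM.Z2Defs

open Filter Topology

namespace Pool.Agent.LM

noncomputable section

theorem pq_step (n u : ℕ) : pq (n + 1) (u + (n + 1)) * ((u : ℚ) + n + 1) =
    pq n (u + n) * (((u : ℚ) + 2 * n + 2) * ((u : ℚ) + 2 * n + 3)) := by
  unfold pq
  have h : ∀ m : ℕ, (∏ k ∈ Finset.range m, (((u + (n + 1) : ℕ) : ℚ) + 1 + k)) * ((u : ℚ) + n + 1) =
      (∏ k ∈ Finset.range m, (((u + n : ℕ) : ℚ) + 1 + k)) * ((u : ℚ) + n + 1 + m) := by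
    intro m
    induction m with
    | zero => simp
    | succ m ih =>
      rw [Finset.prod_range_succ, Finset.prod_range_succ]
      have e1 : (∏ k ∈ Finset.range m, (((u + (n + 1) : ℕ) : ℚ) + 1 + k)) * (((u + (n + 1) : ℕ) : ℚ) + 1 + m) *
          ((u : ℚ) + n + 1) = ((∏ k ∈ Finset.range m, (((u + (n + 1) : ℕ) : ℚ) + 1 + k)) * ((u : ℚ) + n + 1)) *
          (((u + (n + 1) : ℕ) : ℚ) + 1 + m) := by ring
      rw [e1, ih]
      push_cast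
      ring
  rw [h, Finset.prod_range_succ _ (n + 1)]
  push_cast
  ring

theorem pq_pos (n t : ℕ) : 0 < pq n t := by
  unfold pq
  exact Finset.prod_pos (fun k _ => by positivity)

theorem Rt_nonneg (n t : ℕ) : 0 ≤ Rt n t := by
  unfold Rt
  positivity

theorem Rt_step (n u : ℕ) : Rt (n + 1) (u + (n + 1)) *
    (((u : ℝ) + 2 * n + 2) * ((u : ℝ) + 2 * n + 3)) ^ 2 = Rt n (u + n) * (((n : ℝ) + 1) * ((u : ℝ) + n + 1) ^ 3) := by
  have h := pq_step n u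
  have hr : ((pq (n + 1) (u + (n + 1)) : ℚ) : ℝ) * ((u : ℝ) + n + 1) =
      ((pq n (u + n) : ℚ) : ℝ) * (((u : ℝ) + 2 * n + 2) * ((u : ℝ) + 2 * n + 3)) := by
    exact_mod_cast h
  have p1 : (0 : ℝ) < ((pq (n + 1) (u + (n + 1)) : ℚ) : ℝ) := by exact_mod_cast pq_pos _ _
  have p2 : (0 : ℝ) < ((pq n (u + n) : ℚ) : ℝ) := by exact_mod_cast pq_pos _ _
  unfold Rt
  have hf : (((n + 1).factorial * (u + (n + 1)).descFactorial (n + 1) : ℕ) : ℝ) =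
      ((n : ℝ) + 1) * ((u : ℝ) + n + 1) * ((n.factorial * (u + n).descFactorial n : ℕ) : ℝ) := by
    rw [Nat.factorial_succ, ← add_assoc, Nat.succ_descFactorial_succ]
    push_cast
    ring
  rw [hf]
  set P := ((pq (n + 1) (u + (n + 1)) : ℚ) : ℝ)
  set Q := ((pq n (u + n) : ℚ) : ℝ)
  set F := ((n.factorial * (u + n).descFactorial n : ℕ) : ℝ)
  set X := (((u : ℝ) + 2 * n + 2) * ((u : ℝ) + 2 * n + 3))
  set Y := ((u : ℝ) + n + 1)
  have hsq : P ^ 2 * Y ^ 2 = Q ^ 2 * X ^ 2 := by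
    rw [← mul_pow, ← mul_pow, hr]
  rw [div_mul_eq_mul_div, div_mul_eq_mul_div, div_eq_div_iff (by positivity) (by positivity)]
  have : ((n : ℝ) + 1) * Y * F * X ^ 2 * Q ^ 2 = ((n : ℝ) + 1) * Y * F * (Q ^ 2 * X ^ 2) := by ring
  rw [this, ← hsq]
  ring

/-- T5 -/
theorem T5_term (n u : ℕ) : Rt n (u + n) ≤ (27 / 256 : ℝ) ^ n * (1 / ((u : ℝ) + 1) ^ 2) := by
  induction n with
  | zero =>
    unfold Rt pq
    simp
  | succ n ih =>
    have hs := Rt_step n u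
    have hX : (0 : ℝ) < (((u : ℝ) + 2 * n + 2) * ((u : ℝ) + 2 * n + 3)) ^ 2 := by positivity
    have hk : ((n : ℝ) + 1) * ((u : ℝ) + n + 1) ^ 3 ≤
        27 / 256 * (((u : ℝ) + 2 * n + 2) * ((u : ℝ) + 2 * n + 3)) ^ 2 := by
      have h1 : ((n : ℝ) + 1) * ((u : ℝ) + n + 1) ^ 3 ≤ 27 / 256 * ((u : ℝ) + 2 * n + 2) ^ 4 := by
        have ha : (0 : ℝ) ≤ (n : ℝ) + 1 := by positivity
        have hb : (0 : ℝ) ≤ (u : ℝ) + n + 1 := by positivity
        set a := (n : ℝ) + 1 with hadef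
        set b := (u : ℝ) + n + 1 with hbdef
        have hab : (u : ℝ) + 2 * n + 2 = a + b := by rw [hadef, hbdef]; ring
        rw [hab]
        nlinarith [mul_nonneg (sq_nonneg (3 * a - b)) (by positivity : (0 : ℝ) ≤ 3 * a ^ 2 + 14 * a * b + 27 * b ^ 2),
          mul_nonneg ha hb, sq_nonneg (a - b), sq_nonneg (3 * a - b)]
      have h2 : ((u : ℝ) + 2 * n + 2) ^ 4 ≤ (((u : ℝ) + 2 * n + 2) * ((u : ℝ) + 2 * n + 3)) ^ 2 := by
        have : ((u : ℝ) + 2 * n + 2) ^ 4 = (((u : ℝ) + 2 * n + 2) * ((u : ℝ) + 2 * n + 2)) ^ 2 := by ring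
        rw [this]
        gcongr
        linarith
      nlinarith
    have hR := Rt_nonneg n (u + n)
    have h3 : Rt (n + 1) (u + (n + 1)) * (((u : ℝ) + 2 * n + 2) * ((u : ℝ) + 2 * n + 3)) ^ 2 ≤
        (27 / 256 * Rt n (u + n)) * (((u : ℝ) + 2 * n + 2) * ((u : ℝ) + 2 * n + 3)) ^ 2 := by
      rw [hs]
      nlinarith [mul_le_mul_of_nonneg_left hk hR]
    have h4 : Rt (n + 1) (u + (n + 1)) ≤ 27 / 256 * Rt n (u + n) := le_of_mul_le_mul_right h3 hX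
    calc Rt (n + 1) (u + (n + 1)) ≤ 27 / 256 * Rt n (u + n) := h4
      _ ≤ 27 / 256 * ((27 / 256 : ℝ) ^ n * (1 / ((u : ℝ) + 1) ^ 2)) := by gcongr
      _ = (27 / 256 : ℝ) ^ (n + 1) * (1 / ((u : ℝ) + 1) ^ 2) := by ring

end

end Pool.Agent.LM
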