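import Pool.Agent.H103R2.LM.Z2Defs

set_option autoImplicit false

namespace Pool.Agent.LM

noncomputable section

theorem T6_pq (n : ℕ) : ((n.factorial : ℕ) : ℝ) * ((pq n n : ℚ) : ℝ) = (((2 * n + 1).factorial : ℕ) : ℝ) := by
  have h1 : (pq n n : ℚ) = (((n + 1).ascFactorial (n + 1) : ℕ) : ℚ) := by
    unfold pq
    rw [Nat.ascFactorial_eq_prod_range]
    push_cast
    rfl
  have h2 : n.factorial * (n + 1).ascFactorial (n + 1) = (n + (n + 1)).factorial :=
    Nat.factorial_mul_ascFactorial n (n + 1)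
  have h3 : n + (n + 1) = 2 * n + 1 := by ring
  rw [h3] at h2
  rw [h1, ← h2]
  push_cast
  ring

/-- T6 -/
theorem T6_term (n : ℕ) : 1 / (16 ^ n * (2 * (n : ℝ) + 1) ^ 2) ≤ Rt n n := by
  have hf : (0 : ℝ) < (n.factorial : ℝ) := by exact_mod_cast n.factorial_pos
  have hF : (0 : ℝ) < ((2 * n + 1).factorial : ℝ) := by exact_mod_cast (2 * n + 1).factorial_pos
  have hpq := T6_pq n
  have hpqpos : (0 : ℝ) < ((pq n n : ℚ) : ℝ) := by
    by_contra h
    push Not at h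
    have : ((n.factorial : ℕ) : ℝ) * ((pq n n : ℚ) : ℝ) ≤ 0 := mul_nonpos_of_nonneg_of_nonpos hf.le h
    rw [hpq] at this
    linarith
  -- (2n+1)! = (2n+1) * C(2n,n) * n!^2
  have hc : (2 * n + 1).factorial = (2 * n + 1) * ((2 * n).choose n * n.factorial * n.factorial) := by
    rw [Nat.factorial_succ]
    congr 1
    have := Nat.choose_mul_factorial_mul_factorial (show n ≤ 2 * n by omega)
    have h2 : 2 * n - n = n := by omega
    rw [h2] at this
    exact this.symm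
  have hcr : (((2 * n + 1).factorial : ℕ) : ℝ) =
      (2 * (n : ℝ) + 1) * ((((2 * n).choose n : ℕ) : ℝ) * n.factorial * n.factorial) := by
    rw [hc]; push_cast; ring
  have hch : (((2 * n).choose n : ℕ) : ℝ) ≤ 4 ^ n := by
    have : (2 * n).choose n ≤ 2 ^ (2 * n) := Nat.choose_le_two_pow (2 * n) n
    have h5 : 2 ^ (2 * n) = 4 ^ n := by rw [pow_mul]; norm_num
    exact_mod_cast this.trans h5.le
  have hpq2 : ((pq n n : ℚ) : ℝ) = (2 * (n : ℝ) + 1) * ((((2 * n).choose n : ℕ) : ℝ) * n.factorial) := by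
    have h := hpq
    rw [hcr] at h
    have h' : ((n.factorial : ℕ) : ℝ) * ((pq n n : ℚ) : ℝ) =
        ((n.factorial : ℕ) : ℝ) * ((2 * (n : ℝ) + 1) * ((((2 * n).choose n : ℕ) : ℝ) * n.factorial)) := by
      rw [h]; ring
    exact mul_left_cancel₀ hf.ne' h'
  have hRt : Rt n n = (n.factorial : ℝ) ^ 2 / ((pq n n : ℚ) : ℝ) ^ 2 := by
    unfold Rt
    rw [Nat.descFactorial_self]
    push_cast
    ring
  rw [hRt, hpq2]
  have hle : ((2 * (n : ℝ) + 1) * ((((2 * n).choose n : ℕ) : ℝ) * n.factorial)) ≤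
      (2 * (n : ℝ) + 1) * (4 ^ n * n.factorial) := by gcongr
  have hposch : (0 : ℝ) < (((2 * n).choose n : ℕ) : ℝ) := by
    exact_mod_cast Nat.choose_pos (by omega)
  have hpos : (0 : ℝ) < (2 * (n : ℝ) + 1) * ((((2 * n).choose n : ℕ) : ℝ) * n.factorial) := by positivity
  rw [div_le_div_iff₀ (by positivity) (by positivity)]
  rw [one_mul]
  calc ((2 * (n : ℝ) + 1) * ((((2 * n).choose n : ℕ) : ℝ) * n.factorial)) ^ 2
      ≤ ((2 * (n : ℝ) + 1) * (4 ^ n * n.factorial)) ^ 2 := by gcongr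
    _ = (n.factorial : ℝ) ^ 2 * (16 ^ n * (2 * (n : ℝ) + 1) ^ 2) := by
      have : (16 : ℝ) ^ n = (4 ^ n) ^ 2 := by rw [← pow_mul, mul_comm n 2, pow_mul]; norm_num
      rw [this]; ring

end

end Pool.Agent.LM
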