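import Pool.Agent.H103R2.LM.Z2Defs

/-! T7: two-sided bound for the linear form (from T4, T5, T6) -/

open Filter Topology

namespace Pool.Agent.LM

theorem T7_pq_pos (n t : ℕ) : (0 : ℚ) < pq n t := by
  unfold pq
  exact Finset.prod_pos fun k _ => by positivity

theorem T7_Rt_nonneg (n t : ℕ) : 0 ≤ Rt n t := by
  unfold Rt
  positivity

theorem T7_Rt_zero (n t : ℕ) (h : t < n) : Rt n t = 0 := by
  unfold Rt
  rw [Nat.descFactorial_eq_zero_iff_lt.2 h]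
  simp

/-- T7 (from T4, T5, T6) -/
theorem T7_In_of (h4 : ∀ n : ℕ, HasSum (Rt n) (In n))
    (h5 : ∀ n u : ℕ, Rt n (u + n) ≤ (27 / 256 : ℝ) ^ n * (1 / ((u : ℝ) + 1) ^ 2))
    (h6 : ∀ n : ℕ, 1 / (16 ^ n * (2 * (n : ℝ) + 1) ^ 2) ≤ Rt n n) (n : ℕ) :
    1 / (16 ^ n * (2 * (n : ℝ) + 1) ^ 2) ≤ In n ∧ In n ≤ 2 * (27 / 256 : ℝ) ^ n := by
  constructor
  · exact (h6 n).trans (le_hasSum (h4 n) n fun j _ => T7_Rt_nonneg n j)
  · have hs : HasSum (fun u => Rt n (u + n)) (In n) := by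
      have h1 := (hasSum_nat_add_iff' n).2 (h4 n)
      have h2 : ∑ i ∈ Finset.range n, Rt n i = 0 :=
        Finset.sum_eq_zero fun i hi => T7_Rt_zero n i (Finset.mem_range.1 hi)
      rwa [h2, sub_zero] at h1
    have hz : HasSum (fun u : ℕ => 1 / ((u : ℝ) + 1) ^ 2) (Real.pi ^ 2 / 6) := by
      have h1 := (hasSum_nat_add_iff' 1).2 hasSum_zeta_two
      simpa using h1
    have h3 := hasSum_le (fun u => h5 n u) hs (hz.mul_left ((27 / 256 : ℝ) ^ n))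
    have h4' : Real.pi ^ 2 / 6 ≤ 2 := by
      have h5' := Real.pi_lt_d2
      have h6' := Real.pi_pos
      nlinarith
    have h7 : (0 : ℝ) ≤ (27 / 256 : ℝ) ^ n := by positivity
    nlinarith

end Pool.Agent.LM
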