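import Pool.Agent.H103R2.LM.Z2Defs

set_option autoImplicit false

namespace Pool.Agent.LM

noncomputable section

/-- T8 -/
theorem T8_An (n : ℕ) : |(An n : ℝ)| ≤ 32 ^ n := by
  have hterm : ∀ r ∈ Finset.range (n + 1), |((ca n r * cb n r : ℤ) : ℝ)| ≤ 16 ^ n := by
    intro r hr
    have hr' : r ≤ n := Nat.lt_succ_iff.mp (Finset.mem_range.mp hr)
    have h1 : |((ca n r * cb n r : ℤ) : ℝ)| =
        ((n.choose r * (n + r).choose r : ℕ) : ℝ) * ((n.choose r : ℕ) : ℝ) := by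
      unfold ca cb
      push_cast
      simp only [abs_mul, abs_pow, abs_neg, abs_one, one_pow, one_mul, Nat.abs_cast]
    rw [h1]
    have h2 : ((n.choose r : ℕ) : ℝ) ≤ 2 ^ n := by
      exact_mod_cast Nat.choose_le_two_pow n r
    have h3 : (((n + r).choose r : ℕ) : ℝ) ≤ 4 ^ n := by
      have : (n + r).choose r ≤ 2 ^ (n + r) := Nat.choose_le_two_pow (n + r) r
      have h4 : 2 ^ (n + r) ≤ 2 ^ (n + n) := Nat.pow_le_pow_right (by norm_num) (by omega)
      have h5 : 2 ^ (n + n) = 4 ^ n := by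
        rw [pow_add, ← mul_pow]; norm_num
      exact_mod_cast (this.trans h4).trans h5.le
    push_cast
    calc ((n.choose r : ℕ) : ℝ) * (((n + r).choose r : ℕ) : ℝ) * ((n.choose r : ℕ) : ℝ)
        ≤ 2 ^ n * 4 ^ n * 2 ^ n := by gcongr
      _ = 16 ^ n := by
        rw [← mul_pow, ← mul_pow]; norm_num
  have hsum : |(An n : ℝ)| ≤ ∑ r ∈ Finset.range (n + 1), |((ca n r * cb n r : ℤ) : ℝ)| := by
    unfold An
    rw [Int.cast_sum]
    exact Finset.abs_sum_le_sum_abs _ _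
  calc |(An n : ℝ)| ≤ ∑ r ∈ Finset.range (n + 1), |((ca n r * cb n r : ℤ) : ℝ)| := hsum
    _ ≤ ∑ _r ∈ Finset.range (n + 1), (16 : ℝ) ^ n := Finset.sum_le_sum hterm
    _ = ((n : ℝ) + 1) * 16 ^ n := by
      rw [Finset.sum_const, Finset.card_range, nsmul_eq_mul]; push_cast; ring
    _ ≤ 2 ^ n * 16 ^ n := by
      gcongr
      have : n + 1 ≤ 2 ^ n := Nat.lt_two_pow_self
      exact_mod_cast this
    _ = 32 ^ n := by rw [← mul_pow]; norm_num

end

end Pool.Agent.LM
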