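import Pool.Agent.H103R2.LM.Z2Defs

/-! T9: `dl n ^ 2 * Bn n` is an integer -/

open Filter Topology

namespace Pool.Agent.LM

/-- the integers in `ℚ` -/
def T9_S : Subring ℚ := (Int.castRingHom ℚ).range

theorem T9_int_mem (z : ℤ) : (z : ℚ) ∈ T9_S := ⟨z, rfl⟩

theorem T9_nat_mem (z : ℕ) : (z : ℚ) ∈ T9_S := ⟨z, by simp⟩

theorem T9_div (n m : ℕ) (h1 : 1 ≤ m) (h2 : m ≤ n) : (dl n : ℚ) / m ∈ T9_S := by
  have h3 : m ∣ dl n := Finset.dvd_lcm (s := Finset.Icc 1 n) (f := id) (Finset.mem_Icc.2 ⟨h1, h2⟩)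
  obtain ⟨c, hc⟩ := h3
  have hm : (m : ℚ) ≠ 0 := by exact_mod_cast (by omega : m ≠ 0)
  have : (dl n : ℚ) / m = (c : ℚ) := by
    rw [hc]; push_cast; field_simp
  rw [this]
  exact T9_nat_mem c

theorem T9_harm (n r : ℕ) (h : r ≤ n) :
    (dl n : ℚ) * ∑ k ∈ Finset.range r, 1 / ((k : ℚ) + 1) ∈ T9_S := by
  rw [Finset.mul_sum]
  refine Subring.sum_mem _ fun k hk => ?_
  have hk' := Finset.mem_range.1 hk
  have h1 := T9_div n (k + 1) (by omega) (by omega)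
  have : (dl n : ℚ) * (1 / ((k : ℚ) + 1)) = (dl n : ℚ) / ((k + 1 : ℕ) : ℚ) := by
    push_cast; ring
  rwa [this]

theorem T9_J (n r s : ℕ) (hr : r ≤ n) (hs : s ≤ n) : ((dl n : ℕ) : ℚ) ^ 2 * Jq r s ∈ T9_S := by
  unfold Jq
  split_ifs with h
  · rw [Finset.mul_sum]
    refine Subring.sum_mem _ fun k hk => ?_
    have hk' := Finset.mem_range.1 hk
    have h1 := T9_div n (k + 1) (by omega) (by omega)
    have : ((dl n : ℕ) : ℚ) ^ 2 * (1 / ((k : ℚ) + 1) ^ 2) =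
        ((dl n : ℚ) / ((k + 1 : ℕ) : ℚ)) * ((dl n : ℚ) / ((k + 1 : ℕ) : ℚ)) := by
      push_cast
      field_simp
    rw [this]
    exact Subring.mul_mem _ h1 h1
  · have h1 := Subring.sub_mem _ (T9_harm n s hs) (T9_harm n r hr)
    have h2 : (dl n : ℚ) / ((r : ℚ) - s) ∈ T9_S := by
      rcases lt_or_gt_of_ne h with h3 | h3
      · have h4 := T9_div n (s - r) (by omega) (by omega)
        have : (dl n : ℚ) / ((r : ℚ) - s) = -((dl n : ℚ) / ((s - r : ℕ) : ℚ)) := by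
          rw [Nat.cast_sub h3.le, ← div_neg]
          congr 1
          ring
        rw [this]
        exact Subring.neg_mem _ h4
      · have h4 := T9_div n (r - s) (by omega) (by omega)
        rwa [Nat.cast_sub (le_of_lt h3)] at h4
    have h5 := Subring.mul_mem _ h1 h2
    have e : ((dl n : ℕ) : ℚ) ^ 2 * ((∑ k ∈ Finset.range s, 1 / ((k : ℚ) + 1) -
        ∑ k ∈ Finset.range r, 1 / ((k : ℚ) + 1)) / ((r : ℚ) - s)) =
        ((dl n : ℚ) * ∑ k ∈ Finset.range s, 1 / ((k : ℚ) + 1) -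
          (dl n : ℚ) * ∑ k ∈ Finset.range r, 1 / ((k : ℚ) + 1)) * ((dl n : ℚ) / ((r : ℚ) - s)) := by
      ring
    rwa [e]

/-- T9 -/
theorem T9_int (n : ℕ) : ∃ z : ℤ, ((dl n : ℕ) : ℚ) ^ 2 * Bn n = z := by
  have h : ((dl n : ℕ) : ℚ) ^ 2 * Bn n ∈ T9_S := by
    unfold Bn
    rw [Finset.mul_sum]
    refine Subring.sum_mem _ fun r hr => ?_
    rw [Finset.mul_sum]
    refine Subring.sum_mem _ fun s hs => ?_
    have h1 := T9_J n r s (by have := Finset.mem_range.1 hr; omega)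
      (by have := Finset.mem_range.1 hs; omega)
    have h2 := Subring.mul_mem _ (T9_int_mem (ca n r * cb n s)) h1
    have e : ((dl n : ℕ) : ℚ) ^ 2 * (((ca n r * cb n s : ℤ) : ℚ) * Jq r s) =
        ((ca n r * cb n s : ℤ) : ℚ) * (((dl n : ℕ) : ℚ) ^ 2 * Jq r s) := by ring
    rwa [e]
  obtain ⟨z, hz⟩ := h
  exact ⟨z, by rw [← hz]; rfl⟩

end Pool.Agent.LM
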