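import Pool.Agent.H337R2.LZ.Z

/-! Certificate for the potential `FN` on the poles, `[-120, -20]`. -/

open Polynomial Pool.Agent.H337R2 Pool.Agent.LZ

namespace Pool.Agent.LM

namespace TV

/-- the list of the potential, step `1`, denominator `3063060` -/
def lN : List (ℤ × ℤ) :=
  [(-918918, -120), (255255, -116), (85085, -104), (-34034, -95), (34034, -85), (-34034, -76), (-70686, -56), (-235620, -43), (306306, -40), (306306, -30), (612612, -20), (306306, 0), (-252252, 20), (-185328, 37), (-87516, 72), (-51480, 142), (-26754, 312), (-9282, 972)]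

lemma FN_eq (w : ℝ) : FN w = (14 * Real.log 10 + 18 * Real.log 3 + 22 * Real.log 2 - 25) +
    EF 3063060 1 lN w := by
  unfold FN phi Ub
  simp only [EF, lN, List.map_cons, List.map_nil, List.sum_cons, List.sum_nil,
    Finset.sum_range_succ, Finset.sum_range_zero, Finset.sum_Ico_eq_sum_range, bb, cc]
  norm_num
  ring_nf

lemma E_up (v : ℝ) (h1 : -120 ≤ v) (h2 : v ≤ -20) : EF 3063060 1 lN v ≤ ((22739 : ℝ) / 1000) := by
  have s0 : v ≤ (-116 : ℝ) / 1 → (-120 : ℝ) / 1 ≤ v → EF 3063060 1 lN v ≤ ((22739 : ℝ) / 1000) := fun ha hb =>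
    EF_le (Dc := 3063060) (M := 1) (l := lN) (A := 69650921340000000000) (by norm_num) (by norm_num) (by norm_num) _ (by norm_num) (st := 4) (c := 1)
      (by norm_num) (x0 := -120) (by decide +kernel) v (by norm_num; linarith) (by norm_num; linarith)
  have s1 : v ≤ (-108 : ℝ) / 1 → (-116 : ℝ) / 1 ≤ v → EF 3063060 1 lN v ≤ ((22739 : ℝ) / 1000) := fun ha hb =>
    EF_le (Dc := 3063060) (M := 1) (l := lN) (A := 69650921340000000000) (by norm_num) (by norm_num) (by norm_num) _ (by norm_num) (st := 8) (c := 1)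
      (by norm_num) (x0 := -116) (by decide +kernel) v (by norm_num; linarith) (by norm_num; linarith)
  have s2 : v ≤ (-104 : ℝ) / 1 → (-108 : ℝ) / 1 ≤ v → EF 3063060 1 lN v ≤ ((22739 : ℝ) / 1000) := fun ha hb =>
    EF_le (Dc := 3063060) (M := 1) (l := lN) (A := 69650921340000000000) (by norm_num) (by norm_num) (by norm_num) _ (by norm_num) (st := 4) (c := 1)
      (by norm_num) (x0 := -108) (by decide +kernel) v (by norm_num; linarith) (by norm_num; linarith)
  have s3 : v ≤ (-96 : ℝ) / 1 → (-104 : ℝ) / 1 ≤ v → EF 3063060 1 lN v ≤ ((22739 : ℝ) / 1000) := fun ha hb =>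
    EF_le (Dc := 3063060) (M := 1) (l := lN) (A := 69650921340000000000) (by norm_num) (by norm_num) (by norm_num) _ (by norm_num) (st := 8) (c := 1)
      (by norm_num) (x0 := -104) (by decide +kernel) v (by norm_num; linarith) (by norm_num; linarith)
  have s4 : v ≤ (-95 : ℝ) / 1 → (-96 : ℝ) / 1 ≤ v → EF 3063060 1 lN v ≤ ((22739 : ℝ) / 1000) := fun ha hb =>
    EF_le (Dc := 3063060) (M := 1) (l := lN) (A := 69650921340000000000) (by norm_num) (by norm_num) (by norm_num) _ (by norm_num) (st := 1) (c := 1)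
      (by norm_num) (x0 := -96) (by decide +kernel) v (by norm_num; linarith) (by norm_num; linarith)
  have s5 : v ≤ (-91 : ℝ) / 1 → (-95 : ℝ) / 1 ≤ v → EF 3063060 1 lN v ≤ ((22739 : ℝ) / 1000) := fun ha hb =>
    EF_le (Dc := 3063060) (M := 1) (l := lN) (A := 69650921340000000000) (by norm_num) (by norm_num) (by norm_num) _ (by norm_num) (st := 4) (c := 1)
      (by norm_num) (x0 := -95) (by decide +kernel) v (by norm_num; linarith) (by norm_num; linarith)
  have s6 : v ≤ (-87 : ℝ) / 1 → (-91 : ℝ) / 1 ≤ v → EF 3063060 1 lN v ≤ ((22739 : ℝ) / 1000) := fun ha hb =>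
    EF_le (Dc := 3063060) (M := 1) (l := lN) (A := 69650921340000000000) (by norm_num) (by norm_num) (by norm_num) _ (by norm_num) (st := 4) (c := 1)
      (by norm_num) (x0 := -91) (by decide +kernel) v (by norm_num; linarith) (by norm_num; linarith)
  have s7 : v ≤ (-85 : ℝ) / 1 → (-87 : ℝ) / 1 ≤ v → EF 3063060 1 lN v ≤ ((22739 : ℝ) / 1000) := fun ha hb =>
    EF_le (Dc := 3063060) (M := 1) (l := lN) (A := 69650921340000000000) (by norm_num) (by norm_num) (by norm_num) _ (by norm_num) (st := 2) (c := 1)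
      (by norm_num) (x0 := -87) (by decide +kernel) v (by norm_num; linarith) (by norm_num; linarith)
  have s8 : v ≤ (-77 : ℝ) / 1 → (-85 : ℝ) / 1 ≤ v → EF 3063060 1 lN v ≤ ((22739 : ℝ) / 1000) := fun ha hb =>
    EF_le (Dc := 3063060) (M := 1) (l := lN) (A := 69650921340000000000) (by norm_num) (by norm_num) (by norm_num) _ (by norm_num) (st := 8) (c := 1)
      (by norm_num) (x0 := -85) (by decide +kernel) v (by norm_num; linarith) (by norm_num; linarith)
  have s9 : v ≤ (-76 : ℝ) / 1 → (-77 : ℝ) / 1 ≤ v → EF 3063060 1 lN v ≤ ((22739 : ℝ) / 1000) := fun ha hb =>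
    EF_le (Dc := 3063060) (M := 1) (l := lN) (A := 69650921340000000000) (by norm_num) (by norm_num) (by norm_num) _ (by norm_num) (st := 1) (c := 1)
      (by norm_num) (x0 := -77) (by decide +kernel) v (by norm_num; linarith) (by norm_num; linarith)
  have s10 : v ≤ (-68 : ℝ) / 1 → (-76 : ℝ) / 1 ≤ v → EF 3063060 1 lN v ≤ ((22739 : ℝ) / 1000) := fun ha hb =>
    EF_le (Dc := 3063060) (M := 1) (l := lN) (A := 69650921340000000000) (by norm_num) (by norm_num) (by norm_num) _ (by norm_num) (st := 8) (c := 1)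
      (by norm_num) (x0 := -76) (by decide +kernel) v (by norm_num; linarith) (by norm_num; linarith)
  have s11 : v ≤ (-60 : ℝ) / 1 → (-68 : ℝ) / 1 ≤ v → EF 3063060 1 lN v ≤ ((22739 : ℝ) / 1000) := fun ha hb =>
    EF_le (Dc := 3063060) (M := 1) (l := lN) (A := 69650921340000000000) (by norm_num) (by norm_num) (by norm_num) _ (by norm_num) (st := 8) (c := 1)
      (by norm_num) (x0 := -68) (by decide +kernel) v (by norm_num; linarith) (by norm_num; linarith)
  have s12 : v ≤ (-56 : ℝ) / 1 → (-60 : ℝ) / 1 ≤ v → EF 3063060 1 lN v ≤ ((22739 : ℝ) / 1000) := fun ha hb =>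
    EF_le (Dc := 3063060) (M := 1) (l := lN) (A := 69650921340000000000) (by norm_num) (by norm_num) (by norm_num) _ (by norm_num) (st := 4) (c := 1)
      (by norm_num) (x0 := -60) (by decide +kernel) v (by norm_num; linarith) (by norm_num; linarith)
  have s13 : v ≤ (-48 : ℝ) / 1 → (-56 : ℝ) / 1 ≤ v → EF 3063060 1 lN v ≤ ((22739 : ℝ) / 1000) := fun ha hb =>
    EF_le (Dc := 3063060) (M := 1) (l := lN) (A := 69650921340000000000) (by norm_num) (by norm_num) (by norm_num) _ (by norm_num) (st := 8) (c := 1)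
      (by norm_num) (x0 := -56) (by decide +kernel) v (by norm_num; linarith) (by norm_num; linarith)
  have s14 : v ≤ (-44 : ℝ) / 1 → (-48 : ℝ) / 1 ≤ v → EF 3063060 1 lN v ≤ ((22739 : ℝ) / 1000) := fun ha hb =>
    EF_le (Dc := 3063060) (M := 1) (l := lN) (A := 69650921340000000000) (by norm_num) (by norm_num) (by norm_num) _ (by norm_num) (st := 4) (c := 1)
      (by norm_num) (x0 := -48) (by decide +kernel) v (by norm_num; linarith) (by norm_num; linarith)
  have s15 : v ≤ (-43 : ℝ) / 1 → (-44 : ℝ) / 1 ≤ v → EF 3063060 1 lN v ≤ ((22739 : ℝ) / 1000) := fun ha hb =>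
    EF_le (Dc := 3063060) (M := 1) (l := lN) (A := 69650921340000000000) (by norm_num) (by norm_num) (by norm_num) _ (by norm_num) (st := 1) (c := 1)
      (by norm_num) (x0 := -44) (by decide +kernel) v (by norm_num; linarith) (by norm_num; linarith)
  have s16 : v ≤ (-41 : ℝ) / 1 → (-43 : ℝ) / 1 ≤ v → EF 3063060 1 lN v ≤ ((22739 : ℝ) / 1000) := fun ha hb =>
    EF_le (Dc := 3063060) (M := 1) (l := lN) (A := 69650921340000000000) (by norm_num) (by norm_num) (by norm_num) _ (by norm_num) (st := 2) (c := 1)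
      (by norm_num) (x0 := -43) (by decide +kernel) v (by norm_num; linarith) (by norm_num; linarith)
  have s17 : v ≤ (-40 : ℝ) / 1 → (-41 : ℝ) / 1 ≤ v → EF 3063060 1 lN v ≤ ((22739 : ℝ) / 1000) := fun ha hb =>
    EF_le (Dc := 3063060) (M := 1) (l := lN) (A := 69650921340000000000) (by norm_num) (by norm_num) (by norm_num) _ (by norm_num) (st := 1) (c := 1)
      (by norm_num) (x0 := -41) (by decide +kernel) v (by norm_num; linarith) (by norm_num; linarith)
  have s18 : v ≤ (-32 : ℝ) / 1 → (-40 : ℝ) / 1 ≤ v → EF 3063060 1 lN v ≤ ((22739 : ℝ) / 1000) := fun ha hb =>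
    EF_le (Dc := 3063060) (M := 1) (l := lN) (A := 69650921340000000000) (by norm_num) (by norm_num) (by norm_num) _ (by norm_num) (st := 8) (c := 1)
      (by norm_num) (x0 := -40) (by decide +kernel) v (by norm_num; linarith) (by norm_num; linarith)
  have s19 : v ≤ (-30 : ℝ) / 1 → (-32 : ℝ) / 1 ≤ v → EF 3063060 1 lN v ≤ ((22739 : ℝ) / 1000) := fun ha hb =>
    EF_le (Dc := 3063060) (M := 1) (l := lN) (A := 69650921340000000000) (by norm_num) (by norm_num) (by norm_num) _ (by norm_num) (st := 2) (c := 1)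
      (by norm_num) (x0 := -32) (by decide +kernel) v (by norm_num; linarith) (by norm_num; linarith)
  have s20 : v ≤ (-22 : ℝ) / 1 → (-30 : ℝ) / 1 ≤ v → EF 3063060 1 lN v ≤ ((22739 : ℝ) / 1000) := fun ha hb =>
    EF_le (Dc := 3063060) (M := 1) (l := lN) (A := 69650921340000000000) (by norm_num) (by norm_num) (by norm_num) _ (by norm_num) (st := 8) (c := 1)
      (by norm_num) (x0 := -30) (by decide +kernel) v (by norm_num; linarith) (by norm_num; linarith)
  have s21 : v ≤ (-20 : ℝ) / 1 → (-22 : ℝ) / 1 ≤ v → EF 3063060 1 lN v ≤ ((22739 : ℝ) / 1000) := fun ha hb =>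
    EF_le (Dc := 3063060) (M := 1) (l := lN) (A := 69650921340000000000) (by norm_num) (by norm_num) (by norm_num) _ (by norm_num) (st := 2) (c := 1)
      (by norm_num) (x0 := -22) (by decide +kernel) v (by norm_num; linarith) (by norm_num; linarith)
  rcases le_total v ((-116 : ℝ) / 1) with k0 | k0
  · exact s0 k0 (by linarith)
  rcases le_total v ((-108 : ℝ) / 1) with k1 | k1
  · exact s1 k1 (by linarith)
  rcases le_total v ((-104 : ℝ) / 1) with k2 | k2
  · exact s2 k2 (by linarith)
  rcases le_total v ((-96 : ℝ) / 1) with k3 | k3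
  · exact s3 k3 (by linarith)
  rcases le_total v ((-95 : ℝ) / 1) with k4 | k4
  · exact s4 k4 (by linarith)
  rcases le_total v ((-91 : ℝ) / 1) with k5 | k5
  · exact s5 k5 (by linarith)
  rcases le_total v ((-87 : ℝ) / 1) with k6 | k6
  · exact s6 k6 (by linarith)
  rcases le_total v ((-85 : ℝ) / 1) with k7 | k7
  · exact s7 k7 (by linarith)
  rcases le_total v ((-77 : ℝ) / 1) with k8 | k8
  · exact s8 k8 (by linarith)
  rcases le_total v ((-76 : ℝ) / 1) with k9 | k9
  · exact s9 k9 (by linarith)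
  rcases le_total v ((-68 : ℝ) / 1) with k10 | k10
  · exact s10 k10 (by linarith)
  rcases le_total v ((-60 : ℝ) / 1) with k11 | k11
  · exact s11 k11 (by linarith)
  rcases le_total v ((-56 : ℝ) / 1) with k12 | k12
  · exact s12 k12 (by linarith)
  rcases le_total v ((-48 : ℝ) / 1) with k13 | k13
  · exact s13 k13 (by linarith)
  rcases le_total v ((-44 : ℝ) / 1) with k14 | k14
  · exact s14 k14 (by linarith)
  rcases le_total v ((-43 : ℝ) / 1) with k15 | k15
  · exact s15 k15 (by linarith)
  rcases le_total v ((-41 : ℝ) / 1) with k16 | k16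
  · exact s16 k16 (by linarith)
  rcases le_total v ((-40 : ℝ) / 1) with k17 | k17
  · exact s17 k17 (by linarith)
  rcases le_total v ((-32 : ℝ) / 1) with k18 | k18
  · exact s18 k18 (by linarith)
  rcases le_total v ((-30 : ℝ) / 1) with k19 | k19
  · exact s19 k19 (by linarith)
  rcases le_total v ((-22 : ℝ) / 1) with k20 | k20
  · exact s20 k20 (by linarith)
  exact s21 (by linarith) (by linarith)

end TV

theorem FN_poles (w : ℝ) (h0 : -120 ≤ w) (h1 : w ≤ -20) : FN w ≤ 65 := by
  rw [TV.FN_eq]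
  linarith [TV.E_up w h0 h1, TV3.const_bound]

end Pool.Agent.LM
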