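import Pool.Agent.H103R2.LM.R
import Pool.Agent.H103R2.LM.V
import Pool.Agent.H103R2.LM.P
import Pool.Agent.H103R2.LM.H

/-!
# Explicit measure: `|a + b ζ(2) + d ζ(3)| ≥ c H^(-233)` for `d ≠ 0`
-/

open Polynomial Pool.Agent.H337R2 Filter Topology Pool.Agent.LZ

namespace Pool.Agent.LM

noncomputable section

/-- the total potential of the zeta part at the poles -/
lemma potX : ∃ C : ℝ, 0 < C ∧ ∀ n : ℕ, 2 ≤ n → ∀ k ∈ sL n,
    n * phi (-(10 * k : ℝ) / n) + Lp n (Finset.range (14 * n)) (-(10 * k : ℤ)) +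
      Lp n (Finset.range (7 * n)) (-(10 * k : ℤ)) ≤
      65 * n + 21 * n * Real.log n + C * Real.log n := by
  obtain ⟨C3, hC3, h3⟩ := G3_Lp
  refine ⟨16 * C3, by positivity, fun n hn k hk => ?_⟩
  rw [Finset.mem_Icc] at hk
  have hn' := AM.two_le hn
  have hn0 : (0 : ℝ) < n := by linarith
  have hl2 : 0 < Real.log 2 := Real.log_pos (by norm_num)
  have hl := AM.log2_le hn
  have hk1 : 2 * (n : ℝ) + 1 ≤ k := by exact_mod_cast hk.1
  have hk2 : (k : ℝ) ≤ 12 * n := by exact_mod_cast hk.2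
  have a2 := (abs_le.mp (h3 n hn 0 14 (by norm_num) le_rfl (-(10 * (k : ℤ))))).2
  have a3 := (abs_le.mp (h3 n hn 0 7 (by norm_num) (by norm_num) (-(10 * (k : ℤ))))).2
  rw [← AM.range_eq] at a2 a3
  push_cast at a2 a3
  have habs : |-(10 * (k : ℝ))| = 10 * k := by rw [abs_neg, abs_of_nonneg (by positivity)]
  rw [habs] at a2 a3
  have hlog : Real.log ((n : ℝ) + 10 * k) ≤ 8 * Real.log n := by
    have e1 : Real.log ((n : ℝ) + 10 * k) ≤ Real.log (2 ^ 7 * (n : ℝ)) :=
      Real.log_le_log (by linarith) (by linarith)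
    rw [Real.log_mul (by norm_num) (by linarith), Real.log_pow] at e1
    push_cast at e1
    linarith
  have hs : ∑ g ∈ Finset.Ico 0 14, Ub g (-(10 * (k : ℝ)) / n) =
      ∑ g ∈ Finset.range 7, Ub g (-(10 * (k : ℝ)) / n) + ∑ g ∈ Finset.Ico 7 14, Ub g (-(10 * (k : ℝ)) / n) := by
    rw [Finset.range_eq_Ico, Finset.sum_Ico_consecutive _ (by norm_num) (by norm_num)]
  rw [hs] at a2
  rw [← Finset.range_eq_Ico] at a3
  have hC3l : C3 * Real.log ((n : ℝ) + 10 * k) ≤ 8 * (C3 * Real.log n) := by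
    calc C3 * Real.log ((n : ℝ) + 10 * k) ≤ C3 * (8 * Real.log n) := by gcongr
      _ = _ := by ring
  have hw1 : -120 ≤ -(10 * (k : ℝ)) / n := by
    rw [le_div_iff₀ hn0]; linarith
  have hw2 : -(10 * (k : ℝ)) / n ≤ -20 := by
    rw [div_le_iff₀ hn0]; linarith
  have hF := mul_le_mul_of_nonneg_left (FN_poles _ hw1 hw2) hn0.le
  unfold FN at hF
  have e3 : 16 * C3 * Real.log n = 8 * (C3 * Real.log n) + 8 * (C3 * Real.log n) := by ring
  rw [e3]
  simp only [sub_zero] at a2 a3
  have e4 : (n : ℝ) * (phi (-(10 * (k : ℝ)) / n) + 2 * ∑ g ∈ Finset.range 7, Ub g (-(10 * (k : ℝ)) / n) +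
      ∑ g ∈ Finset.Ico 7 14, Ub g (-(10 * (k : ℝ)) / n)) = n * phi (-(10 * (k : ℝ)) / n) +
      n * (∑ g ∈ Finset.range 7, Ub g (-(10 * (k : ℝ)) / n) + ∑ g ∈ Finset.Ico 7 14, Ub g (-(10 * (k : ℝ)) / n)) +
      n * ∑ g ∈ Finset.range 7, Ub g (-(10 * (k : ℝ)) / n) := by ring
  rw [e4] at hF
  linarith


open AM in
/-- **the archimedean part**, with the statements of the other tasks as hypotheses -/
theorem AX_main (δ : ℝ) (hδ : 0 < δ) : ∀ᶠ n : ℕ in atTop, ∀ α β : ℚ,
    |et α β| ≤ Real.exp (-((1091 / 20 + δ) * n)) → DD n α β ≠ 0 →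
    Real.log |((DD n α β : ℚ) : ℝ)| ≤ 147 * (n : ℝ) ^ 2 * Real.log n + (1391 / 10 + δ) * (n : ℝ) ^ 2 +
      7 * n * Real.log (1 + |(β : ℝ)|) := by
  have V4 : AM.SV4 := V4_eS
  have V5 : AM.SV5 := V5_eN
  have G6 : AM.SG6 := G6_pair
  obtain ⟨K1, hK1, hsup⟩ := supN V1_upper V1_tail
  obtain ⟨K2, hK2, hlow⟩ := lowN
  obtain ⟨CR, hCR, hpN⟩ := potX
  set C2 : ℝ := 1505 with hC2
  obtain ⟨C3, hC3, hY⟩ := potY
  obtain ⟨C5, hC5, hS⟩ := G5_sat
  obtain ⟨C6, hC6, hG6⟩ := G6
  obtain ⟨K7, hK7, h200⟩ := const_le (Real.log 201)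
  obtain ⟨K8, hK8, h400⟩ := const_le (Real.log 400)
  set T : ℝ := 70 + 2 * (K1 + K2 + K8) + 5 * (K7 + K1) + 7 * (C3 + C2) + C5 + 392 * C6 with hT
  have hlog0 : Tendsto (fun n : ℕ => Real.log n / (n : ℝ)) atTop (𝓝 0) := by
    have := (Real.isLittleO_log_id_atTop.tendsto_div_nhds_zero).comp tendsto_natCast_atTop_atTop
    simpa [Function.comp_def] using this
  have hsm : ∀ᶠ n : ℕ in atTop, (CR + 1505) * Real.log n ≤ δ * n := by
    have h2 : Tendsto (fun n : ℕ => (CR + 1505) * (Real.log n / (n : ℝ))) atTop (𝓝 ((CR + 1505) * 0)) :=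
      hlog0.const_mul _
    rw [mul_zero] at h2
    filter_upwards [h2.eventually (gt_mem_nhds hδ), eventually_ge_atTop 1] with n h3 h4
    have hn0 : (0 : ℝ) < n := by exact_mod_cast h4
    have h5 : (CR + 1505) * Real.log n = ((CR + 1505) * (Real.log n / (n : ℝ))) * n := by field_simp
    rw [h5]
    exact mul_le_mul_of_nonneg_right h3.le hn0.le
  have key : ∀ᶠ n : ℕ in atTop, ∀ α β : ℚ, |et α β| ≤ Real.exp (-((1091 / 20 + δ) * n)) → DD n α β ≠ 0 →
      Real.log |((DD n α β : ℚ) : ℝ)| ≤ 147 * ((n : ℝ) ^ 2 * Real.log n) + 1391 / 10 * (n : ℝ) ^ 2 +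
        T * (n * Real.log n) + 7 * n * Real.log (1 + |(β : ℝ)|) := by
    filter_upwards [hsup, eventually_ge_atTop 2, hsm] with n hsup hn hsm α β heta hD
    have hn' := two_le hn
    have hnp : (0 : ℝ) < n := by linarith
    have hl2 : 0 < Real.log 2 := Real.log_pos (by norm_num)
    have hl := log2_le hn
    have hln : 0 < Real.log n := by linarith
    set MM : ℝ := Real.exp (209 / 20 * n + 21 * n * Real.log n + K1 * Real.log n) with hMM
    have hMM0 : 0 < MM := Real.exp_pos _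
    set L : ℕ → ℝ := fun j => Lp n (Finset.range (14 * n)) (10 * j) + Lp n (Finset.range (7 * n)) (10 * j) with hL
    set Lb : ℝ := Real.log (1 + |(β : ℝ)|) with hLb
    have hLb0 : 0 ≤ Lb := Real.log_nonneg (by linarith [abs_nonneg (β : ℝ)])
    set b : ℕ → ℝ := fun j => if j < 2 * n then Wt n j * Real.exp (L j) + 201 * MM
      else if j < 7 * n then 201 * MM
      else Real.exp (923 / 20 * n + 21 * n * Real.log n + C3 * Real.log n + C2 * Real.log n + Lb) with hb
    have hbpos : ∀ j, 0 < b j := by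
      intro j
      rw [hb]
      dsimp only
      have := Wt_pos n j
      split_ifs <;> positivity
    -- the matrix
    have e14 : 2 * (7 * n) = 14 * n := by ring
    have hinj : Set.InjOn (zq n) (Finset.range (2 * (7 * n))) := by
      rw [e14]
      intro i hi j hj hij
      unfold zq at hij
      have h2 : (nd n i : ℚ) = nd n j := by linarith
      exact G0_nd_inj (by omega) hi hj (by exact_mod_cast h2)
    have h5 := A5_lagrange (AL n α) (BL n β) (zr 2) (7 * n) (zq n) hinj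
    rw [e14] at h5
    change _ = ((DD n α β : ℚ) : ℝ) ^ 2 * _ at h5
    set M : Matrix (Fin (14 * n)) (Fin (14 * n)) ℝ := (Matrix.of fun i j : Fin (14 * n) =>
      if j.1 < 7 * n then
        ((AL n α (lag (Finset.range (14 * n)) (zq n) i.1 * lag (Finset.range (7 * n)) (zq n) j.1) : ℚ) : ℝ) +
          zr 2 * ((BL n β (lag (Finset.range (14 * n)) (zq n) i.1 * lag (Finset.range (7 * n)) (zq n) j.1) : ℚ) : ℝ)
      else ((BL n β (lag (Finset.range (14 * n)) (zq n) i.1 *
        lag (Finset.Ico (7 * n) (14 * n)) (zq n) j.1) : ℚ) : ℝ)) with hM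
    have hcorr : ∀ i j : ℕ, |et α β * ((rho n (PL n * (lag (Finset.range (14 * n)) (zq n) i *
        lag (Finset.range (7 * n)) (zq n) j)) 3 : ℚ) : ℝ)| ≤ MM := by
      intro i j
      have r1 := RU_rho hn (Finset.range (7 * n)) (Finset.range_subset_range.mpr (by omega)) i j 3
        (by norm_num) _ (fun k hk => hpN n hn k hk)
      rw [abs_mul]
      refine (mul_le_mul heta r1 (abs_nonneg _) (Real.exp_pos _).le).trans ?_
      rw [← Real.exp_add, hMM]
      apply Real.exp_le_exp.mpr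
      have q3 : 0 ≤ K1 * Real.log n := by positivity
      have q5 : -((1091 / 20 + δ) * (n : ℝ)) + (65 * n + 21 * n * Real.log n + CR * Real.log n +
        1505 * Real.log n) = 209 / 20 * n + 21 * n * Real.log n + ((CR + 1505) * Real.log n - δ * n) := by ring
      rw [q5]
      linarith
    have hentry : ∀ i j : Fin (14 * n), |M i j| ≤ b j := by
      intro i j
      rw [hM, hb]
      simp only [Matrix.of_apply]
      by_cases hj7 : j.1 < 7 * n
      · rw [if_pos hj7]
        have h1 := GU_entryN (by omega : 1 ≤ n) α β MM hMM0.le hsup i.1 j.1 i.2 hj7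
        have h2 := hcorr i.1 j.1
        set E : ℝ := et α β * ((rho n (PL n * (lag (Finset.range (14 * n)) (zq n) i.1 *
          lag (Finset.range (7 * n)) (zq n) j.1)) 3 : ℚ) : ℝ) with hE
        set F : ℝ := ((AL n α (lag (Finset.range (14 * n)) (zq n) i.1 *
            lag (Finset.range (7 * n)) (zq n) j.1) : ℚ) : ℝ) +
          zr 2 * ((BL n β (lag (Finset.range (14 * n)) (zq n) i.1 *
            lag (Finset.range (7 * n)) (zq n) j.1) : ℚ) : ℝ) with hF
        have h3 : |F| ≤ |F + E| + |E| := by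
          have := abs_sub_le (F + E) E 0
          have e1 : F = (F + E) - E := by ring
          calc |F| = |(F + E) - E| := by rw [← e1]
            _ ≤ |F + E| + |E| := abs_sub _ _
        by_cases hj2 : j.1 < 2 * n
        · rw [if_pos hj2]
          rw [if_pos hj2] at h1
          have e2 : Wt n j.1 * Real.exp (L j.1) = Wt n j.1 * Real.exp (Lp n (Finset.range (14 * n)) (10 * j.1) +
            Lp n (Finset.range (7 * n)) (10 * j.1)) := rfl
          rw [e2]
          linarith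
        · rw [if_neg hj2, if_pos hj7]
          rw [if_neg hj2, zero_add] at h1
          linarith
      · rw [if_neg hj7, if_neg (by omega), if_neg hj7]
        exact RU_entryY β hn _ (fun k hk => hY n hn k hk) i.1 j.1
    have hdet := A6_det_le (14 * n) M b (fun j => (hbpos j).le) hentry
    -- logarithms
    have hDr : ((DD n α β : ℚ) : ℝ) ≠ 0 := by exact_mod_cast hD
    have v1 := VD_pos (n := n) (by omega) (s := Finset.range (14 * n)) (Finset.Subset.refl _)
    have v2 := VD_pos (n := n) (by omega) (s := Finset.range (7 * n))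
      (Finset.range_subset_range.mpr (by omega))
    have v3 := VD_pos (n := n) (by omega) (s := Finset.Ico (7 * n) (14 * n))
      (fun i hi => Finset.mem_range.mpr (Finset.mem_Ico.mp hi).2)
    have hM0 : M.det ≠ 0 := by
      intro h0
      rw [h0] at h5
      have : (0 : ℝ) < ((DD n α β : ℚ) : ℝ) ^ 2 *
        (VD (Finset.range (14 * n)) (zq n) * VD (Finset.range (7 * n)) (zq n) *
          VD (Finset.Ico (7 * n) (14 * n)) (zq n)) := by positivity
      rw [← h5] at this
      norm_num at this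
    have hlog1 : 2 * Real.log |M.det| = 2 * Real.log |((DD n α β : ℚ) : ℝ)| +
        (Real.log (VD (Finset.range (14 * n)) (zq n)) + Real.log (VD (Finset.range (7 * n)) (zq n)) +
          Real.log (VD (Finset.Ico (7 * n) (14 * n)) (zq n))) := by
      have := congrArg Real.log h5
      rw [Real.log_pow, Real.log_mul (pow_ne_zero 2 hDr) (by positivity), Real.log_pow,
        Real.log_mul (by positivity) v3.ne', Real.log_mul v1.ne' v2.ne'] at this
      rw [Real.log_abs, Real.log_abs]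
      push_cast at this
      exact this
    have hlog2 : Real.log |M.det| ≤ Real.log ((14 * n).factorial : ℝ) +
        ∑ j ∈ Finset.range (14 * n), Real.log (b j) := by
      rw [← Real.log_prod (fun i _ => (hbpos i).ne'),
        ← Real.log_mul (by positivity) (Finset.prod_pos fun i _ => hbpos i).ne']
      exact Real.log_le_log (abs_pos.mpr hM0) hdet
    have hcross := G6_cross (n := n) (by omega)
    have hfac := logfac hn
    have h200n := h200 n hn
    have h400n := h400 n hn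
    -- the three ranges
    have hb1 : ∀ j ∈ Finset.range (2 * n), Real.log (b j) ≤ Real.log (Wt n j) + L j +
        (1 / 5 * (n : ℝ) + (K1 + K2 + K8) * Real.log n) := by
      intro j hj
      rw [Finset.mem_range] at hj
      have hlo := hlow n hn j hj
      rw [hb]
      dsimp only
      rw [if_pos hj]
      change _ ≤ _ + L j at hlo
      have hW := Wt_pos n j
      have e1 : Wt n j * Real.exp (L j) = Real.exp (Real.log (Wt n j) + L j) := by
        rw [Real.exp_add (Real.log (Wt n j)) (L j), Real.exp_log hW]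
      set A : ℝ := Real.log (Wt n j) + L j with hA
      set R : ℝ := 1 / 5 * (n : ℝ) + (K1 + K2) * Real.log n with hR
      have hR0 : 0 ≤ R := by rw [hR]; positivity
      have e2 : MM ≤ Real.exp (A + R) := by
        rw [hMM]
        apply Real.exp_le_exp.mpr
        rw [hR]
        linarith
      have e3 : Real.exp A ≤ Real.exp (A + R) := Real.exp_le_exp.mpr (by linarith)
      have e4 : Wt n j * Real.exp (L j) + 201 * MM ≤ 400 * Real.exp (A + R) := by
        rw [e1]
        have := Real.exp_pos (A + R)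
        linarith
      calc Real.log (Wt n j * Real.exp (L j) + 201 * MM) ≤ Real.log (400 * Real.exp (A + R)) :=
            Real.log_le_log (by positivity) e4
        _ = Real.log 400 + (A + R) := by
            rw [Real.log_mul (by norm_num) (Real.exp_pos _).ne', Real.log_exp]
        _ ≤ _ := by
            rw [hR]
            linarith
    have hb2 : ∀ j ∈ Finset.Ico (2 * n) (7 * n), Real.log (b j) ≤
        209 / 20 * n + 21 * n * Real.log n + (K7 + K1) * Real.log n := by
      intro j hj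
      rw [Finset.mem_Ico] at hj
      rw [hb]
      dsimp only
      rw [if_neg (by omega), if_pos hj.2, Real.log_mul (by norm_num) hMM0.ne', hMM, Real.log_exp]
      linarith
    have hb3 : ∀ j ∈ Finset.Ico (7 * n) (14 * n), Real.log (b j) ≤
        923 / 20 * n + 21 * n * Real.log n + (C3 + C2) * Real.log n + Lb := by
      intro j hj
      rw [Finset.mem_Ico] at hj
      rw [hb]
      dsimp only
      rw [if_neg (by omega), if_neg (by omega), Real.log_exp]
      linarith
    have hs1 := Finset.sum_le_sum hb1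
    have hs2 := Finset.sum_le_sum hb2
    have hs3 := Finset.sum_le_sum hb3
    rw [Finset.sum_add_distrib, Finset.sum_const, Finset.card_range, nsmul_eq_mul] at hs1
    rw [Finset.sum_const, Nat.card_Ico, nsmul_eq_mul] at hs2 hs3
    have c2 : 7 * n - 2 * n = 5 * n := by omega
    have c3 : 14 * n - 7 * n = 7 * n := by omega
    rw [c2] at hs2
    rw [c3] at hs3
    have hsplit : ∑ j ∈ Finset.range (14 * n), Real.log (b j) =
        ∑ j ∈ Finset.range (2 * n), Real.log (b j) + ∑ j ∈ Finset.Ico (2 * n) (7 * n), Real.log (b j) +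
          ∑ j ∈ Finset.Ico (7 * n) (14 * n), Real.log (b j) := by
      rw [Finset.sum_range_add_sum_Ico _ (by omega), Finset.sum_range_add_sum_Ico _ (by omega)]
    -- energies
    have hSn := hS n hn
    have hE1 := energy hC6 hn (hG6 n hn) 2 7 2 14 (by norm_num) (by norm_num) (by norm_num) (by norm_num)
    have hE2 := energy hC6 hn (hG6 n hn) 7 14 7 14 (by norm_num) (by norm_num) (by norm_num) (by norm_num)
    have hcr1 : ∑ i ∈ Finset.range (2 * n), (Lp n (Finset.range (14 * n)) (nd n i) +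
        Lp n (Finset.range (7 * n)) (nd n i) - Lp n (Finset.range (2 * n)) (nd n i)) =
        ∑ i ∈ Finset.range (2 * n), (Real.log (Wt n i) + L i) -
        ∑ t ∈ Finset.range (2 * n), (Real.log (Wt n t) + Lp n (Finset.range (2 * n)) (10 * t)) := by
      rw [← Finset.sum_sub_distrib]
      apply Finset.sum_congr rfl
      intro i hi
      rw [G0_nd_sat (by omega) (Finset.mem_range.mp hi), hL]
      dsimp only
      ring
    rw [hcr1] at hcross
    have heN : eN = ∑ g ∈ Finset.Ico 2 7, ∑ h ∈ Finset.Ico 2 14, en g h +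
        ∑ g ∈ Finset.Ico 7 14, ∑ h ∈ Finset.Ico 7 14, en g h := by
      unfold eN
      rw [← Finset.sum_add_distrib]
      congr 1
      apply Finset.sum_congr rfl
      intro g _
      rw [Finset.sum_Ico_consecutive _ (by norm_num) (by norm_num)]
    have hV4 : eS * (n : ℝ) ^ 2 ≤ -469 / 10 * (n : ℝ) ^ 2 :=
      mul_le_mul_of_nonneg_right V4 (by positivity)
    have hV5 : 1897 / 10 * (n : ℝ) ^ 2 ≤ eN * (n : ℝ) ^ 2 :=
      mul_le_mul_of_nonneg_right V5 (by positivity)
    rw [heN, add_mul] at hV5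
    rw [hsplit] at hlog2
    norm_num at hE1 hE2
    push_cast at hs1 hs2 hs3
    have t1 : 2 * (n : ℝ) * (1 / 5 * (n : ℝ) + (K1 + K2 + K8) * Real.log n) =
      2 / 5 * (n : ℝ) ^ 2 + 2 * (K1 + K2 + K8) * (n * Real.log n) := by ring
    have t2 : 5 * (n : ℝ) * (209 / 20 * n + 21 * n * Real.log n + (K7 + K1) * Real.log n) =
      209 / 4 * (n : ℝ) ^ 2 + 105 * ((n : ℝ) ^ 2 * Real.log n) + 5 * (K7 + K1) * (n * Real.log n) := by ring
    have t3 : 7 * (n : ℝ) * (923 / 20 * n + 21 * n * Real.log n + (C3 + C2) * Real.log n + Lb) =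
      6461 / 20 * (n : ℝ) ^ 2 + 147 * ((n : ℝ) ^ 2 * Real.log n) + 7 * (C3 + C2) * (n * Real.log n) +
      7 * n * Lb := by ring
    have t4 : 14 * (n : ℝ) * (5 * Real.log n) = 70 * (n * Real.log n) := by ring
    have t5 : T * (n * Real.log n) = 70 * (n * Real.log n) + 2 * (K1 + K2 + K8) * (n * Real.log n) +
      5 * (K7 + K1) * (n * Real.log n) + 7 * (C3 + C2) * (n * Real.log n) + C5 * n * Real.log n +
      392 * (C6 * n * Real.log n) := by rw [hT]; ring
    have t6 : 4 * (n : ℝ) ^ 2 * Real.log n = 4 * ((n : ℝ) ^ 2 * Real.log n) := by ring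
    rw [t1] at hs1
    rw [t2] at hs2
    rw [t3] at hs3
    rw [t4] at hfac
    rw [t6] at hSn
    rw [t5]
    linarith
  -- conclude
  have hlim : ∀ᶠ n : ℕ in atTop, T * (n * Real.log n) ≤ δ * (n : ℝ) ^ 2 := by
    have h2 : Tendsto (fun n : ℕ => T * (Real.log n / (n : ℝ))) atTop (𝓝 (T * 0)) := hlog0.const_mul _
    rw [mul_zero] at h2
    filter_upwards [h2.eventually (gt_mem_nhds hδ), eventually_ge_atTop 1] with n h3 h4
    have hn0 : (0 : ℝ) < n := by exact_mod_cast h4
    have h5 : T * (n * Real.log n) = (T * (Real.log n / (n : ℝ))) * (n : ℝ) ^ 2 := by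
      field_simp
    rw [h5]
    gcongr
  filter_upwards [hlim, key] with n h1 h2 α β heta hD
  have := h2 α β heta hD
  linarith

/-- a prime in `(M, 4M/3]` not dividing `d` -/
theorem prime_selX : ∃ M0 : ℕ, ∀ M : ℕ, M0 ≤ M → ∀ d : ℕ, d ≠ 0 → Real.log d < 32 / 100 * M →
    ∃ p : ℕ, p.Prime ∧ M < p ∧ 3 * p ≤ 4 * M ∧ ¬ p ∣ d := by
  classical
  have h := F1_lin 1 (4 / 3) (by norm_num) (by norm_num) (by norm_num) 1 0
  norm_num at h
  have h2 := h.eventually_const_lt (show (32 / 100 : ℝ) < 1 / 3 by norm_num)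
  obtain ⟨M0, hM0⟩ := eventually_atTop.1 (h2.and (eventually_ge_atTop 1))
  refine ⟨M0, fun M hM d hd hlog => ?_⟩
  obtain ⟨h3, h4⟩ := hM0 M hM
  have hM1 : (0 : ℝ) < M := by exact_mod_cast h4
  by_contra hcon
  push Not at hcon
  have hmem : ∀ p ∈ PR 1 (4 / 3) M, p.Prime ∧ M < p ∧ 3 * p ≤ 4 * M := by
    intro p hp
    unfold PR at hp
    simp only [Finset.mem_filter] at hp
    obtain ⟨-, q1, q2, q3⟩ := hp
    rw [one_mul] at q2
    have q4 : (3 : ℚ) * p ≤ 4 * M := by linarith
    exact ⟨q1, by exact_mod_cast q2, by exact_mod_cast q4⟩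
  have hdvd : ∏ p ∈ PR 1 (4 / 3) M, p ∣ d := by
    apply Finset.prod_primes_dvd
    · intro p hp
      exact (hmem p hp).1.prime
    · intro p hp
      obtain ⟨q1, q2, q3⟩ := hmem p hp
      exact hcon p q1 q2 q3
  have hle : ∏ p ∈ PR 1 (4 / 3) M, p ≤ d := Nat.le_of_dvd (Nat.pos_of_ne_zero hd) hdvd
  have hpos : ∀ p ∈ PR 1 (4 / 3) M, (p : ℝ) ≠ 0 := fun p hp => by exact_mod_cast (hmem p hp).1.ne_zero
  have hl : ∑ p ∈ PR 1 (4 / 3) M, Real.log p ≤ Real.log d := by
    rw [← Real.log_prod hpos]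
    apply Real.log_le_log
    · exact Finset.prod_pos fun p hp => by exact_mod_cast (hmem p hp).1.pos
    · have : ((∏ p ∈ PR 1 (4 / 3) M, p : ℕ) : ℝ) ≤ (d : ℝ) := by exact_mod_cast hle
      push_cast at this
      exact this
  have h5 : ∑ p ∈ PR 1 (4 / 3) M, (M : ℝ) * Real.log p = M * ∑ p ∈ PR 1 (4 / 3) M, Real.log p := by
    rw [Finset.mul_sum]
  rw [h5, lt_div_iff₀ (by positivity)] at h3
  nlinarith

lemma QI_divX (a d : ℤ) (hd : d ≠ 0) : QI d.natAbs (-(a : ℚ) / d) := by
  have hd' : (d : ℚ) ≠ 0 := by exact_mod_cast hd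
  refine ⟨Int.natAbs_pos.2 hd, -a * d.sign, ?_⟩
  have h : (d.natAbs : ℚ) = d * d.sign := by
    rw [← Int.cast_mul, Int.mul_sign_self, Int.cast_natCast]
  rw [h]
  push_cast
  field_simp

/-- **measure, `d ≠ 0`** -/
theorem measure_dX : ∃ c : ℝ, 0 < c ∧ ∀ a b d : ℤ, ∀ H : ℝ, 1 ≤ H → d ≠ 0 →
    |(b : ℝ)| ≤ H → |(d : ℝ)| ≤ H → c * H ^ (-(233 : ℝ)) ≤ |(a : ℝ) + b * zr 2 + d * zr 3| := by
  obtain ⟨p0, hp0⟩ := HU_nonvanish
  have hA := AX_main (1 / 200) (by norm_num)
  have hP := PU_main (1 / 200) (by norm_num)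
  obtain ⟨M0, hM0⟩ := prime_selX
  set C0 : ℝ := 1091 / 20 + 1 / 200 with hC0'
  have hC0 : 0 < C0 := by rw [hC0']; norm_num
  obtain ⟨N, hN⟩ := eventually_atTop.1 (hP.and (hA.and (eventually_ge_atTop 1)))
  set N1 : ℕ := N + p0 + M0 with hN1
  refine ⟨Real.exp (-(C0 * (4 / 3 * (N1 + 4)))), Real.exp_pos _, ?_⟩
  intro a b d H hH hd hb hdH
  by_contra hlt
  push Not at hlt
  have hH0 : 0 < H := by linarith
  set L : ℝ := Real.log H with hL
  have hL0 : 0 ≤ L := Real.log_nonneg hH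
  set M : ℕ := N1 + ⌈16 / 5 * L⌉₊ + 3 with hM
  have hc1 : 16 / 5 * L ≤ (⌈16 / 5 * L⌉₊ : ℝ) := Nat.le_ceil _
  have hc2 : (⌈16 / 5 * L⌉₊ : ℝ) < 16 / 5 * L + 1 := Nat.ceil_lt_add_one (by positivity)
  have hMr : (M : ℝ) = N1 + (⌈16 / 5 * L⌉₊ : ℝ) + 3 := by rw [hM]; push_cast; ring
  have hN1r : (0 : ℝ) ≤ N1 := Nat.cast_nonneg _
  set q : ℕ := d.natAbs with hq
  have hq0 : q ≠ 0 := Int.natAbs_ne_zero.2 hd
  have hqr : (q : ℝ) = |(d : ℝ)| := by
    rw [hq, Nat.cast_natAbs]; push_cast; rfl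
  have hqpos : (0 : ℝ) < q := by exact_mod_cast Nat.pos_of_ne_zero hq0
  have hq1 : (1 : ℝ) ≤ q := by exact_mod_cast Nat.one_le_iff_ne_zero.2 hq0
  have hqH : (q : ℝ) ≤ H := by rw [hqr]; exact hdH
  have hlq : Real.log q ≤ L := Real.log_le_log hqpos hqH
  obtain ⟨n, hnp, hn1, hn2, hnd⟩ := hM0 M (by omega) q hq0 (by linarith)
  have hF : Fact n.Prime := ⟨hnp⟩
  have hnN : N ≤ n := by omega
  obtain ⟨h1, h2, h4⟩ := hN n hnN
  have hnr : (M : ℝ) < n := by exact_mod_cast hn1
  have hnr2 : 3 * (n : ℝ) ≤ 4 * M := by exact_mod_cast hn2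
  have hn0 : (0 : ℝ) < n := by linarith
  set α : ℚ := -(a : ℚ) / d with hα'
  set β : ℚ := -(b : ℚ) / d with hβ'
  have hα : QI q α := QI_divX a d hd
  have hβ : QI q β := QI_divX b d hd
  have hpd : padicNorm n (d : ℚ) = 1 := by
    rw [padicNorm.int_eq_one_iff]
    intro hdv
    exact hnd (Int.natCast_dvd.1 hdv)
  have hpα : padicNorm n α ≤ 1 := by
    rw [hα', padicNorm.div, hpd, div_one, padicNorm.neg]
    exact padicNorm.of_int a
  have hpβ : padicNorm n β ≤ 1 := by
    rw [hβ', padicNorm.div, hpd, div_one, padicNorm.neg]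
    exact padicNorm.of_int b
  have hne := hp0 n (by omega) hnp α β hpα hpβ
  have hd' : (d : ℝ) ≠ 0 := by exact_mod_cast hd
  have het : et α β = ((a : ℝ) + b * zr 2 + d * zr 3) / d := by
    unfold et
    rw [hα', hβ']
    push_cast
    field_simp
    ring
  have heta : |et α β| ≤ Real.exp (-(C0 * n)) := by
    rw [het, abs_div]
    have e1 : |(a : ℝ) + b * zr 2 + d * zr 3| / |(d : ℝ)| ≤ |(a : ℝ) + b * zr 2 + d * zr 3| := by
      apply div_le_self (abs_nonneg _)
      rw [← hqr]; exact hq1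
    refine e1.trans (hlt.le.trans ?_)
    rw [Real.rpow_def_of_pos hH0, ← Real.exp_add]
    apply Real.exp_le_exp.2
    have e2 : (n : ℝ) ≤ 4 / 3 * (N1 + 4) + 64 / 15 * L := by linarith
    have e3 := mul_le_mul_of_nonneg_left e2 hC0.le
    have e5 : C0 * (64 / 15 * L) ≤ 233 * L := by
      rw [hC0']
      nlinarith
    rw [← hL]
    have e6 : C0 * (4 / 3 * ((N1 : ℝ) + 4) + 64 / 15 * L) = C0 * (4 / 3 * (N1 + 4)) + C0 * (64 / 15 * L) := by ring
    rw [e6] at e3
    linarith
  have h1' := h1 q α β hα hβ hne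
  have h2' := h2 α β heta hne
  set z : ℚ := (q : ℚ) ^ (14 * n) * Pool.Agent.LZ.DD n α β with hz
  have hqq : (q : ℚ) ≠ 0 := by exact_mod_cast hq0
  have hz0 : z ≠ 0 := mul_ne_zero (pow_ne_zero _ hqq) hne
  have hS : ∀ p ∈ (Finset.range (14 * n + 1)).filter Nat.Prime, p.Prime := fun p hp =>
    (Finset.mem_filter.1 hp).2
  have hprod := Pool.Agent.H336R2.HD.A5_prod_formula z hz0 ((Finset.range (14 * n + 1)).filter Nat.Prime) hS
    (fun p => ((padicNorm p z : ℚ) : ℝ)) (fun p _ => le_rfl) (fun p hp hpS => by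
      apply P_large q α β hα hβ n h4 p hp
      by_contra hlt
      apply hpS
      rw [Finset.mem_filter, Finset.mem_range]
      exact ⟨by omega, hp⟩)
  have hpos : ∀ p ∈ (Finset.range (14 * n + 1)).filter Nat.Prime, ((padicNorm p z : ℚ) : ℝ) ≠ 0 :=
    fun p hp => (PM_z_pos p (hS p hp) z hz0).ne'
  have hDpos : 0 < |((Pool.Agent.LZ.DD n α β : ℚ) : ℝ)| := abs_pos.2 (by exact_mod_cast hne)
  have habs : |(z : ℝ)| = (q : ℝ) ^ (14 * n) * |((Pool.Agent.LZ.DD n α β : ℚ) : ℝ)| := by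
    rw [hz]
    push_cast
    rw [abs_mul, abs_of_pos (pow_pos hqpos _)]
  have hlog := Real.log_nonneg hprod
  rw [habs, Real.log_mul (mul_pos (pow_pos hqpos _) hDpos).ne' (Finset.prod_ne_zero_iff.2 hpos),
    Real.log_mul (pow_pos hqpos _).ne' hDpos.ne', Real.log_pow, Real.log_prod (fun p hp => hpos p hp)] at hlog
  push_cast at hlog
  -- the size of β
  have hβH : Real.log (1 + |(β : ℝ)|) ≤ L + 1 - Real.log q := by
    have b1 : 1 + |(β : ℝ)| = (q + |(b : ℝ)|) / q := by
      rw [hβ']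
      push_cast
      rw [abs_div, abs_neg, ← hqr]
      field_simp
    have b2 : Real.log (1 + |(β : ℝ)|) ≤ Real.log (2 * H / q) := by
      apply Real.log_le_log (by linarith [abs_nonneg (β : ℝ)])
      rw [b1]
      apply div_le_div_of_nonneg_right _ hqpos.le
      linarith
    rw [Real.log_div (by positivity) hqpos.ne', Real.log_mul (by norm_num) hH0.ne'] at b2
    have b3 := Real.log_two_lt_d9
    linarith
  have s1 : 7 * (n : ℝ) * Real.log (1 + |(β : ℝ)|) ≤ 7 * n * (L + 1 - Real.log q) :=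
    mul_le_mul_of_nonneg_left hβH (by positivity)
  have s2 : 7 * (n : ℝ) * Real.log q ≤ 7 * n * L :=
    mul_le_mul_of_nonneg_left hlq (by positivity)
  have s3 : (0 : ℝ) ≤ n * (14 * L + 7 - 439 / 100 * n) := by
    have : (n : ℝ) * (14 * L + 7 - 439 / 100 * n) = 7 * n * L + 7 * n * (L + 1) - 439 / 100 * (n : ℝ) ^ 2 := by
      ring
    rw [this]
    linarith
  have s4 : 14 * L + 7 - 439 / 100 * (n : ℝ) < 0 := by linarith
  have s5 : (n : ℝ) * (14 * L + 7 - 439 / 100 * n) < 0 := mul_neg_of_pos_of_neg hn0 s4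
  linarith

end

end Pool.Agent.LM
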