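import Mathlib

/-!
# An irrationality measure for `π² / 6`: definitions (Apéry's series for `ζ(2)`)
-/

namespace Pool.Agent.LM

noncomputable section

/-- `(-1)^(n+r) C(n,r) C(n+r,r)` -/
def ca (n r : ℕ) : ℤ := (-1) ^ (n + r) * ((n.choose r * (n + r).choose r : ℕ) : ℤ)

/-- `(-1)^s C(n,s)` -/
def cb (n s : ℕ) : ℤ := (-1) ^ s * ((n.choose s : ℕ) : ℤ)

/-- `∏_{k=0}^{n} (t + 1 + k)` -/
def pq (n t : ℕ) : ℚ := ∏ k ∈ Finset.range (n + 1), ((t : ℚ) + 1 + k)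

/-- `∑_t 1 / ((t + 1 + r) (t + 1 + s)) = [r = s] ζ(2) - Jq r s` -/
def Jq (r s : ℕ) : ℚ :=
  if r = s then ∑ k ∈ Finset.range r, 1 / ((k : ℚ) + 1) ^ 2
  else (∑ k ∈ Finset.range s, 1 / ((k : ℚ) + 1) - ∑ k ∈ Finset.range r, 1 / ((k : ℚ) + 1)) / ((r : ℚ) - s)

/-- coefficient of `ζ(2)` -/
def An (n : ℕ) : ℤ := ∑ r ∈ Finset.range (n + 1), ca n r * cb n r

/-- rational part -/
def Bn (n : ℕ) : ℚ := ∑ r ∈ Finset.range (n + 1), ∑ s ∈ Finset.range (n + 1), ((ca n r * cb n s : ℤ) : ℚ) * Jq r s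

/-- the summand -/
def Rt (n t : ℕ) : ℝ := ((n.factorial * t.descFactorial n : ℕ) : ℝ) / ((pq n t : ℚ) : ℝ) ^ 2

/-- `lcm(1, …, n)` -/
def dl (n : ℕ) : ℕ := (Finset.Icc 1 n).lcm id

/-- the linear form -/
def In (n : ℕ) : ℝ := (An n : ℝ) * (Real.pi ^ 2 / 6) - ((Bn n : ℚ) : ℝ)

end

end Pool.Agent.LM
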