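import Pool.Agent.H103R2.LM.Z2Defs

/-! STUBS. Never import this file in a finished module. -/

open Filter Topology

namespace Pool.Agent.LM

noncomputable section

/-- T1 -/
theorem T1_pfa (n t : ℕ) : ∑ r ∈ Finset.range (n + 1), (ca n r : ℚ) / ((t : ℚ) + 1 + r) =
    (t.descFactorial n : ℚ) / pq n t := by
  sorry

/-- T2 -/
theorem T2_pfb (n t : ℕ) : ∑ s ∈ Finset.range (n + 1), (cb n s : ℚ) / ((t : ℚ) + 1 + s) =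
    (n.factorial : ℚ) / pq n t := by
  sorry

/-- T3 -/
theorem T3_J (r s : ℕ) : HasSum (fun t : ℕ => 1 / (((t : ℝ) + 1 + r) * ((t : ℝ) + 1 + s)))
    ((if r = s then Real.pi ^ 2 / 6 else 0) - ((Jq r s : ℚ) : ℝ)) := by
  sorry

/-- T4 -/
theorem T4_hasSum (n : ℕ) : HasSum (Rt n) (In n) := by
  sorry

/-- T5 -/
theorem T5_term (n u : ℕ) : Rt n (u + n) ≤ (27 / 256 : ℝ) ^ n * (1 / ((u : ℝ) + 1) ^ 2) := by
  sorry

/-- T6 -/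
theorem T6_term (n : ℕ) : 1 / (16 ^ n * (2 * (n : ℝ) + 1) ^ 2) ≤ Rt n n := by
  sorry

/-- T7 (from T4, T5, T6) -/
theorem T7_In (n : ℕ) : 1 / (16 ^ n * (2 * (n : ℝ) + 1) ^ 2) ≤ In n ∧ In n ≤ 2 * (27 / 256 : ℝ) ^ n := by
  sorry

/-- T8 -/
theorem T8_An (n : ℕ) : |(An n : ℝ)| ≤ 32 ^ n := by
  sorry

/-- T9 -/
theorem T9_int (n : ℕ) : ∃ z : ℤ, ((dl n : ℕ) : ℚ) ^ 2 * Bn n = z := by
  sorry

/-- T10 (prime number theorem; search the pool for `psi n / n → 1` or similar) -/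
theorem T10_dl : ∀ᶠ n : ℕ in atTop, ((dl n : ℕ) : ℝ) ≤ Real.exp (11 / 10 * n) := by
  sorry

/-- T11 (from T7, T8, T9, T10) -/
theorem T11_measure : ∃ c : ℝ, 0 < c ∧ ∃ κ : ℝ, 0 < κ ∧ ∀ a b : ℤ, ∀ H : ℝ, 1 ≤ H → b ≠ 0 → |(a : ℝ)| ≤ H →
    |(b : ℝ)| ≤ H → c * H ^ (-κ) ≤ |(a : ℝ) + b * (Real.pi ^ 2 / 6)| := by
  sorry

end

end Pool.Agent.LM
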